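import Pool.Agent.H76.HI.SC

/-!
# Symmetry, more than two members
-/

set_option autoImplicit false

namespace Pool.Agent.H76.HI

open Set Pool.Agent.H41.HI Pool.Agent.H75.HCI Pool.Agent.H16.FK Filter

variable {C : Type} {M : List ℕ → C} {N : Subgroup (Equiv.Perm ℕ)} {k kc q : ℕ}

/-- All points of the first `q` members. -/
def cq (xs : Fin (q + 1) → Fin k → ℕ) (b : Fin (q * k)) : ℕ :=
  xs (finProdFinEquiv.symm b).1.castSucc (finProdFinEquiv.symm b).2

/-- The cell of the member `m`. -/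
def Jq (q k : ℕ) (m : Fin q) : List (Fin (q * k)) := List.ofFn fun a : Fin k => finProdFinEquiv (m, a)

lemma jq_map (xs : Fin (q + 1) → Fin k → ℕ) (m : Fin q) :
    (Jq q k m).map (cq xs) = List.ofFn (xs m.castSucc) := by
  unfold Jq
  rw [List.map_ofFn]
  congr 1
  funext a
  simp [cq]

lemma jq_perm : ((List.finRange q).map (Jq q k)).flatten.Perm (List.finRange (q * k)) := by
  have h1 : ((List.finRange q).map (Jq q k)).flatten.Nodup := by
    rw [List.nodup_flatten]
    constructor
    · intro l hl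
      obtain ⟨m, -, rfl⟩ := List.mem_map.1 hl
      refine List.nodup_ofFn.2 fun a b hab => ?_
      have := finProdFinEquiv.injective hab
      exact (Prod.mk.inj this).2
    · rw [List.pairwise_map]
      refine (List.nodup_finRange q).imp fun {m m'} hne a ha hb => hne ?_
      obtain ⟨i, rfl⟩ := List.mem_ofFn.1 ha
      obtain ⟨j, hj⟩ := List.mem_ofFn.1 hb
      have := finProdFinEquiv.injective hj
      exact (Prod.mk.inj this).1.symm
  refine (List.perm_ext_iff_of_nodup h1 (List.nodup_finRange _)).2 fun a => ?_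
  refine ⟨fun _ => List.mem_finRange a, fun _ => ?_⟩
  refine List.mem_flatten.2 ⟨Jq q k (finProdFinEquiv.symm a).1,
    List.mem_map.2 ⟨_, List.mem_finRange _, rfl⟩, List.mem_ofFn.2
      ⟨(finProdFinEquiv.symm a).2, ?_⟩⟩
  exact finProdFinEquiv.apply_symm_apply a

lemma gn_disj {H : HSys M N} {B A : List ℕ} {V : Ultrafilter (Fin k → ℕ)} (hBA : B ⊆ A) {n : ℕ}
    {xs : Fin n → Fin k → ℕ} (h : Gn H B V A n xs) {i i' : Fin n} (hii : i < i') (a a' : Fin k) :
    xs i a ≠ xs i' a' := by
  intro hab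
  have h1 := (h i' i'.2).2 (B ++ [xs i a]) (by
    intro x hx
    rcases List.mem_append.1 hx with hx | hx
    · exact Or.inl (hBA hx)
    · rw [List.mem_singleton] at hx
      exact Or.inr ⟨i, hii, a, hx.symm⟩)
  have h2 : Free H B (B ++ [xs i a]) [xs i' a'] := fr_free.1 h1 a'
  exact free_notMem (List.subset_append_left _ _) h2 (xs i' a') (by simp) (by simp [hab])

lemma cq_inj {H : HSys M N} {B A : List ℕ} {V : Ultrafilter (Fin k → ℕ)} (hBA : B ⊆ A)
    {xs : Fin (q + 1) → Fin k → ℕ} (h : Gn H B V A (q + 1) xs) : Function.Injective (cq xs) := by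
  intro b b' hbb
  have h1 : (finProdFinEquiv.symm b).1 = (finProdFinEquiv.symm b').1 := by
    by_contra hne
    rcases lt_or_gt_of_ne hne with h2 | h2
    · exact gn_disj hBA h (Fin.castSucc_lt_castSucc_iff.2 h2) _ _ hbb
    · exact gn_disj hBA h (Fin.castSucc_lt_castSucc_iff.2 h2) _ _ hbb.symm
  have h2 : (finProdFinEquiv.symm b).2 = (finProdFinEquiv.symm b').2 := by
    unfold cq at hbb
    rw [h1] at hbb
    exact (h _ (finProdFinEquiv.symm b').1.castSucc.2).1.1 hbb
  exact finProdFinEquiv.symm.injective (Prod.ext h1 h2)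

lemma ind_gn {H : HSys M N} {B A : List ℕ} {V : Ultrafilter (Fin k → ℕ)}
    {xs : Fin (q + 1) → Fin k → ℕ} (h : Gn H B V A (q + 1) xs) : ∀ ms : List (Fin q),
      ms.Pairwise (· > ·) → Ind H B A (ms.map fun m => List.ofFn (xs m.castSucc)) := by
  intro ms
  induction ms with
  | nil => exact fun _ => trivial
  | cons m ms ih =>
    intro hp
    rw [List.pairwise_cons] at hp
    refine ⟨?_, ih hp.2⟩
    refine (fr_list rfl).1 ((h m.castSucc m.castSucc.2).2 _ fun x hx => ?_)
    rcases List.mem_append.1 hx with hx | hx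
    · exact Or.inl hx
    · obtain ⟨l, hl, hx⟩ := List.mem_flatten.1 hx
      obtain ⟨m', hm', rfl⟩ := List.mem_map.1 hl
      obtain ⟨a, ha⟩ := List.mem_ofFn.1 hx
      exact Or.inr ⟨m'.castSucc, Fin.castSucc_lt_castSucc_iff.2 (hp.1 m' hm'), a, ha⟩

lemma cells_gn {H : HSys M N} {B z : List ℕ} (hBz : B ⊆ z) {V : Ultrafilter (Fin k → ℕ)}
    {xs : ℕ → Fin (q + 1) → Fin k → ℕ} (h : ∀ i, Gn H B V (Az z i) (q + 1) (xs i)) :
    Cells M H B z V (fun i => cq (xs i)) ((List.finRange q).map (Jq q k)) := by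
  have hBA : ∀ i, B ⊆ Az z i := fun i a ha => az_sub (hBz ha)
  refine ⟨jq_perm, fun J hJ => ?_, fun i J hJ => ?_, fun i => ?_, fun i => cq_inj (hBA i) (h i)⟩
  · obtain ⟨m, -, rfl⟩ := List.mem_map.1 hJ
    exact List.length_ofFn
  · obtain ⟨m, -, rfl⟩ := List.mem_map.1 hJ
    exact ⟨xs i m.castSucc, (h i m.castSucc m.castSucc.2).1, (jq_map _ _).symm⟩
  · refine ⟨(List.finRange q).reverse.map (Jq q k), (List.reverse_perm _).map _, ?_⟩
    rw [List.map_map]
    have e : (fun J => J.map (cq (xs i))) ∘ Jq q k = fun m => List.ofFn (xs i m.castSucc) := by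
      funext m
      exact jq_map _ _
    rw [e]
    refine ind_gn (h i) _ ?_
    rw [List.pairwise_reverse]
    exact List.pairwise_lt_finRange q

/-- (d) -/
theorem d_one (pb : PB) (pt : PT) {r : ℕ} {H : HSys M N} {B z : List ℕ}
    {V : Ultrafilter (Fin k → ℕ)} (cx : Ctx M H r k B z V) (hq : 2 ≤ q)
    (hsym : ∀ n ≤ q, ∀ V' ∈ FKB H B (Fin k), H71.HCI.SymN M V' n) (z0 : List ℕ) :
    ∃ i, ∀ xs : Fin (q + 1) → Fin k → ℕ, Gn H B V (Az z i) (q + 1) xs →
      ∀ᶠ y in (V : Filter (Fin k → ℕ)),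
        Eqf M z0 (Sum.elim (cq xs) (xs (Fin.last q))) (Sum.elim (cq xs) y) := by
  by_contra hcon
  push Not at hcon
  choose xs hxs hn using hcon
  have hcells := cells_gn cx.hBz hxs
  obtain ⟨W, hW, hWv⟩ := exists_W (c := fun i => cq (xs i)) (v := fun i => xs i (Fin.last q))
    cx.hBz (fun i => (hxs i (Fin.last q) (Fin.last q).2).1) (by
      intro i
      refine (hxs i (Fin.last q) (Fin.last q).2).2 _ fun x hx => ?_
      rcases List.mem_append.1 hx with hx | hx
      · exact Or.inl hx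
      · obtain ⟨b, hb⟩ := List.mem_ofFn.1 hx
        exact Or.inr ⟨_, Fin.castSucc_lt_last _, _, hb⟩)
  obtain ⟨z1, hzz1, hz1⟩ := arr pb cx.hA cx.hF cx.hs cx.hk cx.hQ cx.hz cx.hV cx.hns hW
    (c := fun i => cq (xs i)) hcells.inj (fun b a => by
      filter_upwards [eventually_gt_atTop a] with i hi
      exact pa_ne cx.hBz (hxs i _ (Fin.castSucc _).2).1 (mem_az hi) _)
  obtain ⟨T, af⟩ := hz1 (z1 ++ z0) (List.subset_append_left _ _)
  obtain ⟨h1, cl, In, hcl, hIn, hSP⟩ := hub_top pt.topc cx.hA cx.hF cx.hk cx.hQ cx.hz cx.hBz cx.hV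
    cx.hns hW hcells (fun a ha => List.mem_append_left _ (hzz1 ha)) af
  have hT := pt.s3 (q * k) k q (List ℕ → C) T cl In _ cx.hk hq af.ax.pat af.ax.ft af.last hIn hSP
    (by rw [List.length_map, List.length_finRange]) hcells.perm
    (fun J hJ => ⟨hcells.len J hJ, h1 J hJ⟩) hcl (af.far q hsym)
    (fun J _ js' hjs => af.bl q (hsym q le_rfl) J js' hjs)
  obtain ⟨i, hi1, hi2, hi3⟩ := (af.ev1.and (af.ev2.and (uh_of_atTop
    (az_ev z (z1 ++ z0))))).exists
  obtain ⟨w, hw1, hw2⟩ := (hi1.and (rz_ev cx.hA cx.hF (W i)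
    (Az z i ++ List.ofFn (cq (xs i))))).exists
  have h5 : Eqf M (z1 ++ z0) (Sum.elim (cq (xs i)) w)
      (Sum.elim (cq (xs i)) (xs i (Fin.last q))) :=
    rz_pair hw2 (hWv i) (fun a ha => List.mem_append_left _ (hi3 ha))
      fun a => List.mem_append_right _ (List.mem_ofFn.2 ⟨a, rfl⟩)
  obtain ⟨y, hy1, hy2⟩ := (hi2.and (hn i)).exists
  refine hy2 (Eqf.mono (h5.symm.trans ?_) (List.subset_append_right z1 z0))
  rw [← ft_eqf2, ← hw1, ← hy1]
  exact hT

/-- The labels of generic sequences do not depend on the last member. -/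
theorem d_two (pb : PB) (pt : PT) {r : ℕ} {H : HSys M N} {B z : List ℕ}
    {V : Ultrafilter (Fin k → ℕ)} (cx : Ctx M H r k B z V) (hq : 2 ≤ q)
    (hsym : ∀ n ≤ q, ∀ V' ∈ FKB H B (Fin k), H71.HCI.SymN M V' n) :
    H71.HCI.SymN M V (q + 1) := by
  intro c σ
  obtain ⟨i, hi⟩ := d_one pb pt cx hq hsym c
  refine symN_of_gn cx.hA cx.hF (A := Az z i) (fun a ha => az_sub (cx.hBz ha)) cx.hV ?_ σ
  intro xs ys hxs hys hxy
  obtain ⟨y, hy1, hy2⟩ := ((hi xs hxs).and (hi ys hys)).exists
  have e : cq ys = cq xs := by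
    funext b
    unfold cq
    rw [hxy _ (Fin.castSucc_lt_last _)]
  rw [e] at hy2
  have h1 := hy1.trans hy2.symm
  let φ : Fin (q + 1) × Fin k → Fin (q * k) ⊕ Fin k := fun p =>
    if h : (p.1 : ℕ) < q then Sum.inl (finProdFinEquiv (⟨p.1, h⟩, p.2)) else Sum.inr p.2
  have hφ : ∀ xs : Fin (q + 1) → Fin k → ℕ,
      Sum.elim (cq xs) (xs (Fin.last q)) ∘ φ = un xs := by
    intro xs
    funext p
    change Sum.elim (cq xs) (xs (Fin.last q)) (φ p) = xs p.1 p.2
    by_cases h : (p.1 : ℕ) < q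
    · have e1 : φ p = Sum.inl (finProdFinEquiv (⟨p.1, h⟩, p.2)) := dif_pos h
      rw [e1]
      simp [cq]
    · have e1 : φ p = Sum.inr p.2 := dif_neg h
      rw [e1]
      have e2 : p.1 = Fin.last q := Fin.ext (by
        have := p.1.2
        change (p.1 : ℕ) = q
        omega)
      rw [e2]
      rfl
  have h2 := h1.comp φ
  rw [hφ] at h2
  have h3 : Sum.elim (cq xs) (ys (Fin.last q)) ∘ φ = un ys := by
    rw [← e]
    exact hφ ys
  rw [h3] at h2
  exact h2

/-- The symmetry theorem. -/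
theorem symq (pb : PB) (pt : PT) (hU : H71.HCI.T_UAST) : H71.HCI.T_SYMQ := by
  intro r C M hA hF hs N H k hk hQ
  have key : ∀ n : ℕ, ∀ (B : List ℕ), ∀ V ∈ FKB H B (Fin k), H71.HCI.SymN M V n := by
    intro n
    induction n using Nat.strong_induction_on with
    | _ n ih =>
      intro B V hV
      by_cases hw : H71.HCI.WSplit M V
      · have h1 := hU r C M hA hF hs k hk UH (fun _ => V) ⟨fun _ => fkb_np hV, fun _ => hV.1,
          fun i => uh_of_atTop (eventually_ne_atTop i), fun _ m f hf hm =>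
            (hQ m hm).1 _ ⟨B, fkb_re hV hf⟩, fun m f _ _ =>
            ⟨typ M (re V f), Eventually.of_forall fun _ => rfl⟩⟩ (by
              rw [H71.HCI.limU_const]
              exact hw)
        obtain ⟨-, h2, -⟩ := h1.exists
        exact tame_symm hA hF h2 (fkb_np hV) n
      · rcases Nat.lt_or_ge n 2 with h2 | h2
        · intro c σ
          have h3 : σ = 1 := by
            have : Subsingleton (Fin n) := by
              rcases n with _ | _ | n
              · exact inferInstanceAs (Subsingleton (Fin 0))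
              · exact inferInstanceAs (Subsingleton (Fin 1))
              · omega
            exact Equiv.ext fun i => Subsingleton.elim _ _
          subst h3
          exact Eventually.of_forall fun xs => rfl
        · obtain ⟨zK, hzK⟩ := exists_sepK hQ
          obtain ⟨zV, hzV⟩ := exists_sepV hw
          have cx : Ctx M H r k B (B ++ (zK ++ zV)) V := ⟨hA, hF, hs, hk, hQ,
            hzK.mono (fun a ha => List.mem_append_right _ (List.mem_append_left _ ha)),
            List.subset_append_left _ _, hV,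
            hzV.mono (fun a ha => List.mem_append_right _ (List.mem_append_right _ ha))⟩
          rcases Nat.lt_or_ge 2 n with h3 | h3
          · obtain ⟨q, rfl⟩ : ∃ q, n = q + 1 := ⟨n - 1, by omega⟩
            exact d_two pb pt cx (by omega) fun n' hn' V' hV' => ih n' (by omega) B V' hV'
          · obtain rfl : n = 2 := by omega
            exact symN_two pb pt cx
  rintro V ⟨B, hV⟩ n
  exact key n B V hV

end Pool.Agent.H76.HI
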