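import Pool.Agent.H76.HI.MX
import Pool.Agent.H16.FK.TargetsB
import Pool.Agent.H75.FK.COL

/-!
# The arrays for the symmetry theorem
-/

set_option autoImplicit false

namespace Pool.Agent.H76.HI

open Set Pool.Agent.H41.HI Pool.Agent.H75.HCI Pool.Agent.H16.FK Filter

variable {C : Type} {M : List ℕ → C} {N : Subgroup (Equiv.Perm ℕ)} {k kc : ℕ}

/-- The splitting along `b` is a reindexed product. -/
theorem mixU_eq (V : Ultrafilter (Fin k → ℕ)) (b : Fin k → Bool) {n m : ℕ}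
    (e : Fin n ⊕ Fin m ≃ Fin k) (h1 : ∀ i, b (e (Sum.inl i)) = false)
    (h2 : ∀ i, b (e (Sum.inr i)) = true) :
    mixU V b = re (prU (re V (e ∘ Sum.inl)) (re V (e ∘ Sum.inr))) e.symm := by
  refine Ultrafilter.coe_injective (Filter.ext fun s => ?_)
  have h3 : ∀ x y : Fin k → ℕ, (Sum.elim (x ∘ e ∘ Sum.inl) (y ∘ e ∘ Sum.inr)) ∘ e.symm =
      fun i => if b i then y i else x i := by
    intro x y
    funext i
    obtain ⟨d, rfl⟩ := e.surjective i
    rw [Function.comp_apply, Equiv.symm_apply_apply]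
    rcases d with d | d
    · rw [h1]
      rfl
    · rw [h2]
      rfl
  change (∀ᶠ x in (V : Filter (Fin k → ℕ)), ∀ᶠ y in (V : Filter (Fin k → ℕ)),
    (fun i => if b i then y i else x i) ∈ s) ↔ ∀ᶠ x in (V : Filter (Fin k → ℕ)),
    ∀ᶠ y in (V : Filter (Fin k → ℕ)),
      (Sum.elim (x ∘ e ∘ Sum.inl) (y ∘ e ∘ Sum.inr)) ∘ e.symm ∈ s
  simp only [h3]

/-- Finitely many words decide the full type. -/
lemma all_words {r : ℕ} (hA : Ar r M) {α : Type} {F : Filter α} (L0 : List ℕ) (L : α → List ℕ)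
    (hlen : ∀ x, (L x).length = L0.length)
    (h : ∀ w, ∀ᶠ x in F, M (sel L0 w) = M (sel (L x) w)) : ∀ᶠ x in F, ft M L0 = ft M (L x) := by
  classical
  let n := L0.length
  have hfin : ({l : List (Fin n) | l.length ≤ r}).Finite := List.finite_length_le _ r
  have h1 : ∀ᶠ x in F, ∀ l ∈ {l : List (Fin n) | l.length ≤ r},
      M (sel L0 (l.map Fin.val)) = M (sel (L x) (l.map Fin.val)) := by
    rw [Filter.eventually_all_finite hfin]
    exact fun l _ => h _
  filter_upwards [h1] with x hx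
  funext w
  unfold ft
  rw [← sel_filter L0 w n rfl, ← sel_filter (L x) w n (hlen x)]
  set w' := w.filter fun i => decide (i < n) with hw'
  have h2 : ∀ i ∈ w', i < n := by
    intro i hi
    rw [hw', List.mem_filter] at hi
    simpa using hi.2
  by_cases hr : w'.length ≤ r
  · have e1 : (w'.attachWith (fun i => i < n) h2).map Subtype.val = w' :=
      List.attachWith_map_subtype_val ..
    let l : List (Fin n) := (w'.attachWith (fun i => i < n) h2).map fun i => ⟨i.1, i.2⟩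
    have e2 : l.map Fin.val = w' := by
      change ((w'.attachWith (fun i => i < n) h2).map fun i => (⟨i.1, i.2⟩ : Fin n)).map Fin.val = w'
      rw [List.map_map]
      exact e1
    have h3 := hx l (by
      have : l.length = (l.map Fin.val).length := (List.length_map _).symm
      rw [this, e2]
      exact hr)
    rwa [e2] at h3
  · have h4 : ∀ L : List ℕ, L.length = n → (sel L w').length = w'.length := by
      intro L hL
      rw [sel_eq L w' (fun i hi => by rw [hL]; exact h2 i hi), List.length_ofFn]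
    exact hA _ _ (by rw [h4 _ rfl]; omega) (by rw [h4 _ (hlen x)]; omega)

/-- The sets `A i`. -/
def Az (z : List ℕ) (i : ℕ) : List ℕ := z ++ List.range i

lemma az_mono {z : List ℕ} {i j : ℕ} (h : i ≤ j) : Az z i ⊆ Az z j := by
  intro x hx
  rcases List.mem_append.1 hx with hx | hx
  · exact List.mem_append_left _ hx
  · refine List.mem_append_right _ (List.mem_range.2 ((List.mem_range.1 hx).trans_le h))

lemma az_sub {z : List ℕ} {i : ℕ} : z ⊆ Az z i := List.subset_append_left _ _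

lemma az_ev (z z' : List ℕ) : ∀ᶠ i in (atTop : Filter ℕ), z' ⊆ Az z i := by
  refine eventually_atTop.2 ⟨z'.sum + 1, fun i hi x hx => List.mem_append_right _ ?_⟩
  rw [List.mem_range]
  have : x ≤ z'.sum := List.le_sum_of_mem hx
  omega

/-- The ultrafilter on the indices. -/
noncomputable def UH : Ultrafilter ℕ := hyperfilter ℕ

lemma uh_of_atTop {p : ℕ → Prop} (h : ∀ᶠ i in (atTop : Filter ℕ), p i) :
    ∀ᶠ i in (UH : Filter ℕ), p i := by
  have h1 : (UH : Filter ℕ) ≤ atTop := by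
    rw [← Nat.cofinite_eq_atTop]
    exact hyperfilter_le_cofinite
  exact h1 h

/-- Approximations of `V` by free ultrafilters. -/
structure Apx (M : List ℕ → C) (H : HSys M N) (B z : List ℕ) (V : Ultrafilter (Fin k → ℕ))
    (W : ℕ → Ultrafilter (Fin k → ℕ)) : Prop where
  mem : ∀ i, W i ∈ FKB H B (Fin k)
  eq : ∀ i (l : List (ℕ ⊕ Fin k)), Mks (Az z i) l → typ M (W i) l = typ M V l

/-- The data. -/
noncomputable def DD (c : ℕ → Fin kc → ℕ) (W : ℕ → Ultrafilter (Fin k → ℕ)) (z : List ℕ) :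
    Dat kc 0 k := ⟨z, UH, c, W, fun _ => pure fun i => i.elim0⟩

/-- The facts about the array. -/
structure AF (M : List ℕ → C) (H : HSys M N) (B : List ℕ) (V : Ultrafilter (Fin k → ℕ))
    (c : ℕ → Fin kc → ℕ) (W : ℕ → Ultrafilter (Fin k → ℕ)) (z : List ℕ)
    (T : List (Idx kc k) → List ℕ → C) : Prop where
  ax : AX T
  last : LAST T
  nsp : NSpl T
  coll : Coll T
  real : ∀ S : ℕ → ℕ, ∃ pt : Idx kc k → ℕ, ∀ l : List (Idx kc k),
    (∀ p ∈ l, p ∈ Pool.Agent.H75.HCI.V kc k S) → T l = ft M (z ++ l.map pt)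
  ev1 : ∀ᶠ i in (UH : Filter ℕ), ∀ᶠ y in (W i : Filter (Fin k → ℕ)),
    T (hubA 0 ++ row 0 0) = ft M (z ++ (List.ofFn (c i) ++ List.ofFn y))
  ev2 : ∀ᶠ i in (UH : Filter ℕ), ∀ᶠ y in (V : Filter (Fin k → ℕ)),
    T (hubA 0 ++ row 1 0) = ft M (z ++ (List.ofFn (c i) ++ List.ofFn y))
  evr : ∀ᶠ i in (UH : Filter ℕ), ∀ᶠ y in (W i : Filter (Fin k → ℕ)),
    ∀ᶠ y' in (V : Filter (Fin k → ℕ)),
      T (row 0 0 ++ row 1 0) = ft M (z ++ (List.ofFn y ++ List.ofFn y'))
  far : ∀ q, (∀ n ≤ q, ∀ V' ∈ FKB H B (Fin k), H71.HCI.SymN M V' n) → FarS T q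
  bl : ∀ q, (∀ V' ∈ FKB H B (Fin k), H71.HCI.SymN M V' q) → ∀ (J : List (Fin kc)) (js' : List ℕ),
    js'.Perm (List.range q) → T (hub 0 J ++ (js'.map (row 0)).flatten) =
      T (hub 0 J ++ ((List.range q).map (row 0)).flatten)

lemma lim_mem {H : HSys M N} {B : List ℕ} {W : ℕ → Ultrafilter (Fin k → ℕ)}
    (h : ∀ i, W i ∈ FKB H B (Fin k)) : limU UH W ∈ FKB H B (Fin k) := by
  refine ⟨?_, fun X hX => ?_⟩
  · change ∀ᶠ i in (UH : Filter ℕ), ∀ᶠ x in (W i : Filter (Fin k → ℕ)), Function.Injective x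
    exact Eventually.of_forall fun i => (h i).1
  · change ∀ᶠ i in (UH : Filter ℕ), ∀ᶠ x in (W i : Filter (Fin k → ℕ)), Fr H B X x
    exact Eventually.of_forall fun i => (h i).2 X hX

lemma lim_typ (hF : FinL M) {H : HSys M N} {B z : List ℕ} {V : Ultrafilter (Fin k → ℕ)}
    {W : ℕ → Ultrafilter (Fin k → ℕ)} (h : Apx M H B z V W) : typ M (limU UH W) = typ M V := by
  funext l
  refine typ_eq ?_
  change ∀ᶠ i in (UH : Filter ℕ), ∀ᶠ x in (W i : Filter (Fin k → ℕ)),
    M (l.map (Sum.elim id x)) = typ M V l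
  obtain ⟨z', hz'⟩ := exists_marks l
  filter_upwards [uh_of_atTop (az_ev z z')] with i hi
  rw [← h.eq i l (hz'.mono hi)]
  exact typ_spec hF _ _

lemma dd_ok {H : HSys M N} {B : List ℕ} {c : ℕ → Fin kc → ℕ}
    {W : ℕ → Ultrafilter (Fin k → ℕ)} (hW : ∀ i, W i ∈ FKB H B (Fin k))
    (hc : ∀ i, Function.Injective (c i)) (hcn : ∀ b a, ∀ᶠ i in (atTop : Filter ℕ), c i b ≠ a)
    (z : List ℕ) : (DD c W z).OK where
  np n := uh_of_atTop (eventually_ge_atTop n)
  cI := Eventually.of_forall hc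
  cN b a := uh_of_atTop (hcn b a)
  vN := Eventually.of_forall fun i => ⟨(hW i).1, fkb_np (hW i)⟩
  uN := Eventually.of_forall fun i => ⟨by
    unfold Ij
    exact Eventually.of_forall fun x i => i.elim0, fun i => i.elim0⟩

lemma get_inj {a : List (Fin k)} (ha : a.Nodup) : Function.Injective a.get :=
  List.nodup_iff_injective_get.1 ha

lemma dd_pp (hF : FinL M) {H : HSys M N} {B z : List ℕ} (hQ : ∀ k' < k, QQ H k')
    (hz : SepK H k z) {V : Ultrafilter (Fin k → ℕ)} (hV : V ∈ FKB H B (Fin k))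
    {W : ℕ → Ultrafilter (Fin k → ℕ)} (h : Apx M H B z V W) :
    Pool.Agent.H16.FK.PP M UH W := by
  intro a ha hak
  refine ⟨typ M (re V a.get), Eventually.of_forall fun i => ?_⟩
  have h1 : re (W i) a.get ∈ FKU H (Fin a.length) := ⟨B, fkb_re (h.mem i) (get_inj ha)⟩
  refine ⟨(hQ _ hak).1 _ h1, hz _ hak _ h1 _ ⟨B, fkb_re hV (get_inj ha)⟩ fun l hl => ?_⟩
  rw [typ_re hF, typ_re hF]
  exact h.eq i _ ((hl.map _).mono az_sub)

/-- A word with marks in `z`. -/
lemma word_fin {β : Type} {z : List ℕ} : ∀ {l : List (ℕ ⊕ β)}, Mks z l →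
    ∃ l' : List (Fin z.length ⊕ β), l'.map (Sum.map z.get id) = l := by
  intro l
  induction l with
  | nil => exact fun _ => ⟨[], rfl⟩
  | cons a l ih =>
    intro h
    obtain ⟨l', hl'⟩ := ih fun x hx => h x (List.mem_cons_of_mem _ hx)
    rcases a with a | a
    · obtain ⟨i, hi⟩ := List.mem_iff_get.1 (h a (List.mem_cons_self ..))
      exact ⟨Sum.inl i :: l', by rw [List.map_cons, hl', Sum.map_inl, hi]⟩
    · exact ⟨Sum.inr a :: l', by rw [List.map_cons, hl', Sum.map_inr]; rfl⟩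

lemma dd_ns (hF : FinL M) {H : HSys M N} {B z : List ℕ} (hQ : ∀ k' < k, QQ H k')
    {V : Ultrafilter (Fin k → ℕ)} (hV : V ∈ FKB H B (Fin k)) (hns : SepV M V z)
    {V' : Ultrafilter (Fin k → ℕ)} (hV' : V' ∈ FKB H B (Fin k)) (ht : typ M V' = typ M V)
    {z' : List ℕ} (hzz : z ⊆ z') (b : Fin k → Bool) (hb : NC b) :
    ∃ l : List (Fin z'.length ⊕ Fin k), typ M V' (l.map (Sum.map z'.get id)) ≠
      typ M (mixU V' b) (l.map (Sum.map z'.get id)) := by
  obtain ⟨n, m, e, h1, h2, hm, hn⟩ := exists_split fun i => b i = true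
  have hm' : 0 < m := hm hb.1
  have hn' : 0 < n := hn (by
    obtain ⟨y, hy⟩ := hb.2
    exact ⟨y, by rw [hy]; decide⟩)
  have hcard := Fintype.card_congr e
  rw [Fintype.card_sum, Fintype.card_fin, Fintype.card_fin, Fintype.card_fin] at hcard
  have i1 : Function.Injective (e ∘ Sum.inl) := e.injective.comp Sum.inl_injective
  have i2 : Function.Injective (e ∘ Sum.inr) := e.injective.comp Sum.inr_injective
  by_contra hcon
  refine hns n m e hn' hm' fun l hl => ?_
  obtain ⟨l', hl'⟩ := word_fin (hl.mono hzz)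
  by_contra hne
  apply hcon
  refine ⟨l', ?_⟩
  rw [hl', mixU_eq V' b e (fun i => by
    have := h1 i
    simpa using this) h2, ht]
  have h3 : typ M (re (prU (re V' (e ∘ Sum.inl)) (re V' (e ∘ Sum.inr))) e.symm) =
      typ M (re (prU (re V (e ∘ Sum.inl)) (re V (e ∘ Sum.inr))) e.symm) := by
    refine H71.HCI.typ_re_congr hF ?_ _
    rw [H71.HCI.typ_prU_right hF _ (H71.HCI.typ_re_congr hF ht (e ∘ Sum.inr))]
    exact H71.HCI.typ_prU_left hF (H71.HCI.np_re (fkb_np hV) _)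
      ((hQ n (by omega)).1 _ ⟨B, fkb_re hV' i1⟩) ((hQ n (by omega)).1 _ ⟨B, fkb_re hV i1⟩)
      (H71.HCI.typ_re_congr hF ht _)
  rw [h3]
  exact hne

/-- The ultrafilter of pairs. -/
noncomputable def FW (W : ℕ → Ultrafilter (Fin k → ℕ)) : Filter (ℕ × (Fin k → ℕ)) :=
  Filter.bind (UH : Filter ℕ) fun i => Filter.map (Prod.mk i) (W i : Filter (Fin k → ℕ))

lemma fw_ev {W : ℕ → Ultrafilter (Fin k → ℕ)} {P : ℕ × (Fin k → ℕ) → Prop} :
    (∀ᶠ p in FW W, P p) ↔
      ∀ᶠ i in (UH : Filter ℕ), ∀ᶠ y in (W i : Filter (Fin k → ℕ)), P (i, y) := by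
  unfold FW
  rw [eventually_bind]
  rfl

/-- The words of hub and row. -/
lemma cv1_map (c : ℕ → Fin kc → ℕ) (W : ℕ → Ultrafilter (Fin k → ℕ)) (z : List ℕ) (j : ℕ)
    (w : List ℕ) (y : Fin k → ℕ) (e : Fin 0 → ℕ) :
    (cv1 (DD c W z) j w).map (Sum.elim id (Sum.elim y e)) =
      sel (z ++ (List.ofFn (c j) ++ List.ofFn y)) w := by
  unfold cv1
  rw [← sel_map]
  congr 1
  rw [List.map_append, List.map_append, List.append_assoc, List.map_map, List.map_map,
    List.map_map]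
  congr 1
  · exact List.map_id _
  · congr 1
    · rw [List.ofFn_eq_map]
      refine List.map_congr_left fun b _ => ?_
      change Sum.elim id (Sum.elim y e) (Fin.addCases (m := kc) (n := 0)
        (fun b' => Sum.inl (c j b')) (fun b' => Sum.inr (Sum.inr b')) b) = c j b
      have : b = Fin.castAdd 0 (⟨b.1, b.2⟩ : Fin kc) := rfl
      rw [this, Fin.addCases_left]
      rfl
    · rw [List.ofFn_eq_map]
      rfl

end Pool.Agent.H76.HI
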