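import Pool.Agent.H76.HI.AR

/-!
# The arrays for the symmetry theorem: the facts
-/

set_option autoImplicit false

namespace Pool.Agent.H76.HI

open Set Pool.Agent.H41.HI Pool.Agent.H75.HCI Pool.Agent.H16.FK Filter

variable {C : Type} {M : List ℕ → C} {N : Subgroup (Equiv.Perm ℕ)} {k kc : ℕ}

/-- The results about arrays from ultrafilters. -/
structure PB : Prop where
  tdv : T_TDV
  tdp : T_TDP
  real : T_REAL
  sepx : T_SEPX
  axd : T_AXD
  nsd : T_NSD
  fsd : T_FSD
  bld : T_BLD
  ev1 : T_EV1
  ev2 : T_EV2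

lemma step_sta (D : Dat kc 0 k) (i : ℕ) (st : Sta kc 0 k) : step D (i, 0, 0) st =
    D.UU.map fun j => ⟨Function.update st.j i j, fun p =>
      if p.1 = i then
        Sum.elim (fun b => Fin.addCases (fun b' => D.c j b') (fun _ => st.pt p) b)
          (fun _ => st.pt p) p.2
      else st.pt p⟩ := if_pos rfl

lemma step_row (D : Dat kc 0 k) (i m : ℕ) (st : Sta kc 0 k) : step D (i, 1, m) st =
    (D.V (st.j i)).map fun y => ⟨st.j, fun p =>
      if p.1 = i then
        Sum.elim (fun _ => st.pt p) (fun q => if q.1 = m then y q.2 else st.pt p) p.2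
      else st.pt p⟩ := by
  unfold step
  rw [if_neg (by simp), if_pos rfl]

lemma run_cons {D : Dat kc 0 k} {it : ℕ × ℕ × ℕ} {σ : List (ℕ × ℕ × ℕ)} {st : Sta kc 0 k}
    {P : Sta kc 0 k → Prop} : (∀ᶠ s in (run D (it :: σ) st : Filter (Sta kc 0 k)), P s) ↔
      ∀ᶠ s1 in (step D it st : Filter (Sta kc 0 k)),
        ∀ᶠ s in (run D σ s1 : Filter (Sta kc 0 k)), P s := by
  rw [run]
  exact Iff.rfl

lemma run_nil {D : Dat kc 0 k} {st : Sta kc 0 k} {P : Sta kc 0 k → Prop} :
    (∀ᶠ s in (run D [] st : Filter (Sta kc 0 k)), P s) ↔ P st := by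
  rw [run, Ultrafilter.coe_pure]
  exact eventually_pure

/-- The program for two rows. -/
def pg2 : List (ℕ × ℕ × ℕ) := [(0, 0, 0), (0, 1, 0), (1, 0, 0), (1, 1, 0)]

lemma prg_pg2 : Prg ∅ pg2 where
  ord := by
    unfold pg2
    simp only [List.pairwise_cons, List.mem_cons, List.not_mem_nil, or_false]
    unfold ilt
    refine ⟨?_, ?_, ?_, ?_, ?_⟩
    · rintro a (rfl | rfl | rfl) <;> simp
    · rintro a (rfl | rfl) <;> simp
    · rintro a rfl
      simp
    · intro a h
      exact absurd h (by simp)
    · exact List.Pairwise.nil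
  val := by
    unfold pg2
    intro a ha
    simp only [List.mem_cons, List.not_mem_nil, or_false] at ha
    rcases ha with rfl | rfl | rfl | rfl <;> simp
  aft := fun a _ b hb => absurd hb (by simp)
  sta := by
    unfold pg2
    intro a ha
    simp only [List.mem_cons, List.not_mem_nil, or_false] at ha
    rcases ha with rfl | rfl | rfl | rfl <;> simp

lemma run_pg2 (c : ℕ → Fin kc → ℕ) (W : ℕ → Ultrafilter (Fin k → ℕ)) (z : List ℕ)
    (P : List ℕ → Prop) : (∀ᶠ s in (run (DD c W z) pg2 st0 : Filter (Sta kc 0 k)),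
      P ((row 0 0 ++ row 1 0).map s.pt)) ↔
      ∀ᶠ i in (UH : Filter ℕ), ∀ᶠ y in (W i : Filter (Fin k → ℕ)),
        ∀ᶠ i' in (UH : Filter ℕ), ∀ᶠ y' in (W i' : Filter (Fin k → ℕ)),
          P (List.ofFn y ++ List.ofFn y') := by
  unfold pg2
  simp only [run_cons, run_nil]
  rw [step_sta, Ultrafilter.coe_map, eventually_map]
  refine eventually_congr (Eventually.of_forall fun i => ?_)
  rw [step_row, Ultrafilter.coe_map, eventually_map]
  have e0 : (DD c W z).V (Function.update (st0 (kc := kc) (ku := 0) (k := k)).j 0 i 0) = W i := by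
    rw [Function.update_self]
    rfl
  change (∀ᶠ y in ((DD c W z).V (Function.update (st0 (kc := kc) (ku := 0) (k := k)).j 0 i 0) :
    Filter (Fin k → ℕ)), _) ↔ _
  rw [e0]
  refine eventually_congr (Eventually.of_forall fun y => ?_)
  rw [step_sta, Ultrafilter.coe_map, eventually_map]
  refine eventually_congr (Eventually.of_forall fun i' => ?_)
  rw [step_row, Ultrafilter.coe_map, eventually_map]
  have e1 : (DD c W z).V (Function.update (Function.update
      (st0 (kc := kc) (ku := 0) (k := k)).j 0 i) 1 i' 1) = W i' := by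
    rw [Function.update_self]
    rfl
  change (∀ᶠ y in ((DD c W z).V (Function.update (Function.update
      (st0 (kc := kc) (ku := 0) (k := k)).j 0 i) 1 i' 1) : Filter (Fin k → ℕ)), _) ↔ _
  rw [e1]
  refine eventually_congr (Eventually.of_forall fun y' => ?_)
  have e2 : ∀ l l' : List ℕ, l = l' → (P l ↔ P l') := fun l l' h => by rw [h]
  refine e2 _ _ ?_
  rw [List.map_append]
  congr 1
  · unfold row prt
    rw [List.map_map, List.ofFn_eq_map]
    refine List.map_congr_left fun a _ => ?_
    simp
  · unfold row prt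
    rw [List.map_map, List.ofFn_eq_map]
    refine List.map_congr_left fun a _ => ?_
    simp

lemma row_len (i m : ℕ) : (row (kx := kc) (k := k) i m).length = k := by
  unfold row prt
  rw [List.length_map, List.length_finRange]

lemma hubA_len (i : ℕ) : (hubA (kx := kc) (k := k) i).length = kc := by
  unfold hubA hub
  rw [List.length_map, List.length_finRange]

/-- The facts about the array. -/
theorem arr (pb : PB) {r : ℕ} (hA : Ar r M) (hF : FinL M) (hs : SmallE M (id : ℕ → ℕ) univ)
    (hk : 1 ≤ k) {H : HSys M N} {B z : List ℕ} (hQ : ∀ k' < k, QQ H k') (hz : SepK H k z)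
    {V : Ultrafilter (Fin k → ℕ)} (hV : V ∈ FKB H B (Fin k)) (hns : SepV M V z)
    {W : ℕ → Ultrafilter (Fin k → ℕ)} (hW : Apx M H B z V W) {c : ℕ → Fin kc → ℕ}
    (hc : ∀ i, Function.Injective (c i)) (hcn : ∀ b a, ∀ᶠ i in (atTop : Filter ℕ), c i b ≠ a) :
    ∃ z1, z ⊆ z1 ∧ ∀ z', z1 ⊆ z' → ∃ T : List (Idx kc k) → List ℕ → C, AF M H B V c W z' T := by
  obtain ⟨z1, hz1⟩ := pb.sepx C kc 0 k r M (DD c W []) hF hA
  refine ⟨z ++ z1, List.subset_append_left _ _, fun z' hz' => ?_⟩
  have hzz : z ⊆ z' := fun x hx => hz' (List.mem_append_left _ hx)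
  have hsep : Sep M (DD c W z') := hz1 z' fun x hx => hz' (List.mem_append_right _ hx)
  have hok : (DD c W z').OK := dd_ok hW.mem hc hcn z'
  have hpp : Pool.Agent.H16.FK.PP M UH W := dd_pp hF hQ hz hV hW
  have hlm : limU UH W ∈ FKB H B (Fin k) := lim_mem hW.mem
  have hlt : typ M (limU UH W) = typ M V := lim_typ hF hW
  obtain ⟨hax, hlast⟩ := pb.axd C kc 0 k M (DD c W z') hF hok hpp hsep
  have hreal := pb.real C kc 0 k r M (DD c W z') hF hA hok
  have hreal' : ∀ S : ℕ → ℕ, ∃ pt : Idx (kc + 0) k → ℕ, ∀ l : List (Idx (kc + 0) k),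
      (∀ p ∈ l, p ∈ Pool.Agent.H75.HCI.V (kc + 0) k S) →
        TD M (DD c W z') l = ft M (z' ++ l.map pt) := by
    intro S
    obtain ⟨pt, -, -, h⟩ := hreal S
    exact ⟨pt, fun l hl => funext fun w => h l hl w⟩
  obtain ⟨pt, hpt⟩ := hreal' fun _ => 1
  have hrow : ∀ i, ∀ p ∈ (row i 0 : List (Idx (kc + 0) k)),
      p ∈ Pool.Agent.H75.HCI.V (kc + 0) k fun _ => 1 := by
    intro i p hp q hq
    unfold row prt at hp
    obtain ⟨a, -, rfl⟩ := List.mem_map.1 hp
    rw [← Sum.inr.inj hq]
    exact zero_lt_one
  have hhub : ∀ p ∈ (hubA 0 : List (Idx (kc + 0) k)),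
      p ∈ Pool.Agent.H75.HCI.V (kc + 0) k fun _ => 1 := by
    intro p hp q hq
    unfold hubA hub at hp
    obtain ⟨a, -, rfl⟩ := List.mem_map.1 hp
    exact absurd hq (by simp)
  refine ⟨TD M (DD c W z'), ?_⟩
  refine ⟨hax, hlast, ?_, ?_, hreal', ?_, ?_, ?_, ?_, ?_⟩
  · exact pb.nsd C kc 0 k M (DD c W z') hF hok hpp fun b hb =>
      dd_ns hF hQ hV hns hlm hlt hzz b hb
  · refine Pool.Agent.H75.FK.pf_COL hk hs hax.pat (z := z') fun S => ?_
    obtain ⟨pt, h1, h2, h3⟩ := hreal S
    exact ⟨pt, id, h1, h2, fun l hl => funext fun w => h3 l hl w⟩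
  · -- ev1
    have h1 : ∀ᶠ p in FW W, ft M (z' ++ (hubA 0 ++ row 0 0).map pt) =
        ft M (z' ++ (List.ofFn (c p.1) ++ List.ofFn p.2)) := by
      refine all_words hA _ _ (fun p => by
        simp [hubA_len, row_len]) fun w => ?_
      rw [fw_ev]
      filter_upwards [pb.ev1 C kc 0 k M (DD c W z') hF w] with j hj
      have h2 := (typ_pr hF).1 hj
      filter_upwards [h2] with y hy
      have h3 := congrFun (hpt (hubA 0 ++ row 0 0) fun p hp => by
        rcases List.mem_append.1 hp with hp | hp
        · exact hhub p hp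
        · exact hrow 0 p hp) w
      change _ = M (sel _ w) at h3
      rw [← h3, ← hy]
      change typ M (pure _) _ = _
      rw [H71.HCI.typ_pure hF, List.map_map, ← cv1_map c W z' j w y fun i => i.elim0]
      congr 1
      refine List.map_congr_left fun a _ => ?_
      exact sb_elim _ _ a
    rw [fw_ev] at h1
    filter_upwards [h1] with i hi
    filter_upwards [hi] with y hy
    rw [← hy]
    exact hpt _ fun p hp => by
      rcases List.mem_append.1 hp with hp | hp
      · exact hhub p hp
      · exact hrow 0 p hp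
  · -- ev2
    have h1 : ∀ᶠ p in FW (fun _ => V), ft M (z' ++ (hubA 0 ++ row 1 0).map pt) =
        ft M (z' ++ (List.ofFn (c p.1) ++ List.ofFn p.2)) := by
      refine all_words hA _ _ (fun p => by
        simp [hubA_len, row_len]) fun w => ?_
      rw [fw_ev]
      filter_upwards [pb.ev2 C kc 0 k M (DD c W z') hF w] with j hj
      rw [typ_re hF, typ_pr hF] at hj
      have h2 : typ M (limU UH W) (((cv1 (DD c W z') j w).map (Sum.map id Sum.swap)).map
          (sb fun i : Fin 0 => i.elim0)) = TD M (DD c W z') (hubA 0 ++ row 1 0) w := by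
        have h4 : ∀ᶠ x in ((pure fun i : Fin 0 => i.elim0 : Ultrafilter (Fin 0 → ℕ)) :
          Filter (Fin 0 → ℕ)), typ M (limU UH W) (((cv1 (DD c W z') j w).map
            (Sum.map id Sum.swap)).map (sb x)) = TD M (DD c W z') (hubA 0 ++ row 1 0) w := hj
        rw [Ultrafilter.coe_pure] at h4
        exact eventually_pure.1 h4
      rw [hlt] at h2
      filter_upwards [(typ_iff hF).1 h2] with y hy
      have h3 := congrFun (hpt (hubA 0 ++ row 1 0) fun p hp => by
        rcases List.mem_append.1 hp with hp | hp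
        · exact hhub p hp
        · exact hrow 1 p hp) w
      change _ = M (sel _ w) at h3
      rw [← h3, ← hy, List.map_map, List.map_map, ← cv1_map c W z' j w y fun i => i.elim0]
      congr 1
      refine List.map_congr_left fun a _ => ?_
      rcases a with a | a | a <;> rfl
    rw [fw_ev] at h1
    filter_upwards [h1] with i hi
    filter_upwards [hi] with y hy
    rw [← hy]
    exact hpt _ fun p hp => by
      rcases List.mem_append.1 hp with hp | hp
      · exact hhub p hp
      · exact hrow 1 p hp
  · -- evr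
    have h1 : ∀ᶠ p in Filter.bind (FW W) fun p => Filter.map (Prod.mk p) (V : Filter (Fin k → ℕ)),
        ft M (z' ++ (row 0 0 ++ row 1 0).map pt) =
        ft M (z' ++ (List.ofFn p.1.2 ++ List.ofFn p.2)) := by
      refine all_words hA _ _ (fun p => by
        simp [row_len]) fun w => ?_
      rw [eventually_bind, fw_ev]
      have h2 := pb.tdv C kc 0 k M (DD c W z') hF (row 0 0 ++ row 1 0) pg2 prg_pg2 (by
        intro p hp
        rcases List.mem_append.1 hp with hp | hp
        · unfold row prt at hp
          obtain ⟨a, -, rfl⟩ := List.mem_map.1 hp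
          simp [itp, pg2]
        · unfold row prt at hp
          obtain ⟨a, -, rfl⟩ := List.mem_map.1 hp
          simp [itp, pg2]) st0 w
      have h3 := (run_pg2 c W z' fun l => M (sel (z' ++ l) w) =
        TD M (DD c W z') (row 0 0 ++ row 1 0) w).1 h2
      filter_upwards [h3] with i hi
      filter_upwards [hi] with y hy
      rw [eventually_map]
      -- replace the limit
      let l : List (ℕ ⊕ Fin k) := sel (z'.map Sum.inl ++ ((List.ofFn y).map Sum.inl ++
        (List.finRange k).map Sum.inr)) w
      have hl : ∀ y' : Fin k → ℕ, l.map (Sum.elim id y') =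
          sel (z' ++ (List.ofFn y ++ List.ofFn y')) w := by
        intro y'
        change (sel _ w).map _ = _
        rw [← sel_map]
        congr 1
        rw [List.map_append, List.map_append, List.map_map, List.map_map, List.map_map,
          List.ofFn_eq_map (f := y')]
        congr 1
        · exact List.map_id _
        · congr 1
          exact List.map_id _
      have h4 : typ M (limU UH W) l = TD M (DD c W z') (row 0 0 ++ row 1 0) w := by
        refine typ_eq ?_
        change ∀ᶠ i' in (UH : Filter ℕ), ∀ᶠ y' in (W i' : Filter (Fin k → ℕ)), _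
        filter_upwards [hy] with i' hi'
        filter_upwards [hi'] with y' hy'
        rw [hl]
        exact hy'
      rw [hlt] at h4
      filter_upwards [(typ_iff hF).1 h4] with y' hy'
      rw [hl] at hy'
      have h5 := congrFun (hpt (row 0 0 ++ row 1 0) fun p hp => by
        rcases List.mem_append.1 hp with hp | hp
        · exact hrow 0 p hp
        · exact hrow 1 p hp) w
      change _ = M (sel _ w) at h5
      rw [← h5]
      exact hy'.symm
    rw [eventually_bind, fw_ev] at h1
    filter_upwards [h1] with i hi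
    filter_upwards [hi] with y hy
    rw [eventually_map] at hy
    filter_upwards [hy] with y' hy'
    rw [← hy']
    exact hpt _ fun p hp => by
      rcases List.mem_append.1 hp with hp | hp
      · exact hrow 0 p hp
      · exact hrow 1 p hp
  · exact fun q hq => pb.fsd C kc 0 k q M (DD c W z') hF hok fun n hn => hq n hn _ hlm
  · exact fun q hq J js' hjs => pb.bld C kc k q M (DD c W z') hF hok
      (Eventually.of_forall fun i => hq _ (hW.mem i)) J js' hjs

end Pool.Agent.H76.HI
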