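import Pool.Agent.H76.HI.AS

/-!
# Equal labels over marks, and the relation of a pair
-/

set_option autoImplicit false

namespace Pool.Agent.H76.HI

open Set Pool.Agent.H41.HI Pool.Agent.H75.HCI Pool.Agent.H16.FK Filter

variable {C : Type} {M : List ℕ → C} {I J : Type} {z z' : List ℕ}

/-- Equal labels over `z`. -/
def Eqf (M : List ℕ → C) (z : List ℕ) {I : Type} (f g : I → ℕ) : Prop :=
  ∀ l : List (ℕ ⊕ I), Mks z l → M (l.map (Sum.elim id f)) = M (l.map (Sum.elim id g))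

lemma Eqf.refl (f : I → ℕ) : Eqf M z f f := fun _ _ => rfl

lemma Eqf.symm {f g : I → ℕ} (h : Eqf M z f g) : Eqf M z g f := fun l hl => (h l hl).symm

lemma Eqf.trans {f g h : I → ℕ} (h1 : Eqf M z f g) (h2 : Eqf M z g h) : Eqf M z f h :=
  fun l hl => (h1 l hl).trans (h2 l hl)

lemma Eqf.mono {f g : I → ℕ} (h : Eqf M z' f g) (hz : z ⊆ z') : Eqf M z f g :=
  fun l hl => h l (hl.mono hz)

lemma Eqf.comp {f g : I → ℕ} (h : Eqf M z f g) (φ : J → I) : Eqf M z (f ∘ φ) (g ∘ φ) := by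
  intro l hl
  have e : ∀ f : I → ℕ, l.map (Sum.elim id (f ∘ φ)) =
      (l.map (Sum.map id φ)).map (Sum.elim id f) := by
    intro f
    rw [List.map_map]
    refine List.map_congr_left fun a _ => ?_
    rcases a with a | a <;> rfl
  rw [e, e]
  exact h _ (hl.map _)

lemma Eqf.prod {x x' : I → ℕ} {y y' : J → ℕ} (h : Eqf M z (Sum.elim x y) (Sum.elim x' y'))
    {I' J' : Type} (σ : I' → I) (τ : J' → J) :
    Eqf M z (Sum.elim (x ∘ σ) (y ∘ τ)) (Sum.elim (x' ∘ σ) (y' ∘ τ)) := by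
  have h1 := h.comp (Sum.map σ τ)
  rwa [Sum.elim_comp_map, Sum.elim_comp_map] at h1

lemma Eqf.swap {x x' : I → ℕ} {y y' : J → ℕ} (h : Eqf M z (Sum.elim x y) (Sum.elim x' y')) :
    Eqf M z (Sum.elim y x) (Sum.elim y' x') := by
  have h1 := h.comp (Sum.swap (α := J) (β := I))
  have e : ∀ (x : I → ℕ) (y : J → ℕ), Sum.elim x y ∘ Sum.swap = Sum.elim y x := by
    intro x y
    funext a
    rcases a with a | a <;> rfl
  rwa [e, e] at h1

lemma Eqf.left {x x' : I → ℕ} {y y' : J → ℕ} (h : Eqf M z (Sum.elim x y) (Sum.elim x' y')) :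
    Eqf M z x x' := by
  have h1 := h.comp Sum.inl
  rwa [Sum.elim_comp_inl, Sum.elim_comp_inl] at h1

lemma Eqf.right {x x' : I → ℕ} {y y' : J → ℕ} (h : Eqf M z (Sum.elim x y) (Sum.elim x' y')) :
    Eqf M z y y' := h.swap.left

lemma rz_eqf {V : Ultrafilter (I → ℕ)} {D D' : I → ℕ} (h : Rz M V z D) (h' : Rz M V z D') :
    Eqf M z D D' := fun l hl => (h l hl).trans (h' l hl).symm

lemma eqf_rz {V : Ultrafilter (I → ℕ)} {D D' : I → ℕ} (h : Rz M V z D) (h' : Eqf M z D D') :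
    Rz M V z D' := fun l hl => (h' l hl).symm.trans (h l hl)

/-- Full types over `z`. -/
theorem ft_eqf {Λ : List I} (hΛ : ∀ i, i ∈ Λ) {f g : I → ℕ} :
    ft M (z ++ Λ.map f) = ft M (z ++ Λ.map g) ↔ Eqf M z f g := by
  have e : ∀ f : I → ℕ, z ++ Λ.map f =
      (z.map Sum.inl ++ Λ.map Sum.inr).map (Sum.elim (id : ℕ → ℕ) f) := by
    intro f
    rw [List.map_append, List.map_map, List.map_map]
    congr 1
    exact (List.map_id _).symm
  rw [e, e, ft_map_iff]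
  constructor
  · intro h l hl
    refine h l fun b hb => ?_
    rcases b with b | b
    · exact List.mem_append_left _ (List.mem_map_of_mem (hl b hb))
    · exact List.mem_append_right _ (List.mem_map_of_mem (hΛ b))
  · intro h l hl
    refine h l fun a ha => ?_
    rcases List.mem_append.1 (hl _ ha) with h1 | h1
    · obtain ⟨b, hb, hab⟩ := List.mem_map.1 h1
      rw [← Sum.inl.inj hab]
      exact hb
    · obtain ⟨b, -, hab⟩ := List.mem_map.1 h1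
      exact absurd hab (by simp)

theorem ft_eqf1 {n : ℕ} {f g : Fin n → ℕ} :
    ft M (z ++ List.ofFn f) = ft M (z ++ List.ofFn g) ↔ Eqf M z f g := by
  rw [List.ofFn_eq_map, List.ofFn_eq_map]
  exact ft_eqf fun i => List.mem_finRange i

theorem ft_eqf2 {n m : ℕ} {f f' : Fin n → ℕ} {g g' : Fin m → ℕ} :
    ft M (z ++ (List.ofFn f ++ List.ofFn g)) = ft M (z ++ (List.ofFn f' ++ List.ofFn g')) ↔
      Eqf M z (Sum.elim f g) (Sum.elim f' g') := by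
  have e : ∀ (f : Fin n → ℕ) (g : Fin m → ℕ), List.ofFn f ++ List.ofFn g =
      ((List.finRange n).map Sum.inl ++ (List.finRange m).map Sum.inr).map (Sum.elim f g) := by
    intro f g
    rw [List.map_append, List.map_map, List.map_map, List.ofFn_eq_map, List.ofFn_eq_map]
    rfl
  rw [e, e]
  refine ft_eqf fun i => ?_
  rcases i with i | i
  · exact List.mem_append_left _ (List.mem_map_of_mem (List.mem_finRange i))
  · exact List.mem_append_right _ (List.mem_map_of_mem (List.mem_finRange i))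

variable {k : ℕ}

lemma gm_mul {S : Fin k → ℕ} {σ τ : Equiv.Perm (Fin k)} (h1 : Eqf M z (S ∘ σ) S)
    (h2 : Eqf M z (S ∘ τ) S) : Eqf M z (S ∘ ⇑(σ * τ)) S := (h1.comp τ).trans h2

lemma gm_inv {S : Fin k → ℕ} {σ : Equiv.Perm (Fin k)} (h1 : Eqf M z (S ∘ σ) S) :
    Eqf M z (S ∘ ⇑σ⁻¹) S := by
  have h2 := h1.comp ⇑σ⁻¹
  have e : (S ∘ σ) ∘ ⇑σ⁻¹ = S := by
    funext i
    simp
  rw [e] at h2
  exact h2.symm

lemma gm_congr {S R : Fin k → ℕ} (h : Eqf M z R S) {σ : Equiv.Perm (Fin k)}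
    (h1 : Eqf M z (R ∘ σ) R) : Eqf M z (S ∘ σ) S := ((h.symm.comp σ).trans h1).trans h

/-- `x`, `y` has the labels of the pair `S0`, `S1` up to twists. -/
def LTp (M : List ℕ → C) (z : List ℕ) {k : ℕ} (S0 S1 x y : Fin k → ℕ) : Prop :=
  ∃ σ τ : Equiv.Perm (Fin k), Eqf M z (S0 ∘ σ) S0 ∧ Eqf M z (S0 ∘ τ) S0 ∧
    Eqf M z (Sum.elim x y) (Sum.elim (S0 ∘ σ) (S1 ∘ τ))

variable {S0 S1 R0 R1 x y x' y' : Fin k → ℕ}

lemma LTp.mono (h : LTp M z' S0 S1 x y) (hz : z ⊆ z') : LTp M z S0 S1 x y := by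
  obtain ⟨σ, τ, h1, h2, h3⟩ := h
  exact ⟨σ, τ, h1.mono hz, h2.mono hz, h3.mono hz⟩

lemma LTp.congr (h : LTp M z S0 S1 x y) (he : Eqf M z (Sum.elim x y) (Sum.elim x' y')) :
    LTp M z S0 S1 x' y' := by
  obtain ⟨σ, τ, h1, h2, h3⟩ := h
  exact ⟨σ, τ, h1, h2, he.symm.trans h3⟩

lemma LTp.congrS (h : LTp M z S0 S1 x y) (he : Eqf M z (Sum.elim S0 S1) (Sum.elim R0 R1)) :
    LTp M z R0 R1 x y := by
  obtain ⟨σ, τ, h1, h2, h3⟩ := h
  exact ⟨σ, τ, gm_congr he.left h1, gm_congr he.left h2, h3.trans (he.prod σ τ)⟩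

lemma ltp_refl : LTp M z S0 S1 S0 S1 := ⟨1, 1, Eqf.refl _, Eqf.refl _, Eqf.refl _⟩

/-- The same relation. -/
lemma LTp.of (h : LTp M z S0 S1 R0 R1) (h' : LTp M z R0 R1 x y) : LTp M z S0 S1 x y := by
  obtain ⟨σ, τ, h1, h2, h3⟩ := h
  obtain ⟨σ', τ', h4, h5, h6⟩ := h'
  have h7 : Eqf M z R0 S0 := h3.left.trans h1
  exact ⟨σ * σ', τ * τ', gm_mul h1 (gm_congr h7 h4), gm_mul h2 (gm_congr h7 h5),
    h6.trans (h3.prod σ' τ')⟩

lemma LTp.inv (h : LTp M z S0 S1 R0 R1) : LTp M z R0 R1 S0 S1 := by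
  obtain ⟨σ, τ, h1, h2, h3⟩ := h
  have h7 : Eqf M z R0 S0 := h3.left.trans h1
  refine ⟨σ⁻¹, τ⁻¹, gm_congr h7.symm (gm_inv h1), gm_congr h7.symm (gm_inv h2), ?_⟩
  have h8 := h3.prod ⇑σ⁻¹ ⇑τ⁻¹
  have e : ∀ (S : Fin k → ℕ) (σ : Equiv.Perm (Fin k)), (S ∘ σ) ∘ ⇑σ⁻¹ = S := by
    intro S σ
    funext i
    simp
  rw [e, e] at h8
  exact h8.symm

/-- The reverse relation. -/
lemma LTp.rev (h : LTp M z S0 S1 R1 R0) (h0 : Eqf M z R0 S0) (h' : LTp M z R0 R1 x y) :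
    LTp M z S0 S1 y x := by
  obtain ⟨σ, τ, h1, h2, h3⟩ := h
  obtain ⟨σ', τ', h4, h5, h6⟩ := h'
  exact ⟨σ * τ', τ * σ', gm_mul h1 (gm_congr h0 h5), gm_mul h2 (gm_congr h0 h4),
    h6.swap.trans (h3.prod τ' σ')⟩

lemma LTp.rev' (h : LTp M z S0 S1 R1 R0) (h0 : Eqf M z R0 S0) (h' : LTp M z S0 S1 x y) :
    LTp M z R0 R1 y x := by
  obtain ⟨σ, τ, h1, h2, h3⟩ := h
  obtain ⟨a, b, h4, h5, h6⟩ := h'
  refine ⟨τ⁻¹ * b, σ⁻¹ * a, gm_congr h0.symm (gm_mul (gm_inv h2) h5),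
    gm_congr h0.symm (gm_mul (gm_inv h1) h4), ?_⟩
  have h8 := h3.prod (⇑σ⁻¹ ∘ a) (⇑τ⁻¹ ∘ b)
  have e : ∀ (S : Fin k → ℕ) (σ a : Equiv.Perm (Fin k)), (S ∘ σ) ∘ (⇑σ⁻¹ ∘ a) = S ∘ a := by
    intro S σ a
    funext i
    simp
  rw [e, e] at h8
  exact (h6.trans h8.symm).swap

end Pool.Agent.H76.HI
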