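import Pool.Agent.H76.HI.SV

/-!
# Generic sequences, and symmetry from independence of the last member
-/

set_option autoImplicit false

namespace Pool.Agent.H76.HI

open Set Pool.Agent.H41.HI Pool.Agent.H75.HCI Pool.Agent.H16.FK Pool.Agent.H71.HCI Filter

variable {C : Type} {M : List ℕ → C} {N : Subgroup (Equiv.Perm ℕ)} {k : ℕ}

/-- The first `m` members of `xs` are a generic sequence of free realisations over `A`. -/
def Gn (H : HSys M N) (B : List ℕ) (V : Ultrafilter (Fin k → ℕ)) (A : List ℕ) {n : ℕ} (m : ℕ)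
    (xs : Fin n → Fin k → ℕ) : Prop :=
  ∀ i : Fin n, (i : ℕ) < m → PA H B V A (xs i) ∧
    ∀ X : List ℕ, (∀ x ∈ X, x ∈ A ∨ ∃ i' < i, ∃ y, xs i' y = x) → Fr H B X (xs i)

/-- Equal labels over `z`. -/
def Eqz (M : List ℕ → C) (z : List ℕ) {n : ℕ} (xs ys : Fin n → Fin k → ℕ) : Prop :=
  ∀ l : List (ℕ ⊕ Fin n × Fin k), Mks z l →
    M (l.map (Sum.elim id (un xs))) = M (l.map (Sum.elim id (un ys)))

lemma Eqz.symm {z : List ℕ} {n : ℕ} {xs ys : Fin n → Fin k → ℕ} (h : Eqz M z xs ys) :
    Eqz M z ys xs := fun l hl => (h l hl).symm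

lemma Eqz.trans {z : List ℕ} {n : ℕ} {xs ys zs : Fin n → Fin k → ℕ} (h : Eqz M z xs ys)
    (h' : Eqz M z ys zs) : Eqz M z xs zs := fun l hl => (h l hl).trans (h' l hl)

lemma Eqz.comp {z : List ℕ} {n : ℕ} {xs ys : Fin n → Fin k → ℕ} (h : Eqz M z xs ys)
    (σ : Fin n → Fin n) : Eqz M z (xs ∘ σ) (ys ∘ σ) := by
  intro l hl
  have e : ∀ xs : Fin n → Fin k → ℕ, l.map (Sum.elim id (un (xs ∘ σ))) =
      (l.map (Sum.map id (Prod.map σ id))).map (Sum.elim id (un xs)) := by
    intro xs
    rw [List.map_map]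
    refine List.map_congr_left fun a _ => ?_
    rcases a with a | a <;> rfl
  rw [e, e]
  exact h _ (hl.map _)

/-- A further free realisation. -/
lemma exists_next {r : ℕ} (hA : Ar r M) (hF : FinL M) {H : HSys M N} {B A : List ℕ}
    {V : Ultrafilter (Fin k → ℕ)} (hV : V ∈ FKB H B (Fin k)) (X : List ℕ) :
    ∃ D, PA H B V A D ∧ Fr H B X D := by
  have h1 := hV.2 (B ++ (A ++ X)) (List.subset_append_left _ _)
  obtain ⟨D, h2, h3, h4⟩ := (h1.and (hV.1.and (rz_ev hA hF V A))).exists
  refine ⟨D, ⟨h3, h4, fr_mono ?_ h2⟩, fr_mono ?_ h2⟩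
  · exact fun x hx => List.mem_append_right _ (List.mem_append_left _ hx)
  · exact fun x hx => List.mem_append_right _ (List.mem_append_right _ hx)

/-- Extension of generic sequences. -/
lemma gn_ext {r : ℕ} (hA : Ar r M) (hF : FinL M) {H : HSys M N} {B A : List ℕ}
    {V : Ultrafilter (Fin k → ℕ)} (hV : V ∈ FKB H B (Fin k)) {n : ℕ} : ∀ (d m : ℕ), m + d = n →
    ∀ xs : Fin n → Fin k → ℕ, Gn H B V A m xs →
      ∃ ys : Fin n → Fin k → ℕ, (∀ i : Fin n, (i : ℕ) < m → ys i = xs i) ∧ Gn H B V A n ys := by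
  classical
  intro d
  induction d with
  | zero =>
    intro m hm xs hxs
    rw [add_zero] at hm
    subst hm
    exact ⟨xs, fun _ _ => rfl, hxs⟩
  | succ d ih =>
    intro m hm xs hxs
    obtain ⟨D, hD1, hD2⟩ := exists_next hA hF (A := A) hV
      (A ++ (List.ofFn fun i : Fin n => List.ofFn (xs i)).flatten)
    let j : Fin n := ⟨m, by omega⟩
    let xs' : Fin n → Fin k → ℕ := fun i => if (i : ℕ) = m then D else xs i
    have hlt : ∀ i : Fin n, (i : ℕ) < m → xs' i = xs i := fun i hi => if_neg (by omega)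
    obtain ⟨ys, h1, h2⟩ := ih (m + 1) (by omega) xs' (by
      intro i hi
      by_cases him : (i : ℕ) = m
      · have e1 : xs' i = D := if_pos him
        rw [e1]
        refine ⟨hD1, fun X hX => fr_mono ?_ hD2⟩
        intro x hx
        rcases hX x hx with h | ⟨i', hi', y, hy⟩
        · exact List.mem_append_left _ h
        · refine List.mem_append_right _ (List.mem_flatten.2 ⟨_, List.mem_ofFn.2 ⟨i', rfl⟩, ?_⟩)
          rw [List.mem_ofFn]
          refine ⟨y, ?_⟩
          rw [← hlt i' (by rw [← him]; exact hi')]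
          exact hy
      · have him' : (i : ℕ) < m := by omega
        rw [hlt i him']
        obtain ⟨h3, h4⟩ := hxs i him'
        refine ⟨h3, fun X hX => h4 X fun x hx => ?_⟩
        rcases hX x hx with h | ⟨i', hi', y, hy⟩
        · exact Or.inl h
        · have h5 : (i' : ℕ) < i := hi'
          rw [hlt i' (by omega)] at hy
          exact Or.inr ⟨i', hi', y, hy⟩)
    refine ⟨ys, fun i hi => ?_, h2⟩
    rw [h1 i (by omega), hlt i hi]

/-- A free realisation which is independent from two given ones. -/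
lemma exists_w {H : HSys M N} {B A L0 : List ℕ} {V : Ultrafilter (Fin k → ℕ)} (hBA : B ⊆ A)
    (hAL : A ⊆ L0) {u u' : Fin k → ℕ} (hu : PA H B V A u) (hfu : Fr H B L0 u)
    (hfu' : Fr H B L0 u') : ∃ w, PA H B V A w ∧ Fr H B (L0 ++ (List.ofFn u ++ List.ofFn u')) w ∧
      Fr H B (L0 ++ List.ofFn w) u ∧ Fr H B (L0 ++ List.ofFn w) u' := by
  let W := L0 ++ List.ofFn u
  let Y := L0 ++ (List.ofFn u ++ List.ofFn u')
  obtain ⟨p, hp, -, hp3⟩ := exists_move H L0 W Y
  have hw : List.ofFn (p.1 ∘ u) = (List.ofFn u).map p.1 := by rw [List.map_ofFn]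
  have h1 : Free H B L0 (List.ofFn u) := (fr_list rfl).1 hfu
  have h1' : Free H B L0 (List.ofFn u') := (fr_list rfl).1 hfu'
  have hBL : B ⊆ L0 := fun x hx => hAL (hBA hx)
  have h2 : Free H B Y ((List.ofFn u).map p.1) := free_move hBL h1
    (List.subset_append_right _ _) (List.subset_append_left _ _) hp hp3
  have hWm : W.map p.1 = L0 ++ List.ofFn (p.1 ∘ u) := by
    rw [hw, List.map_append, map_fix hp.2.1]
  have h3 : Fr H B Y (p.1 ∘ u) := (fr_list hw).2 h2
  refine ⟨p.1 ∘ u, ⟨p.1.injective.comp hu.1, ?_, ?_⟩, h3, ?_, ?_⟩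
  · intro l hl
    rw [← hu.2.1 l hl]
    have h4 : l.map (Sum.elim id (p.1 ∘ u)) = (l.map (Sum.elim id u)).map p.1 := by
      rw [List.map_map]
      refine List.map_congr_left fun a ha => ?_
      rcases a with a | a
      · exact (hp.2.1 a (hAL (hl a ha))).symm
      · rfl
    rw [h4]
    exact lab_map hp.1 _
  · exact fr_mono (fun x hx => List.mem_append_left _ (hAL hx)) h3
  · rw [← hWm, fr_list rfl]
    exact free_over_move h1 (fun x hx => List.mem_append_left _ (hBL hx))
      (fun x hx => List.mem_append_right _ (List.mem_append_left _ hx)) hp hp3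
  · rw [← hWm, fr_list rfl]
    exact free_over_move h1' (fun x hx => List.mem_append_left _ (hBL hx))
      (fun x hx => List.mem_append_right _ (List.mem_append_right _ hx)) hp hp3

/-- Two neighbours of a generic sequence may be exchanged if the first is free from the second. -/
lemma gn_swap {H : HSys M N} {B A : List ℕ} {V : Ultrafilter (Fin k → ℕ)} {n : ℕ}
    {ys : Fin n → Fin k → ℕ} (h : Gn H B V A n ys) {j j' : Fin n} (hj : (j' : ℕ) = j + 1)
    (h1 : ∀ X : List ℕ, (∀ x ∈ X, x ∈ A ∨ (∃ i' < j, ∃ y, ys i' y = x) ∨ ∃ y, ys j' y = x) →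
      Fr H B X (ys j)) : Gn H B V A n (ys ∘ Equiv.swap j j') := by
  have hjj : j < j' := by
    change (j : ℕ) < j'
    omega
  intro i _
  by_cases hij : i = j
  · subst hij
    have e1 : (ys ∘ Equiv.swap i j') i = ys j' := by
      rw [Function.comp_apply, Equiv.swap_apply_left]
    rw [e1]
    obtain ⟨h2, h3⟩ := h j' j'.2
    refine ⟨h2, fun X hX => h3 X fun x hx => ?_⟩
    rcases hX x hx with h4 | ⟨i', hi', y, hy⟩
    · exact Or.inl h4
    · rw [Function.comp_apply, Equiv.swap_apply_of_ne_of_ne hi'.ne (hi'.trans hjj).ne] at hy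
      exact Or.inr ⟨i', hi'.trans hjj, y, hy⟩
  by_cases hij' : i = j'
  · subst hij'
    have e1 : (ys ∘ Equiv.swap j i) i = ys j := by
      rw [Function.comp_apply, Equiv.swap_apply_right]
    rw [e1]
    refine ⟨(h j j.2).1, fun X hX => h1 X fun x hx => ?_⟩
    rcases hX x hx with h4 | ⟨i', hi', y, hy⟩
    · exact Or.inl h4
    · by_cases hi'j : i' = j
      · subst hi'j
        rw [Function.comp_apply, Equiv.swap_apply_left] at hy
        exact Or.inr (Or.inr ⟨y, hy⟩)
      · rw [Function.comp_apply, Equiv.swap_apply_of_ne_of_ne hi'j hi'.ne] at hy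
        refine Or.inr (Or.inl ⟨i', ?_, y, hy⟩)
        have h5 : (i' : ℕ) < i := hi'
        have h6 : (i' : ℕ) ≠ j := fun h => hi'j (Fin.ext h)
        change (i' : ℕ) < j
        omega
  · have e1 : (ys ∘ Equiv.swap j j') i = ys i := by
      rw [Function.comp_apply, Equiv.swap_apply_of_ne_of_ne hij hij']
    rw [e1]
    obtain ⟨h2, h3⟩ := h i i.2
    refine ⟨h2, fun X hX => h3 X fun x hx => ?_⟩
    rcases hX x hx with h4 | ⟨i', hi', y, hy⟩
    · exact Or.inl h4
    · refine Or.inr ⟨Equiv.swap j j' i', ?_, y, hy⟩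
      have hi1 : (i : ℕ) ≠ j := fun h => hij (Fin.ext h)
      have hi2 : (i : ℕ) ≠ j' := fun h => hij' (Fin.ext h)
      have hi3 : (i' : ℕ) < i := hi'
      by_cases hi'j : i' = j
      · subst hi'j
        rw [Equiv.swap_apply_left]
        change (j' : ℕ) < i
        omega
      · by_cases hi'j' : i' = j'
        · subst hi'j'
          rw [Equiv.swap_apply_right]
          change (j : ℕ) < i
          omega
        · rw [Equiv.swap_apply_of_ne_of_ne hi'j hi'j']
          exact hi'

/-- The points of the first `j` members. -/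
def below {n : ℕ} (xs : Fin n → Fin k → ℕ) (j : ℕ) : List ℕ :=
  (((List.finRange n).filter fun i : Fin n => (i : ℕ) < j).map fun i => List.ofFn (xs i)).flatten

lemma mem_below {n : ℕ} {xs : Fin n → Fin k → ℕ} {j : ℕ} {x : ℕ} :
    x ∈ below xs j ↔ ∃ i : Fin n, (i : ℕ) < j ∧ ∃ y, xs i y = x := by
  unfold below
  rw [List.mem_flatten]
  constructor
  · rintro ⟨l, hl, hx⟩
    obtain ⟨i, hi, rfl⟩ := List.mem_map.1 hl
    rw [List.mem_filter] at hi
    obtain ⟨y, hy⟩ := List.mem_ofFn.1 hx
    exact ⟨i, by simpa using hi.2, y, hy⟩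
  · rintro ⟨i, hi, y, hy⟩
    exact ⟨_, List.mem_map.2 ⟨i, List.mem_filter.2 ⟨List.mem_finRange i, by simpa using hi⟩, rfl⟩,
      List.mem_ofFn.2 ⟨y, hy⟩⟩

/-- A generic sequence with given members `v`, `w` at the places `j`, `j + 1` which may be
exchanged. -/
lemma exists_ys {r : ℕ} (hA : Ar r M) (hF : FinL M) {H : HSys M N} {B A : List ℕ}
    {V : Ultrafilter (Fin k → ℕ)} (hV : V ∈ FKB H B (Fin k)) {n : ℕ}
    {xs : Fin n → Fin k → ℕ} {j j' : Fin n} (hj : (j' : ℕ) = j + 1) (h : Gn H B V A j xs)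
    {v w : Fin k → ℕ} (hv : PA H B V A v) (hw : PA H B V A w)
    (hfv : Fr H B (A ++ below xs j ++ List.ofFn w) v)
    (hfw : Fr H B (A ++ below xs j ++ List.ofFn v) w) :
    ∃ ys : Fin n → Fin k → ℕ, Gn H B V A n ys ∧ Gn H B V A n (ys ∘ Equiv.swap j j') ∧
      (∀ i : Fin n, (i : ℕ) < j → ys i = xs i) ∧ ys j = v ∧ ys j' = w := by
  classical
  let y0 : Fin n → Fin k → ℕ := fun i => if (i : ℕ) < j then xs i else if i = j then v else w
  have e0 : ∀ i : Fin n, (i : ℕ) < j → y0 i = xs i := fun i hi => if_pos hi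
  have e1 : y0 j = v := by
    change (if (j : ℕ) < j then _ else if j = j then v else w) = v
    rw [if_neg (lt_irrefl _), if_pos rfl]
  have e2 : y0 j' = w := by
    change (if (j' : ℕ) < j then _ else if j' = j then v else w) = w
    rw [if_neg (by omega), if_neg (fun h => by rw [h] at hj; omega)]
  have hj'n := j'.2
  obtain ⟨ys, h1, h2⟩ := gn_ext hA hF (A := A) hV (n - ((j : ℕ) + 2)) ((j : ℕ) + 2) (by omega) y0 (by
    intro i hi
    by_cases hi1 : (i : ℕ) < j
    · rw [e0 i hi1]
      obtain ⟨h3, h4⟩ := h i hi1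
      refine ⟨h3, fun X hX => h4 X fun x hx => ?_⟩
      rcases hX x hx with h5 | ⟨i', hi', y, hy⟩
      · exact Or.inl h5
      · have h6 : (i' : ℕ) < i := hi'
        rw [e0 i' (by omega)] at hy
        exact Or.inr ⟨i', hi', y, hy⟩
    · by_cases hi2 : i = j
      · subst hi2
        rw [e1]
        refine ⟨hv, fun X hX => fr_mono ?_ hfv⟩
        intro x hx
        rcases hX x hx with h5 | ⟨i', hi', y, hy⟩
        · exact List.mem_append_left _ (List.mem_append_left _ h5)
        · rw [e0 i' hi'] at hy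
          exact List.mem_append_left _ (List.mem_append_right _ (mem_below.2 ⟨i', hi', y, hy⟩))
      · have hi3 : i = j' := Fin.ext (by
          have : (i : ℕ) ≠ j := fun h => hi2 (Fin.ext h)
          omega)
        subst hi3
        rw [e2]
        refine ⟨hw, fun X hX => fr_mono ?_ hfw⟩
        intro x hx
        rcases hX x hx with h5 | ⟨i', hi', y, hy⟩
        · exact List.mem_append_left _ (List.mem_append_left _ h5)
        · have h6 : (i' : ℕ) < i := hi'
          by_cases h7 : (i' : ℕ) < j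
          · rw [e0 i' h7] at hy
            exact List.mem_append_left _ (List.mem_append_right _ (mem_below.2 ⟨i', h7, y, hy⟩))
          · have h8 : i' = j := Fin.ext (by omega)
            subst h8
            rw [e1] at hy
            exact List.mem_append_right _ (List.mem_ofFn.2 ⟨y, hy⟩))
  have f1 : ys j = v := by rw [h1 j (by omega), e1]
  have f2 : ys j' = w := by rw [h1 j' (by omega), e2]
  have f0 : ∀ i : Fin n, (i : ℕ) < j → ys i = xs i := fun i hi => by
    rw [h1 i (by omega), e0 i hi]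
  refine ⟨ys, h2, gn_swap h2 hj ?_, f0, f1, f2⟩
  intro X hX
  rw [f1]
  refine fr_mono ?_ hfv
  intro x hx
  rcases hX x hx with h5 | ⟨i', hi', y, hy⟩ | ⟨y, hy⟩
  · exact List.mem_append_left _ (List.mem_append_left _ h5)
  · rw [f0 i' hi'] at hy
    exact List.mem_append_left _ (List.mem_append_right _ (mem_below.2 ⟨i', hi', y, hy⟩))
  · rw [f2] at hy
    exact List.mem_append_right _ (List.mem_ofFn.2 ⟨y, hy⟩)

/-- If the labels of generic sequences do not depend on the last member, then they are constant. -/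
theorem gn_const {r : ℕ} (hA : Ar r M) (hF : FinL M) {H : HSys M N} {B z A : List ℕ}
    (hBA : B ⊆ A) {V : Ultrafilter (Fin k → ℕ)} (hV : V ∈ FKB H B (Fin k)) {n : ℕ}
    (hd : ∀ xs ys : Fin (n + 1) → Fin k → ℕ, Gn H B V A (n + 1) xs → Gn H B V A (n + 1) ys →
      (∀ i : Fin (n + 1), (i : ℕ) < n → xs i = ys i) → Eqz M z xs ys) :
    ∀ (d j : ℕ), j + d = n → ∀ xs ys : Fin (n + 1) → Fin k → ℕ, Gn H B V A (n + 1) xs →
      Gn H B V A (n + 1) ys → (∀ i : Fin (n + 1), (i : ℕ) < j → xs i = ys i) → Eqz M z xs ys := by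
  intro d
  induction d with
  | zero =>
    intro j hj xs ys hxs hys h
    rw [add_zero] at hj
    subst hj
    exact hd xs ys hxs hys h
  | succ d ih =>
    intro j hj xs xs' hxs hxs' h
    let jj : Fin (n + 1) := ⟨j, by omega⟩
    let jj' : Fin (n + 1) := ⟨j + 1, by omega⟩
    have hbe : below xs j = below xs' j := by
      unfold below
      congr 1
      refine List.map_congr_left fun i hi => ?_
      rw [List.mem_filter] at hi
      rw [h i (by simpa using hi.2)]
    have hfu : ∀ xs : Fin (n + 1) → Fin k → ℕ, Gn H B V A (n + 1) xs →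
        Fr H B (A ++ below xs j) (xs jj) := by
      intro xs hxs
      refine (hxs jj jj.2).2 _ fun x hx => ?_
      rcases List.mem_append.1 hx with hx | hx
      · exact Or.inl hx
      · obtain ⟨i, hi, y, hy⟩ := mem_below.1 hx
        exact Or.inr ⟨i, hi, y, hy⟩
    obtain ⟨w, hw, hw1, hw2, hw3⟩ := exists_w (L0 := A ++ below xs j) hBA
      (List.subset_append_left _ _) (hxs jj jj.2).1 (hfu xs hxs) (by
        rw [hbe]
        exact hfu xs' hxs')
    have hg : ∀ xs : Fin (n + 1) → Fin k → ℕ, Gn H B V A (n + 1) xs → Gn H B V A jj xs :=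
      fun xs hxs i _ => hxs i i.2
    obtain ⟨ys, hy1, hy2, hy3, hy4, hy5⟩ := exists_ys hA hF hV (j := jj) (j' := jj') rfl
      (hg xs hxs) (hxs jj jj.2).1 hw hw2 (fr_mono (by
        intro x hx
        rcases List.mem_append.1 hx with hx | hx
        · exact List.mem_append_left _ hx
        · exact List.mem_append_right _ (List.mem_append_left _ hx)) hw1)
    obtain ⟨ys', hy1', hy2', hy3', hy4', hy5'⟩ := exists_ys hA hF hV (j := jj) (j' := jj') rfl
      (hg xs' hxs') (hxs' jj jj.2).1 hw (by rw [hbe] at hw3; exact hw3) (fr_mono (by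
        intro x hx
        rcases List.mem_append.1 hx with hx | hx
        · exact List.mem_append_left _ (by rw [hbe]; exact hx)
        · exact List.mem_append_right _ (List.mem_append_right _ hx)) hw1)
    have hlast : ∀ i : Fin (n + 1), (i : ℕ) < j + 1 → (i : ℕ) < j ∨ i = jj := by
      intro i hi
      by_cases hi2 : (i : ℕ) < j
      · exact Or.inl hi2
      · exact Or.inr (Fin.ext (by
          change (i : ℕ) = j
          omega))
    have a1 : Eqz M z xs ys := ih (j + 1) (by omega) xs ys hxs hy1 (by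
      intro i hi
      rcases hlast i hi with hi | rfl
      · exact (hy3 i hi).symm
      · exact hy4.symm)
    have a2 : Eqz M z xs' ys' := ih (j + 1) (by omega) xs' ys' hxs' hy1' (by
      intro i hi
      rcases hlast i hi with hi | rfl
      · exact (hy3' i hi).symm
      · exact hy4'.symm)
    have a3 : Eqz M z (ys ∘ Equiv.swap jj jj') (ys' ∘ Equiv.swap jj jj') :=
      ih (j + 1) (by omega) _ _ hy2 hy2' (by
        intro i hi
        rcases hlast i hi with hi | rfl
        · have h1 : i ≠ jj := fun h => by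
            rw [h] at hi
            exact lt_irrefl _ hi
          have h2 : i ≠ jj' := fun h => by
            rw [h] at hi
            change j + 1 < j at hi
            omega
          rw [Function.comp_apply, Function.comp_apply, Equiv.swap_apply_of_ne_of_ne h1 h2,
            hy3 i hi, hy3' i hi, h i hi]
        · rw [Function.comp_apply, Function.comp_apply, Equiv.swap_apply_left, hy5, hy5'])
    have a4 := a3.comp (Equiv.swap jj jj')
    have e : ∀ ys : Fin (n + 1) → Fin k → ℕ,
        (ys ∘ Equiv.swap jj jj') ∘ Equiv.swap jj jj' = ys := by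
      intro ys
      funext i
      simp
    rw [e, e] at a4
    exact (a1.trans a4).trans a2.symm

/-- Almost all sequences are generic. -/
theorem gn_ev {r : ℕ} (hA : Ar r M) (hF : FinL M) {H : HSys M N} {B A : List ℕ}
    {V : Ultrafilter (Fin k → ℕ)} (hV : V ∈ FKB H B (Fin k)) : ∀ n : ℕ,
    ∀ᶠ xs in (pw V n : Filter (Fin n → Fin k → ℕ)), Gn H B V A n xs := by
  intro n
  induction n with
  | zero => exact Eventually.of_forall fun xs i => i.elim0
  | succ n ih =>
    rw [pw_ev]
    filter_upwards [ih] with xs hxs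
    have h1 := hV.2 (B ++ (A ++ (List.ofFn fun i : Fin n => List.ofFn (xs i)).flatten))
      (List.subset_append_left _ _)
    filter_upwards [h1, hV.1, rz_ev hA hF V A] with x hx1 hx2 hx3
    intro i hi
    refine Fin.lastCases ?_ (fun i => ?_) i
    · rw [Fin.snoc_last]
      refine ⟨⟨hx2, hx3, fr_mono ?_ hx1⟩, fun X hX => fr_mono ?_ hx1⟩
      · exact fun y hy => List.mem_append_right _ (List.mem_append_left _ hy)
      · intro y hy
        rcases hX y hy with h | ⟨i', hi', a, ha⟩
        · exact List.mem_append_right _ (List.mem_append_left _ h)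
        · obtain ⟨i'', rfl⟩ : ∃ i'' : Fin n, i' = i''.castSucc :=
            ⟨⟨i', hi'⟩, rfl⟩
          rw [Fin.snoc_castSucc] at ha
          refine List.mem_append_right _ (List.mem_append_right _ (List.mem_flatten.2
            ⟨_, List.mem_ofFn.2 ⟨i'', rfl⟩, List.mem_ofFn.2 ⟨a, ha⟩⟩))
    · rw [Fin.snoc_castSucc]
      obtain ⟨h3, h4⟩ := hxs i i.2
      refine ⟨h3, fun X hX => h4 X fun y hy => ?_⟩
      rcases hX y hy with h | ⟨i', hi', a, ha⟩
      · exact Or.inl h
      · obtain ⟨i'', rfl⟩ : ∃ i'' : Fin n, i' = i''.castSucc :=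
          ⟨⟨i', lt_trans hi' i.2⟩, rfl⟩
        rw [Fin.snoc_castSucc] at ha
        exact Or.inr ⟨i'', hi', a, ha⟩

/-- (e) -/
theorem gn_symm {r : ℕ} (hA : Ar r M) (hF : FinL M) {H : HSys M N} {B z A : List ℕ}
    (hBA : B ⊆ A) {V : Ultrafilter (Fin k → ℕ)} (hV : V ∈ FKB H B (Fin k)) {n : ℕ}
    (hd : ∀ xs ys : Fin (n + 1) → Fin k → ℕ, Gn H B V A (n + 1) xs → Gn H B V A (n + 1) ys →
      (∀ i : Fin (n + 1), (i : ℕ) < n → xs i = ys i) → Eqz M z xs ys) :
    ∀ σ : Equiv.Perm (Fin (n + 1)), ∀ xs : Fin (n + 1) → Fin k → ℕ, Gn H B V A (n + 1) xs →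
      Eqz M z (xs ∘ σ) xs := by
  have hc : ∀ xs ys : Fin (n + 1) → Fin k → ℕ, Gn H B V A (n + 1) xs →
      Gn H B V A (n + 1) ys → Eqz M z xs ys := fun xs ys hxs hys =>
    gn_const hA hF hBA hV hd n 0 (by omega) xs ys hxs hys fun i hi => absurd hi (by omega)
  have hadj : ∀ i : Fin n, ∀ xs : Fin (n + 1) → Fin k → ℕ, Gn H B V A (n + 1) xs →
      Eqz M z (xs ∘ Equiv.swap i.castSucc i.succ) xs := by
    intro i xs hxs
    have hfu : Fr H B (A ++ below xs i) (xs i.castSucc) := by
      refine (hxs i.castSucc (i.castSucc).2).2 _ fun x hx => ?_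
      rcases List.mem_append.1 hx with hx | hx
      · exact Or.inl hx
      · obtain ⟨i', hi', y, hy⟩ := mem_below.1 hx
        exact Or.inr ⟨i', hi', y, hy⟩
    obtain ⟨w, hw, hw1, hw2, -⟩ := exists_w (L0 := A ++ below xs i) hBA
      (List.subset_append_left _ _) (hxs i.castSucc (i.castSucc).2).1 hfu hfu
    obtain ⟨ys, hy1, hy2, -, -, -⟩ := exists_ys hA hF hV (j := i.castSucc) (j' := i.succ)
      (by simp) (xs := xs) (fun i' _ => hxs i' i'.2) (hxs i.castSucc (i.castSucc).2).1 hw hw2
      (fr_mono (by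
        intro x hx
        rcases List.mem_append.1 hx with hx | hx
        · exact List.mem_append_left _ hx
        · exact List.mem_append_right _ (List.mem_append_left _ hx)) hw1)
    exact (((hc xs ys hxs hy1).comp _).trans (hc _ _ hy2 hy1)).trans (hc ys xs hy1 hxs)
  intro σ
  have h1 : σ ∈ Submonoid.closure (Set.range fun i : Fin n => Equiv.swap i.castSucc i.succ) := by
    rw [Equiv.Perm.mclosure_swap_castSucc_succ]
    trivial
  induction h1 using Submonoid.closure_induction with
  | mem x hx =>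
    obtain ⟨i, rfl⟩ := hx
    exact hadj i
  | one => exact fun xs _ l _ => rfl
  | mul x y _ _ hx hy =>
    intro xs hxs
    have h2 := (hx xs hxs).comp y
    exact Eqz.trans h2 (hy xs hxs)

/-- (e), for the ultrafilter. -/
theorem symN_of_gn {r : ℕ} (hA : Ar r M) (hF : FinL M) {H : HSys M N} {B z A : List ℕ}
    (hBA : B ⊆ A) {V : Ultrafilter (Fin k → ℕ)} (hV : V ∈ FKB H B (Fin k)) {n : ℕ}
    (hd : ∀ xs ys : Fin (n + 1) → Fin k → ℕ, Gn H B V A (n + 1) xs → Gn H B V A (n + 1) ys →
      (∀ i : Fin (n + 1), (i : ℕ) < n → xs i = ys i) → Eqz M z xs ys)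
    (σ : Equiv.Perm (Fin (n + 1))) :
    ∀ᶠ xs in (pw V (n + 1) : Filter (Fin (n + 1) → Fin k → ℕ)),
      ft M (z ++ fl (xs ∘ σ)) = ft M (z ++ fl xs) := by
  filter_upwards [gn_ev hA hF (A := A) hV (n + 1)] with xs hxs
  exact ft_fl_iff.2 (gn_symm hA hF hBA hV hd σ xs hxs)

end Pool.Agent.H76.HI
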