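import Pool.Agent.H76.HI.EQ

/-!
# The cells of the hubs are classes
-/

set_option autoImplicit false

namespace Pool.Agent.H76.HI

open Set Pool.Agent.H41.HI Pool.Agent.H75.HCI Pool.Agent.H16.FK Filter

variable {C : Type} {M : List ℕ → C} {N : Subgroup (Equiv.Perm ℕ)} {k kc : ℕ}

/-- The points of a row. -/
def rwf (i m : ℕ) (y : Fin k) : Idx kc k := (i, Sum.inr (m, y))

/-- The points of a hub. -/
def hbf (b : Fin kc) : Idx kc k := (0, Sum.inl b)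

/-- The point is visible if there is one row in each chunk. -/
def V1 (p : Idx kc k) : Prop := p ∈ Pool.Agent.H75.HCI.V kc k fun _ => 1

lemma v1_row (i : ℕ) (y : Fin k) : V1 (rwf (kc := kc) i 0 y) := by
  intro q hq
  rw [← Sum.inr.inj hq]
  exact zero_lt_one

lemma v1_hub (b : Fin kc) : V1 (hbf (k := k) b) := by
  intro q hq
  exact absurd hq (by simp [hbf])

lemma row_eq (i m : ℕ) : row (kx := kc) (k := k) i m = List.ofFn (rwf i m) := by
  rw [List.ofFn_eq_map]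
  rfl

lemma hubA_eq : hubA (kx := kc) (k := k) 0 = List.ofFn hbf := by
  rw [List.ofFn_eq_map]
  rfl

lemma hub_eq {n : ℕ} (j : Fin n → Fin kc) :
    hub (k := k) 0 (List.ofFn j) = List.ofFn (hbf ∘ j) := by
  unfold hub
  rw [List.map_ofFn]
  rfl

lemma prt_eq {n : ℕ} (i m : ℕ) (a : Fin n → Fin k) :
    prt (kx := kc) i m (List.ofFn a) = List.ofFn (rwf i m ∘ a) := by
  unfold prt
  rw [List.map_ofFn]
  rfl

/-- `pt` realises `T` over the marks `z`. -/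
def RT (M : List ℕ → C) (z : List ℕ) (T : List (Idx kc k) → List ℕ → C) (pt : Idx kc k → ℕ) :
    Prop := ∀ l : List (Idx kc k), (∀ p ∈ l, V1 p) → T l = ft M (z ++ l.map pt)

section

variable {z : List ℕ} {T : List (Idx kc k) → List ℕ → C} {pt : Idx kc k → ℕ}

lemma rt1 (h : RT M z T pt) {n : ℕ} {f : Fin n → Idx kc k} (hf : ∀ i, V1 (f i))
    {x : Fin n → ℕ} : T (List.ofFn f) = ft M (z ++ List.ofFn x) ↔ Eqf M z (pt ∘ f) x := by
  rw [h _ (fun p hp => by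
    obtain ⟨i, rfl⟩ := List.mem_ofFn.1 hp
    exact hf i), List.map_ofFn, ft_eqf1]

lemma rt1' (h : RT M z T pt) {n : ℕ} {f g : Fin n → Idx kc k} (hf : ∀ i, V1 (f i))
    (hg : ∀ i, V1 (g i)) : T (List.ofFn f) = T (List.ofFn g) ↔ Eqf M z (pt ∘ f) (pt ∘ g) := by
  rw [h (List.ofFn g) (fun p hp => by
    obtain ⟨i, rfl⟩ := List.mem_ofFn.1 hp
    exact hg i), List.map_ofFn, rt1 h hf]

lemma rt2 (h : RT M z T pt) {n m : ℕ} {f : Fin n → Idx kc k} {g : Fin m → Idx kc k}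
    (hf : ∀ i, V1 (f i)) (hg : ∀ i, V1 (g i)) {x : Fin n → ℕ} {y : Fin m → ℕ} :
    T (List.ofFn f ++ List.ofFn g) = ft M (z ++ (List.ofFn x ++ List.ofFn y)) ↔
      Eqf M z (Sum.elim (pt ∘ f) (pt ∘ g)) (Sum.elim x y) := by
  rw [h _ (fun p hp => by
    rcases List.mem_append.1 hp with hp | hp
    · obtain ⟨i, rfl⟩ := List.mem_ofFn.1 hp
      exact hf i
    · obtain ⟨i, rfl⟩ := List.mem_ofFn.1 hp
      exact hg i), List.map_append, List.map_ofFn, List.map_ofFn, ft_eqf2]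

lemma rt2' (h : RT M z T pt) {n m : ℕ} {f f' : Fin n → Idx kc k} {g g' : Fin m → Idx kc k}
    (hf : ∀ i, V1 (f i)) (hg : ∀ i, V1 (g i)) (hf' : ∀ i, V1 (f' i)) (hg' : ∀ i, V1 (g' i)) :
    T (List.ofFn f ++ List.ofFn g) = T (List.ofFn f' ++ List.ofFn g') ↔
      Eqf M z (Sum.elim (pt ∘ f) (pt ∘ g)) (Sum.elim (pt ∘ f') (pt ∘ g')) := by
  rw [h (List.ofFn f' ++ List.ofFn g') (fun p hp => by
    rcases List.mem_append.1 hp with hp | hp
    · obtain ⟨i, rfl⟩ := List.mem_ofFn.1 hp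
      exact hf' i
    · obtain ⟨i, rfl⟩ := List.mem_ofFn.1 hp
      exact hg' i), List.map_append, List.map_ofFn, List.map_ofFn, rt2 h hf hg]

/-- Lists without repetitions of full length are permutations. -/
lemma exists_perm {a : List (Fin k)} (h1 : a.Nodup) (h2 : a.length = k) :
    ∃ σ : Equiv.Perm (Fin k), a = List.ofFn σ := by
  let f : Fin k → Fin k := fun i => a.get (i.cast h2.symm)
  have hf : Function.Injective f := by
    intro i j hij
    have := List.nodup_iff_injective_get.1 h1 hij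
    exact Fin.cast_injective _ this
  let σ : Equiv.Perm (Fin k) := Equiv.ofBijective f (Finite.injective_iff_bijective.1 hf)
  refine ⟨σ, List.ext_getElem (by rw [List.length_ofFn, h2]) fun i h3 h4 => ?_⟩
  rw [List.getElem_ofFn]
  rfl

lemma exists_fn {α : Type} {a : List α} {n : ℕ} (h2 : a.length = n) :
    ∃ f : Fin n → α, a = List.ofFn f := by
  subst h2
  exact ⟨a.get, (List.ofFn_get a).symm⟩

lemma tw_iff (h : RT M z T pt) {a : List (Fin k)} : Tw T a ↔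
    ∃ σ : Equiv.Perm (Fin k), a = List.ofFn σ ∧ Eqf M z ((pt ∘ rwf 0 0) ∘ σ) (pt ∘ rwf 0 0) := by
  constructor
  · rintro ⟨h1, h2, h3⟩
    obtain ⟨σ, rfl⟩ := exists_perm h1 h2
    refine ⟨σ, rfl, ?_⟩
    rw [prt_eq, row_eq, rt1' h (f := rwf 0 0 ∘ σ) (g := rwf 0 0) (fun i => v1_row 0 _)
      fun i => v1_row 0 _] at h3
    exact h3
  · rintro ⟨σ, rfl, h3⟩
    refine ⟨List.nodup_ofFn.2 σ.injective, List.length_ofFn, ?_⟩
    rw [prt_eq, row_eq, rt1' h (f := rwf 0 0 ∘ σ) (g := rwf 0 0) (fun i => v1_row 0 _)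
      fun i => v1_row 0 _]
    exact h3

theorem lt_iff (h : RT M z T pt) {f g : Fin k → Idx kc k} (hf : ∀ i, V1 (f i))
    (hg : ∀ i, V1 (g i)) : Lt T (List.ofFn f) (List.ofFn g) ↔
      LTp M z (pt ∘ rwf 0 0) (pt ∘ rwf 1 0) (pt ∘ f) (pt ∘ g) := by
  constructor
  · rintro ⟨a, b, ha, hb, hab⟩
    obtain ⟨σ, rfl, h1⟩ := (tw_iff h).1 ha
    obtain ⟨τ, rfl, h2⟩ := (tw_iff h).1 hb
    rw [prt_eq, prt_eq, rt2' h (f' := rwf 0 0 ∘ σ) (g' := rwf 1 0 ∘ τ) hf hg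
      (fun i => v1_row 0 _) fun i => v1_row 1 _] at hab
    exact ⟨σ, τ, h1, h2, hab⟩
  · rintro ⟨σ, τ, h1, h2, h3⟩
    refine ⟨List.ofFn σ, List.ofFn τ, (tw_iff h).2 ⟨σ, rfl, h1⟩, (tw_iff h).2 ⟨τ, rfl, h2⟩, ?_⟩
    rw [prt_eq, prt_eq, rt2' h (f' := rwf 0 0 ∘ σ) (g' := rwf 1 0 ∘ τ) hf hg
      (fun i => v1_row 0 _) fun i => v1_row 1 _]
    exact h3

end

/-- Cells of the hubs. -/
structure Cells (M : List ℕ → C) (H : HSys M N) (B z : List ℕ) (V : Ultrafilter (Fin k → ℕ))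
    (c : ℕ → Fin kc → ℕ) (Js : List (List (Fin kc))) : Prop where
  perm : Js.flatten.Perm (List.finRange kc)
  len : ∀ J ∈ Js, J.length = k
  pa : ∀ i, ∀ J ∈ Js, ∃ D, PA H B V (Az z i) D ∧ List.ofFn D = J.map (c i)
  ind : ∀ i, ∃ Js' : List (List (Fin kc)), Js'.Perm Js ∧
    Ind H B (Az z i) (Js'.map fun J => J.map (c i))
  inj : ∀ i, Function.Injective (c i)

lemma Cells.nodup {H : HSys M N} {B z : List ℕ} {V : Ultrafilter (Fin k → ℕ)}
    {c : ℕ → Fin kc → ℕ} {Js : List (List (Fin kc))} (h : Cells M H B z V c Js) :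
    (∀ J ∈ Js, J.Nodup) ∧ Js.Pairwise List.Disjoint := by
  rw [← List.nodup_flatten]
  exact h.perm.nodup_iff.2 (List.nodup_finRange kc)

lemma Cells.disj {H : HSys M N} {B z : List ℕ} {V : Ultrafilter (Fin k → ℕ)}
    {c : ℕ → Fin kc → ℕ} {Js : List (List (Fin kc))} (h : Cells M H B z V c Js)
    {J J' : List (Fin kc)} (hJ : J ∈ Js) (hJ' : J' ∈ Js) (hne : J ≠ J') : J.Disjoint J' := by
  have : Std.Symm (List.Disjoint (α := Fin kc)) := ⟨fun _ _ h => h.symm⟩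
  exact h.nodup.2.forall hJ hJ' hne

lemma exists_cl {Js : List (List (Fin kc))} (hp : Js.flatten.Perm (List.finRange kc))
    (hd : ∀ J ∈ Js, ∀ J' ∈ Js, J ≠ J' → J.Disjoint J') : ∃ cl : Fin kc → Fin kc,
      ∀ b b', cl b = cl b' ↔ ∃ J ∈ Js, b ∈ J ∧ b' ∈ J := by
  have h1 : ∀ b : Fin kc, ∃ J ∈ Js, b ∈ J := by
    intro b
    have := (hp.mem_iff (a := b)).2 (List.mem_finRange b)
    exact List.mem_flatten.1 this
  choose f hf hbf using h1
  have hne : ∀ b, f b ≠ [] := fun b h => by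
    have := hbf b
    rw [h] at this
    exact absurd this (List.not_mem_nil)
  have huniq : ∀ J ∈ Js, ∀ J' ∈ Js, ∀ b, b ∈ J → b ∈ J' → J = J' := by
    intro J hJ J' hJ' b hb hb'
    by_contra hn
    exact hd J hJ J' hJ' hn hb hb'
  refine ⟨fun b => (f b).head (hne b), fun b b' => ⟨fun h => ?_, ?_⟩⟩
  · have h2 : f b = f b' := by
      refine huniq _ (hf b) _ (hf b') ((f b).head (hne b)) (List.head_mem _) ?_
      have h3 : (f b).head (hne b) = (f b').head (hne b') := h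
      rw [h3]
      exact List.head_mem _
    exact ⟨f b, hf b, hbf b, by rw [h2]; exact hbf b'⟩
  · rintro ⟨J, hJ, hb, hb'⟩
    have h2 : f b = J := huniq _ (hf b) _ hJ b (hbf b) hb
    have h3 : f b' = J := huniq _ (hf b') _ hJ b' (hbf b') hb'
    have h4 : f b = f b' := h2.trans h3.symm
    simp only [h4]

/-- The facts about the hub. -/
theorem hub_facts {r : ℕ} (hA : Ar r M) (hF : FinL M) (hk : 1 ≤ k) {H : HSys M N} {B z : List ℕ}
    (hQ : ∀ k' < k, QQ H k') (hz : SepK H k z) (hBz : B ⊆ z) {V : Ultrafilter (Fin k → ℕ)}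
    (hV : V ∈ FKB H B (Fin k)) (hns : SepV M V z) {W : ℕ → Ultrafilter (Fin k → ℕ)}
    (hW : Apx M H B z V W) {c : ℕ → Fin kc → ℕ} {Js : List (List (Fin kc))}
    (hc : Cells M H B z V c Js) {z' : List ℕ} (hzz : z ⊆ z')
    {T : List (Idx kc k) → List ℕ → C} (af : AF M H B V c W z' T) :
    (∀ J ∈ Js, T (hub 0 J) = T (row 0 0)) ∧ ∀ cl : Fin kc → Fin kc,
      (∀ b b', cl b = cl b' ↔ ∃ J ∈ Js, b ∈ J ∧ b' ∈ J) → ClB T cl := by
  obtain ⟨pt, hpt⟩ := af.real fun _ => 1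
  have hrt : RT M z' T pt := hpt
  -- a good index
  obtain ⟨i, hi1, hi2⟩ := (af.ev1.and (uh_of_atTop (az_ev z z'))).exists
  obtain ⟨y, hy1, hy2⟩ := (hi1.and (rz_ev hA hF (W i) (Az z i))).exists
  rw [hubA_eq, row_eq, rt2 hrt v1_hub fun a => v1_row 0 a] at hy1
  have hyV : Rz M V z' y := fun l hl => by
    have hl' : Mks z' l := hl
    rw [hy2 l (hl'.mono hi2), hW.eq i l (hl'.mono hi2)]
  have hJrt : ∀ j : Fin k → Fin kc, T (hub 0 (List.ofFn j)) = T (row 0 0) ↔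
      Rz M V z' (c i ∘ j) := by
    intro j
    rw [hub_eq, row_eq, rt1' hrt (f := hbf ∘ j) (g := rwf 0 0) (fun a => v1_hub _)
      fun a => v1_row 0 a]
    constructor
    · intro h
      exact eqf_rz hyV ((hy1.right.symm.trans h.symm).trans (hy1.left.comp j))
    · intro h
      exact ((hy1.left.comp j).trans (rz_eqf h hyV)).trans hy1.right.symm
  have hJs : ∀ J ∈ Js, T (hub 0 J) = T (row 0 0) := by
    intro J hJ
    obtain ⟨j, rfl⟩ := exists_fn (hc.len J hJ)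
    rw [hJrt]
    obtain ⟨D, hD, hDj⟩ := hc.pa i _ hJ
    rw [List.map_ofFn, List.ofFn_inj] at hDj
    rw [← hDj]
    exact hD.2.1.mono hi2
  have hHB : ∀ J, HB T J → ∃ J' ∈ Js, J.Perm J' := by
    rintro J ⟨h1, h2, h3⟩
    obtain ⟨j, rfl⟩ := exists_fn h2
    rw [hJrt] at h3
    have hj : Function.Injective j := List.nodup_ofFn.1 h1
    obtain ⟨Js', hp, hind⟩ := hc.ind i
    obtain ⟨c', hc', hcu⟩ := mx_list hF hk hQ hz hBz az_sub hV hns
      (Js'.map fun J => J.map (c i)) (by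
        intro c' hc'
        obtain ⟨J', hJ', rfl⟩ := List.mem_map.1 hc'
        exact hc.pa i J' (hp.mem_iff.1 hJ')) hind (c i ∘ j) ((hc.inj i).comp hj)
      (h3.mono hzz) (by
        intro a
        have h4 := (hc.perm.mem_iff (a := j a)).2 (List.mem_finRange _)
        obtain ⟨J', hJ', hj'⟩ := List.mem_flatten.1 h4
        exact List.mem_flatten.2 ⟨_, List.mem_map.2 ⟨J', hp.mem_iff.2 hJ', rfl⟩,
          List.mem_map_of_mem hj'⟩)
    obtain ⟨J', hJ', rfl⟩ := List.mem_map.1 hc'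
    have hJ'' := hp.mem_iff.1 hJ'
    refine ⟨J', hJ'', (List.perm_ext_iff_of_nodup h1 (hc.nodup.1 J' hJ'')).2 fun b => ?_⟩
    have h4 := hcu (c i b)
    rw [← List.map_ofFn, List.mem_map, List.mem_map] at h4
    constructor
    · intro hb
      obtain ⟨b', hb', hbb⟩ := h4.1 ⟨b, hb, rfl⟩
      rwa [← hc.inj i hbb]
    · intro hb
      obtain ⟨b', hb', hbb⟩ := h4.2 ⟨b, hb, rfl⟩
      rwa [← hc.inj i hbb]
  refine ⟨hJs, fun cl hcl b b' => ?_⟩
  rw [hcl]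
  constructor
  · rintro ⟨J, hJ, hb, hb'⟩
    refine Or.inr ⟨J, ⟨⟨hc.nodup.1 J hJ, hc.len J hJ, hJs J hJ⟩, fun J' hJ' => ?_⟩, hb, hb'⟩
    obtain ⟨J'', hJ'', hp⟩ := hHB J' hJ'
    by_cases hne : J'' = J
    · subst hne
      exact Or.inl hp
    · refine Or.inr fun a ha hb => ?_
      exact hc.disj hJ'' hJ hne (hp.mem_iff.1 ha) hb
  · rintro (rfl | ⟨J, hJ, hb, hb'⟩)
    · have h4 := (hc.perm.mem_iff (a := b)).2 (List.mem_finRange _)
      obtain ⟨J', hJ', hj'⟩ := List.mem_flatten.1 h4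
      exact ⟨J', hJ', hj', hj'⟩
    · obtain ⟨J'', hJ'', hp⟩ := hHB J hJ.1
      exact ⟨J'', hJ'', hp.mem_iff.1 hb, hp.mem_iff.1 hb'⟩

/-- The results about the array with a hub of cells. -/
theorem hub_top (hTOPC : T_TOPC) {r : ℕ} (hA : Ar r M) (hF : FinL M) (hk : 1 ≤ k)
    {H : HSys M N} {B z : List ℕ} (hQ : ∀ k' < k, QQ H k') (hz : SepK H k z) (hBz : B ⊆ z)
    {V : Ultrafilter (Fin k → ℕ)} (hV : V ∈ FKB H B (Fin k)) (hns : SepV M V z)
    {W : ℕ → Ultrafilter (Fin k → ℕ)} (hW : Apx M H B z V W) {c : ℕ → Fin kc → ℕ}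
    {Js : List (List (Fin kc))} (hc : Cells M H B z V c Js) {z' : List ℕ} (hzz : z ⊆ z')
    {T : List (Idx kc k) → List ℕ → C} (af : AF M H B V c W z' T) :
    (∀ J ∈ Js, T (hub 0 J) = T (row 0 0)) ∧ ∃ (cl : Fin kc → Fin kc) (In : Set (Fin kc)),
      (∀ b b', cl b = cl b' ↔ ∃ J ∈ Js, b ∈ J ∧ b' ∈ J) ∧ In ⊆ range cl ∧
        SPart T (ec cl) univ (BP In) := by
  obtain ⟨h1, h2⟩ := hub_facts hA hF hk hQ hz hBz hV hns hW hc hzz af
  obtain ⟨cl, hcl⟩ := exists_cl hc.perm fun J hJ J' hJ' => hc.disj hJ hJ'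
  obtain ⟨In, h3, h4⟩ := hTOPC kc k (List ℕ → C) T cl af.ax af.last hk af.coll af.nsp (h2 cl hcl)
  exact ⟨h1, cl, In, hcl, h3, h4⟩

end Pool.Agent.H76.HI
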