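import Pool.Agent.H41.HI.Sys

/-!
# Moving supports in a system
-/

set_option autoImplicit false

namespace Pool.Agent.H76.HI

open Set Pool.Agent.H41.HI

/-- An involution which fixes `X` and moves the rest of `W` off `Y`. -/
theorem exists_invol (X W Y : Finset ℕ) : ∃ σ : Equiv.Perm ℕ, σ⁻¹ = σ ∧ (∀ n ∈ X, σ n = n) ∧
    ∀ n ∈ W, n ∉ X → σ n ∉ Y := by
  classical
  obtain ⟨N, hN⟩ : ∃ N, ∀ n ∈ X ∪ W ∪ Y, n < N :=
    ⟨(X ∪ W ∪ Y).sup id + 1, fun n hn => Nat.lt_succ_of_le (Finset.le_sup (f := id) hn)⟩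
  have hNX : ∀ n ∈ X, n < N := fun n hn => hN n (by simp [hn])
  have hNW : ∀ n ∈ W, n < N := fun n hn => hN n (by simp [hn])
  have hNY : ∀ n ∈ Y, n < N := fun n hn => hN n (by simp [hn])
  let S : Finset ℕ := W \ X
  have hS : ∀ n ∈ S, n < N := fun n hn => hNW n (Finset.mem_sdiff.1 hn).1
  let f : ℕ → ℕ := fun n => if n ∈ S then n + N else if N ≤ n ∧ n - N ∈ S then n - N else n
  have hf : Function.Involutive f := by
    intro n
    by_cases h1 : n ∈ S
    · have e1 : f n = n + N := if_pos h1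
      have e2 : n + N ∉ S := fun h => absurd (hS _ h) (by omega)
      rw [e1]
      change (if n + N ∈ S then _ else if N ≤ n + N ∧ n + N - N ∈ S then n + N - N else n + N) = n
      rw [if_neg e2, if_pos ⟨by omega, by rwa [Nat.add_sub_cancel]⟩, Nat.add_sub_cancel]
    · by_cases h2 : N ≤ n ∧ n - N ∈ S
      · have e1 : f n = n - N := by
          change (if n ∈ S then _ else if N ≤ n ∧ n - N ∈ S then n - N else n) = _
          rw [if_neg h1, if_pos h2]
        rw [e1]
        change (if n - N ∈ S then n - N + N else _) = n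
        rw [if_pos h2.2]
        omega
      · have e1 : f n = n := by
          change (if n ∈ S then _ else if N ≤ n ∧ n - N ∈ S then n - N else n) = _
          rw [if_neg h1, if_neg h2]
        rw [e1, e1]
  refine ⟨hf.toPerm f, ?_, ?_, ?_⟩
  · ext n
    rfl
  · intro n hn
    change (if n ∈ S then _ else if N ≤ n ∧ n - N ∈ S then n - N else n) = n
    rw [if_neg (fun h => (Finset.mem_sdiff.1 h).2 hn), if_neg]
    rintro ⟨h, -⟩
    exact absurd (hNX n hn) (by omega)
  · intro n hn hnX h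
    have h1 : n ∈ S := Finset.mem_sdiff.2 ⟨hn, hnX⟩
    change (if n ∈ S then n + N else _) ∈ Y at h
    rw [if_pos h1] at h
    exact absurd (hNY _ h) (by omega)

variable {C : Type} {M : List ℕ → C} {N : Subgroup (Equiv.Perm ℕ)}

/-- The pairs of the system which are the identity on `X` and its support. -/
def KX (H : HSys M N) (X : List ℕ) : Set (Equiv.Perm ℕ × Equiv.Perm ℕ) :=
  {p | p ∈ H.K ∧ (∀ x ∈ X, p.1 x = x) ∧ ∀ n ∈ H.sup X, p.2 n = n}

/-- The tuple `D` is free from `X` over `B`. -/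
def Free (H : HSys M N) (B X D : List ℕ) : Prop := ∀ d ∈ D, ¬ H.sup (B ++ [d]) ⊆ H.sup X

lemma KX_inv {H : HSys M N} {X : List ℕ} {p : Equiv.Perm ℕ × Equiv.Perm ℕ} (hp : p ∈ KX H X) :
    p⁻¹ ∈ KX H X := by
  refine ⟨H.K.inv_mem hp.1, fun x hx => ?_, fun n hn => ?_⟩
  · have h := hp.2.1 x hx
    change p.1⁻¹ x = x
    rw [Equiv.Perm.inv_eq_iff_eq, h]
  · have h := hp.2.2 n hn
    change p.2⁻¹ n = n
    rw [Equiv.Perm.inv_eq_iff_eq, h]

lemma KX_mono {H : HSys M N} {X X' : List ℕ} (h : X ⊆ X') : KX H X' ⊆ KX H X :=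
  fun _ hp => ⟨hp.1, fun x hx => hp.2.1 x (h hx), fun n hn => hp.2.2 n (H.mono _ _ h hn)⟩

lemma map_fix {X : List ℕ} {h : Equiv.Perm ℕ} (hX : ∀ x ∈ X, h x = x) : X.map h = X := by
  conv_rhs => rw [← List.map_id X]
  exact List.map_congr_left fun x hx => by rw [hX x hx]; rfl

/-- Supports move with the permutation. -/
lemma sup_map {H : HSys M N} {p : Equiv.Perm ℕ × Equiv.Perm ℕ} (hp : p ∈ H.K) (a : List ℕ) :
    H.sup (a.map p.1) = (H.sup a).image p.2 := by
  classical
  ext n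
  rw [Finset.mem_image]
  constructor
  · intro hn
    refine ⟨p.2⁻¹ n, ?_, by simp⟩
    rw [H.eqv p hp a]
    simpa using hn
  · rintro ⟨m, hm, rfl⟩
    exact (H.eqv p hp a m).1 hm

lemma free_mono {H : HSys M N} {B X X' D : List ℕ} (h : X ⊆ X') (hD : Free H B X' D) :
    Free H B X D := fun d hd hs => hD d hd (hs.trans (H.mono _ _ h))

/-- Freeness is preserved. -/
lemma free_map {H : HSys M N} {B X D : List ℕ} {p : Equiv.Perm ℕ × Equiv.Perm ℕ} (hp : p ∈ KX H B)
    (hD : Free H B X D) : Free H B (X.map p.1) (D.map p.1) := by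
  classical
  intro d' hd' hs
  obtain ⟨d, hd, rfl⟩ := List.mem_map.1 hd'
  have h1 : B ++ [p.1 d] = (B ++ [d]).map p.1 := by
    rw [List.map_append, map_fix hp.2.1]
    rfl
  rw [h1, sup_map hp.1, sup_map hp.1, Finset.image_subset_image_iff p.2.injective] at hs
  exact hD d hd hs

/-- (F1): a pair over `X` with an involution of the places which moves the support of `W` outside
that of `X` off `Y`. -/
theorem exists_move (H : HSys M N) (X W Y : List ℕ) : ∃ p ∈ KX H X, p.2⁻¹ = p.2 ∧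
    ∀ n ∈ H.sup W, n ∉ H.sup X → p.2 n ∉ H.sup Y := by
  obtain ⟨σ, h1, h2, h3⟩ := exists_invol (H.sup X) (H.sup W) (H.sup Y)
  obtain ⟨h, h4, h5⟩ := H.surj X σ h2
  exact ⟨(h, σ), ⟨h4, h5, h2⟩, h1, h3⟩

/-- The copy of `D` is free from `Y`. -/
theorem free_move {H : HSys M N} {B X W Y D : List ℕ} (hBX : B ⊆ X) (hD : Free H B X D)
    (hDW : D ⊆ W) (hXW : X ⊆ W) {p : Equiv.Perm ℕ × Equiv.Perm ℕ} (hp : p ∈ KX H X)
    (hp2 : ∀ n ∈ H.sup W, n ∉ H.sup X → p.2 n ∉ H.sup Y) : Free H B Y (D.map p.1) := by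
  classical
  intro d' hd' hs
  obtain ⟨d, hd, rfl⟩ := List.mem_map.1 hd'
  apply hD d hd
  intro n hn
  by_contra hnX
  have hnW : n ∈ H.sup W := H.mono _ _ (by
    intro x hx
    rcases List.mem_append.1 hx with hx | hx
    · exact hXW (hBX hx)
    · rw [List.mem_singleton] at hx
      subst hx
      exact hDW hd) hn
  have h1 : B ++ [p.1 d] = (B ++ [d]).map p.1 := by
    rw [List.map_append, map_fix (fun x hx => hp.2.1 x (hBX hx))]
    rfl
  rw [h1, sup_map hp.1] at hs
  exact hp2 n hnW hnX (hs (Finset.mem_image_of_mem _ hn))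

/-- Everything which was free from `X` is free from the copy of `W`. -/
theorem free_over_move {H : HSys M N} {B X W Y D : List ℕ} (hD : Free H B X D)
    (hDY : B ⊆ Y) (hDY2 : D ⊆ Y) {p : Equiv.Perm ℕ × Equiv.Perm ℕ} (hp : p ∈ KX H X)
    (hp2 : ∀ n ∈ H.sup W, n ∉ H.sup X → p.2 n ∉ H.sup Y) : Free H B (W.map p.1) D := by
  classical
  intro d hd hs
  apply hD d hd
  intro n hn
  have hnY : n ∈ H.sup Y := H.mono _ _ (by
    intro x hx
    rcases List.mem_append.1 hx with hx | hx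
    · exact hDY hx
    · rw [List.mem_singleton] at hx
      subst hx
      exact hDY2 hd) hn
  have h1 := hs hn
  rw [sup_map hp.1, Finset.mem_image] at h1
  obtain ⟨m, hm, hmn⟩ := h1
  by_cases hmX : m ∈ H.sup X
  · rw [hp.2.2 m hmX] at hmn
    rwa [← hmn]
  · exact absurd hnY (hmn ▸ hp2 m hm hmX)

/-- A free point is not in the set. -/
lemma free_notMem {H : HSys M N} {B X D : List ℕ} (hBX : B ⊆ X) (hD : Free H B X D) :
    ∀ d ∈ D, d ∉ X := by
  intro d hd hdX
  apply hD d hd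
  refine H.mono _ _ ?_
  intro x hx
  rcases List.mem_append.1 hx with hx | hx
  · exact hBX hx
  · rw [List.mem_singleton] at hx
    rwa [hx]

/-- The labels are preserved. -/
lemma lab_map {H : HSys M N} {p : Equiv.Perm ℕ × Equiv.Perm ℕ} (hp : p ∈ H.K) (l : List ℕ) :
    M (l.map p.1) = M l := H.aut p hp l

end Pool.Agent.H76.HI
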