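import Pool.Agent.H76.HI.QB

/-!
# A visible order of cells gives perfectly many substructures
-/

set_option autoImplicit false

namespace Pool.Agent.H76.HI

open Set Pool.Agent.H75.HCI

/-- The cells `f q`, `q` in `Lam`, are the only cells in their union, and their order is visible: then
there are perfectly many substructures. -/
theorem no_lam2 {α L : Type} {t : List α → L} (hs : SmallE t (id : α → α) univ) (z : List α)
    (f : Lam → List α) (hne : ∀ q, f q ≠ []) (hdis : ∀ q q', ∀ x ∈ f q, x ∈ f q' → q = q')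
    (hfz : ∀ q, ∀ x ∈ f q, x ∉ z) (cell : List α → Prop) (lt : List α → List α → Prop)
    (h1 : ∀ q, cell (f q))
    (h2 : ∀ u, cell u → (∀ x ∈ u, ∃ q, x ∈ f q) → ∃ q, ∀ x, x ∈ u ↔ x ∈ f q)
    (h3 : ∀ q q', q < q' → lt (f q) (f q'))
    (h4 : ∀ u w q q', cell u → cell w → q < q' → (∀ x, x ∈ u ↔ x ∈ f q') →
      (∀ x, x ∈ w ↔ x ∈ f q) → ¬ lt u w)
    (h5 : ∀ (g : α → α) (u : List α), (∀ x ∈ z ++ u, ∀ y ∈ z ++ u, g x = g y → x = y) →
      (∀ l : List α, (∀ x ∈ l, x ∈ z ++ u) → t (l.map g) = t l) → (∀ x ∈ z, g x = x) →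
      cell u → cell (u.map g))
    (h6 : ∀ (g : α → α) (u w : List α),
      (∀ l : List α, (∀ x ∈ l, x ∈ z ++ (u ++ w)) → t (l.map g) = t l) → (∀ x ∈ z, g x = x) →
      lt u w → lt (u.map g) (w.map g)) : False := by
  classical
  let A : (ℕ → Bool) → Set α := fun K => {x | x ∈ z} ∪ {x | ∃ p ∈ SK K, x ∈ f p}
  have hfA : ∀ K, ∀ p ∈ SK K, ∀ x ∈ f p, x ∈ A K := fun K p hp x hx => Or.inr ⟨p, hp, hx⟩
  choose r hr using fun q => List.exists_mem_of_ne_nil _ (hne q)
  obtain ⟨K, K', hne', g, hg, himg, hgz⟩ := hs A z (by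
      intro x
      by_cases hx : x ∈ z
      · have : {K | x ∈ A K} = univ := eq_univ_of_forall fun K => Or.inl hx
        rw [this]
        exact MeasurableSet.univ
      · by_cases hx2 : ∃ p, x ∈ f p
        · obtain ⟨p, hp⟩ := hx2
          have h1 : {K : ℕ → Bool | x ∈ A K} = {K | p ∈ SK K} := by
            ext K
            constructor
            · rintro (h | ⟨q, hq, hxq⟩)
              · exact absurd h hx
              · rw [mem_ofPred_eq, hdis p q x hp hxq]
                exact hq
            · intro h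
              exact Or.inr ⟨p, h, hp⟩
          rw [h1]
          obtain ⟨n, s, rfl⟩ := mk_surj p
          rcases s with q | j
          · have : {K | mk n (Sum.inl q) ∈ SK K} = univ := eq_univ_of_forall fun K => mem_inl K n q
            rw [this]
            exact MeasurableSet.univ
          · have h2 : {K | mk n (Sum.inr j) ∈ SK K} = {K | K n = true} ∩ {K | j ≤ n + 1} := by
              ext K
              exact mem_inr K n j
            rw [h2]
            refine MeasurableSet.inter ?_ (MeasurableSet.const _)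
            have h3 : Measurable fun K : ℕ → Bool => K n := measurable_pi_apply n
            exact h3 (measurableSet_singleton true)
        · have : {K : ℕ → Bool | x ∈ A K} = ∅ := by
            ext K
            simp only [mem_ofPred_eq, mem_empty_iff_false, iff_false]
            rintro (h | ⟨q, -, hxq⟩)
            · exact hx h
            · exact hx2 ⟨q, hxq⟩
          rw [this]
          exact MeasurableSet.empty)
    (by
      intro K
      refine infinite_of_injective_forall_mem (f := fun n : ℕ => r (mk n (Sum.inl 0))) ?_ ?_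
      · intro n m hnm
        have hnm' : r (mk n (Sum.inl 0)) = r (mk m (Sum.inl 0)) := hnm
        exact (mk_inj (hdis _ _ _ (hr _) (by rw [hnm']; exact hr _))).1
      · intro n
        exact hfA K _ (mem_inl K n 0) _ (hr _)) (fun K => subset_univ _)
    (fun K x hx y _ hxy => by
      have hxy' : y = x := hxy
      rwa [hxy']) (fun K x hx => Or.inl hx)
  apply hne'
  have hgi := hg.inj
  have hgA : ∀ x ∈ A K, g x ∈ A K' := fun x hx => himg ▸ mem_image_of_mem g hx
  -- the image of a cell
  have hsub : ∀ p ∈ SK K, ∀ x ∈ z ++ f p, x ∈ A K := by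
    intro p hp x hx
    rcases List.mem_append.1 hx with hx | hx
    · exact Or.inl hx
    · exact hfA K p hp x hx
  have hcellg : ∀ p ∈ SK K, cell ((f p).map g) := by
    intro p hp
    exact h5 g (f p) (fun x hx y hy hxy => hgi (hsub p hp x hx) (hsub p hp y hy) hxy)
      (fun l hl => hg.lab l fun x hx => hsub p hp x (hl x hx)) hgz (h1 p)
  have hgz' : ∀ p ∈ SK K, ∀ x ∈ f p, g x ∉ z := by
    intro p hp x hx hz
    have h7 : g (g x) = g x := hgz _ hz
    have h8 : g x = x := hgi (Or.inl hz) (hfA K p hp x hx) h7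
    rw [h8] at hz
    exact hfz p x hx hz
  have hmap : ∀ p : Lam, ∃ q : Lam, p ∈ SK K → ∀ x, x ∈ (f p).map g ↔ x ∈ f q := by
    intro p
    by_cases hp : p ∈ SK K
    · obtain ⟨q, hq⟩ := h2 ((f p).map g) (hcellg p hp) (by
        intro y hy
        obtain ⟨x, hx, rfl⟩ := List.mem_map.1 hy
        rcases hgA x (hfA K p hp x hx) with h | ⟨q, -, hq⟩
        · exact absurd h (hgz' p hp x hx)
        · exact ⟨q, hq⟩)
      exact ⟨q, fun _ => hq⟩
    · exact ⟨p, fun h => absurd h hp⟩
  choose γ hγ using hmap
  have hγK : ∀ p ∈ SK K, γ p ∈ SK K' := by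
    intro p hp
    have h7 : g (r p) ∈ f (γ p) := (hγ p hp _).1 (List.mem_map_of_mem (hr p))
    rcases hgA (r p) (hfA K p hp _ (hr p)) with h | ⟨q, hq, h8⟩
    · exact absurd h (hgz' p hp _ (hr p))
    · rw [hdis _ _ _ h7 h8]
      exact hq
  have hlt : ∀ p ∈ SK K, ∀ q ∈ SK K, p < q → γ p < γ q := by
    intro p hp q hq hpq
    have h7 : lt ((f p).map g) ((f q).map g) := h6 g (f p) (f q) (fun l hl => hg.lab l fun x hx => by
      rcases List.mem_append.1 (hl x hx) with h | h
      · exact Or.inl h
      · rcases List.mem_append.1 h with h | h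
        · exact hfA K p hp x h
        · exact hfA K q hq x h) hgz (h3 p q hpq)
    rcases lt_trichotomy (γ p) (γ q) with h | h | h
    · exact h
    · exfalso
      have h8 : g (r p) ∈ f (γ p) := (hγ p hp _).1 (List.mem_map_of_mem (hr p))
      rw [h] at h8
      obtain ⟨x, hx, hxy⟩ := List.mem_map.1 ((hγ q hq _).2 h8)
      have h9 : x = r p := hgi (hfA K q hq x hx) (hfA K p hp _ (hr p)) hxy
      rw [h9] at hx
      have h10 := hdis _ _ _ hx (hr p)
      rw [h10] at hpq
      exact lt_irrefl _ hpq
    · exact absurd h7 (h4 _ _ _ _ (hcellg p hp) (hcellg q hq) h (hγ p hp) (hγ q hq))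
  refine sk_rigid (g := γ) ?_ ?_
  · ext q
    constructor
    · rintro ⟨p, hp, rfl⟩
      exact hγK p hp
    · intro hq
      have h7 : r q ∈ A K' := hfA K' q hq _ (hr q)
      rw [← himg] at h7
      obtain ⟨x, hx, hxq⟩ := h7
      rcases hx with hx | ⟨p, hp, hxp⟩
      · exfalso
        rw [hgz x hx] at hxq
        rw [hxq] at hx
        exact hfz q _ (hr q) hx
      · refine ⟨p, hp, ?_⟩
        have h8 : g x ∈ f (γ p) := (hγ p hp _).1 (List.mem_map_of_mem hxp)
        rw [hxq] at h8
        exact hdis _ _ _ h8 (hr q)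
  · intro p hp q hq
    refine ⟨fun h => ?_, hlt p hp q hq⟩
    rcases lt_trichotomy p q with h' | h' | h'
    · exact h'
    · rw [h'] at h
      exact absurd h (lt_irrefl _)
    · exact absurd (hlt q hq p hp h') h.not_gt

end Pool.Agent.H76.HI
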