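import Pool.Agent.H76.HI.KB
import Pool.Agent.H76.HI.QC

/-!
# The case n = 2 of the symmetry theorem: a visible order of free cells
-/

set_option autoImplicit false

namespace Pool.Agent.H76.HI

open Set Pool.Agent.H41.HI Pool.Agent.H75.HCI

variable {C : Type} {M : List ℕ → C} {N : Subgroup (Equiv.Perm ℕ)}

instance : Countable Lam := inferInstanceAs (Countable (ℕ × (ℚ ⊕ ℕ)))

/-- The members of the list are free over the older ones (the head is the newest). -/
def Ind (H : HSys M N) (B A : List ℕ) : List (List ℕ) → Prop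
  | [] => True
  | c :: cs => Free H B (A ++ cs.flatten) c ∧ Ind H B A cs

lemma ind_pair {H : HSys M N} {B A : List ℕ} : ∀ {cs : List (List ℕ)}, Ind H B A cs →
    ∀ c ∈ cs, ∀ d ∈ cs, c ≠ d → Free H B (A ++ c) d ∨ Free H B (A ++ d) c := by
  intro cs
  induction cs with
  | nil => exact fun _ c hc => absurd hc (List.not_mem_nil)
  | cons e cs ih =>
    rintro ⟨h1, h2⟩ c hc d hd hcd
    have key : ∀ c ∈ cs, Free H B (A ++ c) e := fun c hc => free_mono (by
      intro x hx
      rcases List.mem_append.1 hx with hx | hx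
      · exact List.mem_append_left _ hx
      · exact List.mem_append_right _ (List.mem_flatten.2 ⟨c, hc, hx⟩)) h1
    rcases List.mem_cons.1 hc with hce | hc'
    · rcases List.mem_cons.1 hd with hde | hd'
      · exact absurd (hce.trans hde.symm) hcd
      · rw [hce]
        exact Or.inr (key d hd')
    · rcases List.mem_cons.1 hd with hde | hd'
      · rw [hde]
        exact Or.inl (key c hc')
      · exact ih h2 c hc' d hd' hcd

lemma ind_disj {H : HSys M N} {B A : List ℕ} (hBA : B ⊆ A) {cs : List (List ℕ)}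
    (h : Ind H B A cs) {c d : List ℕ} (hc : c ∈ cs) (hd : d ∈ cs) {x : ℕ} (hxc : x ∈ c)
    (hxd : x ∈ d) : c = d := by
  by_contra hcd
  rcases ind_pair h c hc d hd hcd with h1 | h1
  · exact free_notMem (fun y hy => List.mem_append_left _ (hBA hy)) h1 x hxd
      (List.mem_append_right _ hxc)
  · exact free_notMem (fun y hy => List.mem_append_left _ (hBA hy)) h1 x hxc
      (List.mem_append_right _ hxd)

/-- A visible order on the free cells is impossible. -/
theorem chain_false (H : HSys M N) (hs : SmallE M (id : ℕ → ℕ) univ) (B A z : List ℕ)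
    (hBA : B ⊆ A) (hzA : z ⊆ A) (P : List ℕ → Prop) (lt : List ℕ → List ℕ → Prop)
    (cell : List ℕ → Prop) (hP1 : ∀ x, P x → Free H B A x) (hPne : ∀ x, P x → x ≠ [])
    (hPg : ∀ x, P x → ∀ p ∈ KX H A, P (x.map p.1)) (hPc : ∀ x, P x → cell x)
    (h5 : ∀ (g : ℕ → ℕ) (u : List ℕ), (∀ x ∈ z ++ u, ∀ y ∈ z ++ u, g x = g y → x = y) →
      (∀ l : List ℕ, (∀ x ∈ l, x ∈ z ++ u) → M (l.map g) = M l) → (∀ x ∈ z, g x = x) →
      cell u → cell (u.map g))
    (h6 : ∀ (g : ℕ → ℕ) (u w : List ℕ),
      (∀ l : List ℕ, (∀ x ∈ l, x ∈ z ++ (u ++ w)) → M (l.map g) = M l) → (∀ x ∈ z, g x = x) →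
      lt u w → lt (u.map g) (w.map g))
    (ha : ∀ x v, P x → P v → Free H B (A ++ x) v → lt x v ∨ lt v x)
    (hb : ∀ x y v, P x → P y → P v → Free H B (A ++ (x ++ y)) v →
      (Free H B (A ++ x) y ∨ Free H B (A ++ y) x) → ¬ (lt v x ∧ lt x y ∧ lt y v))
    (hasym : ∀ x y, lt x y → ¬ lt y x)
    (hMX : ∀ cs : List (List ℕ), (∀ c ∈ cs, P c) → Ind H B A cs → ∀ u, cell u →
      (∀ x ∈ u, x ∈ cs.flatten) → ∃ c ∈ cs, ∀ x, x ∈ u ↔ x ∈ c)
    (htw : ∀ u w x y, cell u → cell w → P x → P y → (∀ a, a ∈ u ↔ a ∈ x) →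
      (∀ a, a ∈ w ↔ a ∈ y) → lt u w → lt x y)
    (hex : ∃ x, P x) : False := by
  classical
  have hirr : ∀ x, ¬ lt x x := fun x hx => hasym x x hx hx
  have hltg : ∀ p ∈ KX H A, ∀ u w, lt u w → lt (u.map p.1) (w.map p.1) := fun p hp u w huw =>
    h6 p.1 u w (fun l _ => lab_map hp.1 l) (fun x hx => hp.2.1 x (hzA hx)) huw
  let I : Set (List ℕ) → Prop := fun S => ∃ cs : List (List ℕ), {c | c ∈ cs} = S ∧ Ind H B A cs
  let Adj : List ℕ → List ℕ → Prop := fun a b => Free H B (A ++ a) b
  have hins : Insert P lt Adj I := by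
    rintro F a b ⟨cs, hcs, hind⟩ hFP haF hbF hab hadj
    have hmem : ∀ c, c ∈ cs ↔ c ∈ F := fun c => by
      have := Set.ext_iff.1 hcs c
      simpa using this
    have hin : ∀ c ∈ F, ∀ x ∈ c, x ∈ A ++ cs.flatten := fun c hc x hx =>
      List.mem_append_right _ (List.mem_flatten.2 ⟨c, (hmem c).2 hc, hx⟩)
    obtain ⟨p, hp, hp2, hp3⟩ := exists_move H (A ++ a) (A ++ a ++ b) (A ++ cs.flatten)
    have hpi : p⁻¹ ∈ KX H (A ++ a) := KX_inv hp
    have hpA : KX H (A ++ a) ⊆ KX H A := KX_mono (List.subset_append_left _ _)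
    have hBAa : B ⊆ A ++ a := fun y hy => List.mem_append_left _ (hBA hy)
    -- both copies
    have key : ∀ q : Equiv.Perm ℕ × Equiv.Perm ℕ, q ∈ KX H (A ++ a) → q.2 = p.2 →
        lt (b.map q.1) b → ∃ a', I {c | c ∈ a' :: F} ∧ P a' ∧ lt a a' ∧ lt a' b ∧ Adj a a' ∧
          Adj a' b ∧ (∀ c ∈ F, lt c a' ∨ lt a' c) ∧
          (∀ c ∈ F, ∀ d ∈ F, lt c d → lt d a' → lt c a') ∧
          (∀ c ∈ F, ∀ d ∈ F, lt a' c → lt c d → lt a' d) := by
      intro q hq hq2 hqb
      have hq3 : ∀ n ∈ H.sup (A ++ a ++ b), n ∉ H.sup (A ++ a) → q.2 n ∉ H.sup (A ++ cs.flatten) :=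
        by rw [hq2]; exact hp3
      have hfr : Free H B (A ++ cs.flatten) (b.map q.1) :=
        free_move hBAa hadj (List.subset_append_right _ _) (List.subset_append_left _ _) hq hq3
      have hPb : P (b.map q.1) := hPg b (hFP b hbF) q (hpA hq)
      have hamap : a.map q.1 = a := map_fix fun x hx => hq.2.1 x (List.mem_append_right _ hx)
      have hfrc : ∀ c ∈ F, Free H B (A ++ c) (b.map q.1) := fun c hc => free_mono (by
        intro x hx
        rcases List.mem_append.1 hx with hx | hx
        · exact List.mem_append_left _ hx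
        · exact hin c hc x hx) hfr
      have hcomp : ∀ c ∈ F, lt c (b.map q.1) ∨ lt (b.map q.1) c := fun c hc =>
        ha c _ (hFP c hc) hPb (hfrc c hc)
      have hcyc : ∀ c ∈ F, ∀ d ∈ F, lt c d →
          ¬ (lt (b.map q.1) c ∧ lt c d ∧ lt d (b.map q.1)) := by
        intro c hc d hd hcd
        refine hb c d _ (hFP c hc) (hFP d hd) hPb (free_mono ?_ hfr)
          (ind_pair hind c ((hmem c).2 hc) d ((hmem d).2 hd) fun h => ?_)
        · intro x hx
          rcases List.mem_append.1 hx with hx | hx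
          · exact List.mem_append_left _ hx
          · rcases List.mem_append.1 hx with hx | hx
            · exact hin c hc x hx
            · exact hin d hd x hx
        · rw [h] at hcd
          exact hirr d hcd
      refine ⟨b.map q.1, ⟨b.map q.1 :: cs, ?_, hfr, hind⟩, hPb, ?_, hqb, ?_, ?_, hcomp, ?_, ?_⟩
      · ext c
        simp only [mem_ofPred_eq, List.mem_cons, hmem]
      · have := hltg q (hpA hq) a b hab
        rwa [hamap] at this
      · exact hfrc a haF
      · have h7 : Free H B ((A ++ a ++ b).map q.1) b := free_over_move hadj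
          (fun y hy => List.mem_append_left _ (hBA hy)) (fun x hx => hin b hbF x hx) hq hq3
        refine free_mono ?_ h7
        rw [List.map_append, map_fix hq.2.1]
        intro x hx
        rcases List.mem_append.1 hx with hx | hx
        · exact List.mem_append_left _ (List.mem_append_left _ hx)
        · exact List.mem_append_right _ hx
      · intro c hc d hd hcd hdb
        rcases hcomp c hc with h | h
        · exact h
        · exact absurd ⟨h, hcd, hdb⟩ (hcyc c hc d hd hcd)
      · intro c hc d hd hbc hcd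
        rcases hcomp d hd with h | h
        · exact absurd ⟨hbc, hcd, h⟩ (hcyc c hc d hd hcd)
        · exact h
    have hfr : Free H B (A ++ cs.flatten) (b.map p.1) :=
      free_move hBAa hadj (List.subset_append_right _ _) (List.subset_append_left _ _) hp hp3
    have hPb : P (b.map p.1) := hPg b (hFP b hbF) p (hpA hp)
    have hfrb : Free H B (A ++ b) (b.map p.1) := free_mono (by
      intro x hx
      rcases List.mem_append.1 hx with hx | hx
      · exact List.mem_append_left _ hx
      · exact hin b hbF x hx) hfr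
    rcases ha b _ (hFP b hbF) hPb hfrb with h | h
    · refine key p⁻¹ hpi hp2 ?_
      have h7 := hltg p⁻¹ (hpA hpi) _ _ h
      have h8 : (b.map p.1).map (p⁻¹).1 = b := by
        rw [List.map_map]
        conv_rhs => rw [← List.map_id b]
        refine List.map_congr_left fun x _ => ?_
        change p.1⁻¹ (p.1 x) = x
        simp
      rwa [h8] at h7
    · exact key p hp rfl h
  -- the first pair
  obtain ⟨x, hx⟩ := hex
  obtain ⟨p, hp, -, hp3⟩ := exists_move H A (A ++ x) (A ++ x)
  have hv : P (x.map p.1) := hPg x hx p hp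
  have hf1 : Free H B (A ++ x) (x.map p.1) :=
    free_move hBA (hP1 x hx) (List.subset_append_right _ _) (List.subset_append_left _ _) hp hp3
  have hf2 : Free H B (A ++ x.map p.1) x := by
    have h7 : Free H B ((A ++ x).map p.1) x := free_over_move (hP1 x hx)
      (fun y hy => List.mem_append_left _ (hBA hy)) (List.subset_append_right _ _) hp hp3
    rwa [List.map_append, map_fix hp.2.1] at h7
  have hI : I {x, x.map p.1} := by
    refine ⟨[x.map p.1, x], ?_, ?_, ?_, trivial⟩
    · ext c
      simp only [mem_ofPred_eq, List.mem_cons, List.not_mem_nil, or_false, mem_insert_iff,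
        mem_singleton_iff]
      tauto
    · simpa using hf1
    · simpa using hP1 x hx
  have hI' : I {x.map p.1, x} := by rwa [Set.pair_comm]
  have hemb : ∃ f : Lam → List ℕ, (∀ q, P (f q)) ∧ (∀ q q', q < q' → lt (f q) (f q')) ∧
      ∀ s : Finset Lam, ∃ S : Set (List ℕ), I S ∧ ∀ q ∈ s, f q ∈ S := by
    rcases ha x _ hx hv hf1 with h | h
    · exact dense_of_insert hasym hins hx hv h hf1 hI Lam
    · exact dense_of_insert hasym hins hv hx h hf2 hI' Lam
  obtain ⟨f, hfP, hflt, hfI⟩ := hemb
  have hinj : ∀ q q', f q = f q' → q = q' := by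
    intro q q' hqq
    rcases lt_trichotomy q q' with h | h | h
    · exact absurd (hflt q q' h) (by rw [hqq]; exact hirr _)
    · exact h
    · exact absurd (hflt q' q h) (by rw [hqq]; exact hirr _)
  have hdis : ∀ q q', ∀ x ∈ f q, x ∈ f q' → q = q' := by
    intro q q' y hy hy'
    obtain ⟨S, ⟨cs, hcs, hind⟩, hS⟩ := hfI {q, q'}
    have h7 : f q ∈ cs := by
      have := hS q (by simp)
      rw [← hcs] at this
      exact this
    have h8 : f q' ∈ cs := by
      have := hS q' (by simp)
      rw [← hcs] at this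
      exact this
    exact hinj _ _ (ind_disj hBA hind h7 h8 hy hy')
  refine no_lam2 hs z f (fun q => hPne _ (hfP q)) hdis
    (fun q y hy hyz => free_notMem hBA (hP1 _ (hfP q)) y hy (hzA hyz)) cell lt
    (fun q => hPc _ (hfP q)) ?_ hflt ?_ h5 h6
  · intro u hu hux
    -- finitely many cells
    have hs' : ∃ s : Finset Lam, ∀ y ∈ u, ∃ q ∈ s, y ∈ f q := by
      clear hu
      induction u with
      | nil => exact ⟨∅, fun y hy => absurd hy (List.not_mem_nil)⟩
      | cons a u ih =>
        obtain ⟨s, hs'⟩ := ih fun y hy => hux y (List.mem_cons_of_mem _ hy)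
        obtain ⟨q, hq⟩ := hux a (List.mem_cons_self ..)
        refine ⟨insert q s, fun y hy => ?_⟩
        rcases List.mem_cons.1 hy with rfl | hy
        · exact ⟨q, Finset.mem_insert_self _ _, hq⟩
        · obtain ⟨q', h7, h8⟩ := hs' y hy
          exact ⟨q', Finset.mem_insert_of_mem h7, h8⟩
    obtain ⟨s, hs'⟩ := hs'
    obtain ⟨S, ⟨cs, hcs, hind⟩, hS⟩ := hfI s
    -- restrict the list to the cells of f
    have hsub : ∀ q ∈ s, f q ∈ cs := fun q hq => by
      have := hS q hq
      rw [← hcs] at this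
      exact this
    have hind2 : ∀ (cs : List (List ℕ)), Ind H B A cs → Ind H B A (cs.filter fun c => ∃ q, f q = c)
        := by
      intro cs
      induction cs with
      | nil => exact fun _ => trivial
      | cons c cs ih =>
        rintro ⟨h7, h8⟩
        by_cases hc : ∃ q, f q = c
        · rw [List.filter_cons_of_pos (by simpa using hc)]
          refine ⟨free_mono ?_ h7, ih h8⟩
          intro y hy
          rcases List.mem_append.1 hy with hy | hy
          · exact List.mem_append_left _ hy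
          · obtain ⟨d, hd, hyd⟩ := List.mem_flatten.1 hy
            exact List.mem_append_right _ (List.mem_flatten.2 ⟨d, (List.mem_filter.1 hd).1, hyd⟩)
        · rw [List.filter_cons_of_neg (by simpa using hc)]
          exact ih h8
    obtain ⟨c, hc, hcu⟩ := hMX (cs.filter fun c => ∃ q, f q = c) (by
      intro c hc
      obtain ⟨q, rfl⟩ : ∃ q, f q = c := by simpa using (List.mem_filter.1 hc).2
      exact hfP q) (hind2 cs hind) u hu (by
      intro y hy
      obtain ⟨q, hq, hyq⟩ := hs' y hy
      exact List.mem_flatten.2 ⟨f q, List.mem_filter.2 ⟨hsub q hq, by simp⟩, hyq⟩)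
    obtain ⟨q, rfl⟩ : ∃ q, f q = c := by simpa using (List.mem_filter.1 hc).2
    exact ⟨q, hcu⟩
  · intro u w q q' hu hw hqq hu' hw' huw
    exact hasym _ _ (hflt q q' hqq) (htw u w _ _ hu hw (hfP q') (hfP q) hu' hw' huw)

end Pool.Agent.H76.HI
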