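import Pool.Agent.H76.HI.SV

/-!
# Cells in generic sequences
-/

set_option autoImplicit false

namespace Pool.Agent.H76.HI

open Set Pool.Agent.H41.HI Pool.Agent.H75.HCI Pool.Agent.H16.FK Pool.Agent.H71.HCI Filter

variable {C : Type} {M : List ℕ → C} {N : Subgroup (Equiv.Perm ℕ)}

/-- Splitting of the indices. -/
lemma exists_split {k : ℕ} (p : Fin k → Prop) : ∃ (b a : ℕ) (e : Fin b ⊕ Fin a ≃ Fin k),
    (∀ i, ¬ p (e (Sum.inl i))) ∧ (∀ i, p (e (Sum.inr i))) ∧ ((∃ i, p i) → 0 < a) ∧
      ((∃ i, ¬ p i) → 0 < b) := by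
  classical
  let e1 := Fintype.equivFin {i // p i}
  let e2 := Fintype.equivFin {i // ¬ p i}
  let e := ((Equiv.sumComm _ _).trans (Equiv.sumCongr e1.symm e2.symm)).trans (Equiv.sumCompl p)
  refine ⟨Fintype.card {i // ¬ p i}, Fintype.card {i // p i}, e, fun i => ?_, fun i => ?_, ?_, ?_⟩
  · change ¬ p ((e2.symm i : {i // ¬ p i}) : Fin k)
    exact (e2.symm i).2
  · change p ((e1.symm i : {i // p i}) : Fin k)
    exact (e1.symm i).2
  · rintro ⟨i, hi⟩
    exact Fintype.card_pos_iff.2 ⟨⟨i, hi⟩⟩
  · rintro ⟨i, hi⟩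
    exact Fintype.card_pos_iff.2 ⟨⟨i, hi⟩⟩

/-- (MX) -/
theorem mx_list (hF : FinL M) {H : HSys M N} {k : ℕ} (hk : 0 < k) (hQ : ∀ k' < k, QQ H k')
    {B z A : List ℕ} (hz : SepK H k z) (hBz : B ⊆ z) (hzA : z ⊆ A) {V : Ultrafilter (Fin k → ℕ)}
    (hV : V ∈ FKB H B (Fin k)) (hns : SepV M V z) : ∀ cs : List (List ℕ),
    (∀ c ∈ cs, ∃ D, PA H B V A D ∧ List.ofFn D = c) → Ind H B A cs → ∀ u : Fin k → ℕ,
      Function.Injective u → Rz M V z u → (∀ i, u i ∈ cs.flatten) →
      ∃ c ∈ cs, ∀ x, x ∈ List.ofFn u ↔ x ∈ c := by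
  classical
  intro cs
  induction cs with
  | nil =>
    intro _ _ u _ _ h
    exact absurd (h ⟨0, hk⟩) (by simp)
  | cons c cs ih =>
    rintro hcs ⟨hfr, hind⟩ u hinj hR hu
    by_cases h1 : ∀ i, u i ∈ cs.flatten
    · obtain ⟨d, hd, hdu⟩ := ih (fun d hd => hcs d (List.mem_cons_of_mem _ hd)) hind u hinj hR h1
      exact ⟨d, List.mem_cons_of_mem _ hd, hdu⟩
    · have hmem : ∀ i, u i ∉ cs.flatten → u i ∈ c := by
        intro i hi
        have h2 := hu i
        rw [List.flatten_cons, List.mem_append] at h2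
        exact h2.resolve_right hi
      by_cases h2 : ∀ i, u i ∈ c
      · obtain ⟨D, ⟨hDi, -, -⟩, rfl⟩ := hcs c (List.mem_cons_self ..)
        refine ⟨_, List.mem_cons_self .., fun x => ?_⟩
        have h3 : Finset.univ.image u ⊆ Finset.univ.image D := by
          intro y hy
          obtain ⟨i, -, rfl⟩ := Finset.mem_image.1 hy
          obtain ⟨j, hj⟩ := List.mem_ofFn.1 (h2 i)
          exact Finset.mem_image.2 ⟨j, Finset.mem_univ _, hj⟩
        have h4 : Finset.univ.image u = Finset.univ.image D := by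
          refine Finset.eq_of_subset_of_card_le h3 ?_
          rw [Finset.card_image_of_injective _ hinj, Finset.card_image_of_injective _ hDi]
        have h5 := Finset.ext_iff.1 h4 x
        simp only [Finset.mem_image, Finset.mem_univ, true_and] at h5
        rw [List.mem_ofFn, List.mem_ofFn]
        exact h5
      · exfalso
        obtain ⟨b, a, e, he1, he2, ha, hb⟩ := exists_split fun i => u i ∈ c
        have ha' : 0 < a := ha (by
          by_contra h
          exact h1 fun i => by
            by_contra hi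
            exact h ⟨i, hmem i hi⟩)
        have hb' : 0 < b := hb (by
          by_contra h
          exact h2 fun i => by
            by_contra hi
            exact h ⟨i, hi⟩)
        have he3 : ∀ i, u (e (Sum.inl i)) ∈ cs.flatten := by
          intro i
          by_contra hi
          exact he1 i (hmem _ hi)
        refine mx_core hF hQ hz hBz hV hns hinj hR e ha' hb' ?_ (X := A ++ cs.flatten) ?_ ?_
        · intro i hs
          obtain ⟨d, hd, hid⟩ := List.mem_flatten.1 (he3 i)
          obtain ⟨D, ⟨-, -, hD⟩, rfl⟩ := hcs d (List.mem_cons_of_mem _ hd)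
          obtain ⟨y, hy⟩ := List.mem_ofFn.1 hid
          refine hD y ?_
          rw [hy]
          refine Finset.Subset.trans (H.mono _ _ ?_) (Finset.Subset.trans hs (H.mono _ _ hzA))
          intro x hx
          rcases List.mem_append.1 hx with hx | hx
          · exact List.mem_append_left _ (hBz hx)
          · exact List.mem_append_right _ hx
        · intro x hx
          rcases List.mem_append.1 hx with hx | hx
          · exact List.mem_append_left _ (hzA hx)
          · obtain ⟨i, rfl⟩ := List.mem_ofFn.1 hx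
            exact List.mem_append_right _ (he3 i)
        · intro i
          exact hfr _ (he2 i)

end Pool.Agent.H76.HI
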