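import Mathlib

/-!
# Chains with insertion are dense, and a perfect family of countable orders
-/

set_option autoImplicit false

namespace Pool.Agent.H76.HI

open Set

/-- A finite chain for `lt` in `P` whose neighbours satisfy `Adj`; `I` is a property of the list
which is independent of its order. -/
def GoodL {α : Type} (P : α → Prop) (lt Adj : α → α → Prop) (I : Set α → Prop) (l : List α) :
    Prop :=
  (∀ c ∈ l, P c) ∧ l.Pairwise lt ∧ l.IsChain Adj ∧ I {c | c ∈ l}

/-- The insertion property. -/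
def Insert {α : Type} (P : α → Prop) (lt Adj : α → α → Prop) (I : Set α → Prop) : Prop :=
  ∀ (F : List α) (a b : α), I {c | c ∈ F} → (∀ c ∈ F, P c) → a ∈ F → b ∈ F → lt a b → Adj a b →
    ∃ a', I {c | c ∈ a' :: F} ∧ P a' ∧ lt a a' ∧ lt a' b ∧ Adj a a' ∧ Adj a' b ∧
      (∀ c ∈ F, lt c a' ∨ lt a' c) ∧
      (∀ c ∈ F, ∀ d ∈ F, lt c d → lt d a' → lt c a') ∧
      (∀ c ∈ F, ∀ d ∈ F, lt a' c → lt c d → lt a' d)

variable {α : Type} {P : α → Prop} {lt Adj : α → α → Prop} {I : Set α → Prop}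

lemma good_insert (hins : Insert P lt Adj I) {l1 l2 : List α} {a b : α}
    (h : GoodL P lt Adj I (l1 ++ a :: b :: l2)) :
    ∃ a', lt a a' ∧ lt a' b ∧ GoodL P lt Adj I (l1 ++ a :: a' :: b :: l2) := by
  obtain ⟨h1, h2, h3, hI⟩ := h
  have h2' := List.pairwise_append.1 h2
  obtain ⟨h4, h5, h6⟩ := h2'
  rw [List.pairwise_cons] at h5
  obtain ⟨h5a, h5b⟩ := h5
  rw [List.pairwise_cons] at h5b
  have hab : lt a b := h5a b (by simp)
  have h3' := List.isChain_append.1 h3
  obtain ⟨h7, h8, h9⟩ := h3'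
  rw [List.isChain_cons_cons] at h8
  obtain ⟨a', kI, k0, k1, k2, k3, k4, -, k6, k7⟩ := hins (l1 ++ a :: b :: l2) a b hI h1 (by simp)
    (by simp) hab h8.1
  refine ⟨a', k1, k2, ?_, ?_, ?_, ?_⟩
  · intro c hc
    simp only [List.mem_append, List.mem_cons] at hc h1
    rcases hc with hc | rfl | rfl | rfl | hc
    · exact h1 c (Or.inl hc)
    · exact h1 c (Or.inr (Or.inl rfl))
    · exact k0
    · exact h1 c (Or.inr (Or.inr (Or.inl rfl)))
    · exact h1 c (Or.inr (Or.inr (Or.inr hc)))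
  · rw [List.pairwise_append]
    refine ⟨h4, ?_, ?_⟩
    · rw [List.pairwise_cons, List.pairwise_cons, List.pairwise_cons]
      refine ⟨?_, ?_, h5b.1, h5b.2⟩
      · intro c hc
        rcases List.mem_cons.1 hc with rfl | hc
        · exact k1
        · exact h5a c hc
      · intro c hc
        rcases List.mem_cons.1 hc with rfl | hc
        · exact k2
        · exact k7 b (by simp) c (by simp [hc]) k2 (h5b.1 c hc)
    · intro c hc d hd
      rcases List.mem_cons.1 hd with rfl | hd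
      · exact h6 c hc d (by simp)
      · rcases List.mem_cons.1 hd with rfl | hd
        · exact k6 c (by simp [hc]) a (by simp) (h6 c hc a (by simp)) k1
        · exact h6 c hc d (by simp [List.mem_cons.1 hd])
  · rw [List.isChain_append]
    refine ⟨h7, ?_, ?_⟩
    · rw [List.isChain_cons_cons, List.isChain_cons_cons]
      exact ⟨k3, k4, h8.2⟩
    · intro x hx y hy
      exact h9 x hx y (by simpa using hy)
  · have : {c | c ∈ l1 ++ a :: a' :: b :: l2} = {c | c ∈ a' :: (l1 ++ a :: b :: l2)} := by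
      ext c
      simp only [List.mem_append, List.mem_cons, mem_ofPred_eq]
      tauto
    rw [this]
    exact kI

/-- All gaps of a part of the chain can be filled. -/
lemma good_fill (hins : Insert P lt Adj I) : ∀ (l2 l1 : List α) (a : α),
    GoodL P lt Adj I (l1 ++ a :: l2) → ∃ l', GoodL P lt Adj I l' ∧ (∀ c ∈ l1 ++ a :: l2, c ∈ l') ∧
      ∀ (u v : List α) (x y : α), a :: l2 = u ++ x :: y :: v → ∃ c ∈ l', lt x c ∧ lt c y := by
  intro l2
  induction l2 with
  | nil =>
    intro l1 a h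
    refine ⟨_, h, fun c hc => hc, ?_⟩
    intro u v x y huv
    have := congrArg List.length huv
    simp at this
    omega
  | cons b l2 ih =>
    intro l1 a h
    obtain ⟨a', h1, h2, h3⟩ := good_insert hins h
    have h3' : GoodL P lt Adj I ((l1 ++ [a, a']) ++ b :: l2) := by simpa using h3
    obtain ⟨l', h4, h5, h6⟩ := ih (l1 ++ [a, a']) b h3'
    refine ⟨l', h4, ?_, ?_⟩
    · intro c hc
      apply h5
      simp only [List.mem_append, List.mem_cons, List.not_mem_nil, or_false] at hc ⊢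
      tauto
    · intro u v x y huv
      rcases u with _ | ⟨u0, u⟩
      · simp only [List.nil_append, List.cons.injEq] at huv
        obtain ⟨rfl, rfl, rfl⟩ := huv
        exact ⟨a', h5 a' (by simp), h1, h2⟩
      · simp only [List.cons_append, List.cons.injEq] at huv
        exact h6 u v x y huv.2

lemma good_step (hins : Insert P lt Adj I) (l : List α) (h : GoodL P lt Adj I l) :
    ∃ l', GoodL P lt Adj I l' ∧ (∀ c ∈ l, c ∈ l') ∧
      ∀ (u v : List α) (x y : α), l = u ++ x :: y :: v → ∃ c ∈ l', lt x c ∧ lt c y := by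
  rcases l with _ | ⟨a, l2⟩
  · exact ⟨[], h, fun c hc => hc, fun u v x y huv => by simp at huv⟩
  · obtain ⟨l', h1, h2, h3⟩ := good_fill hins l2 [] a h
    exact ⟨l', h1, h2, h3⟩

lemma pw_lt (hasym : ∀ a b, lt a b → ¬ lt b a) {l : List α} (h : l.Pairwise lt) {i j : ℕ}
    (hi : i < l.length) (hj : j < l.length) : lt l[i] l[j] ↔ i < j := by
  constructor
  · intro h1
    by_contra h2
    rcases Nat.lt_or_ge j i with h3 | h3
    · exact hasym _ _ h1 (List.pairwise_iff_getElem.1 h j i hj hi h3)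
    · have h4 : i = j := by omega
      subst h4
      exact hasym _ _ h1 h1
  · intro h1
    exact List.pairwise_iff_getElem.1 h i j hi hj h1

/-- Two members of a chain with a member between them or neighbours. -/
lemma pw_between (hasym : ∀ a b, lt a b → ¬ lt b a) {l : List α} (h : l.Pairwise lt) {x y : α}
    (hx : x ∈ l) (hy : y ∈ l) (hxy : lt x y) :
    (∃ c ∈ l, lt x c ∧ lt c y) ∨ ∃ u v, l = u ++ x :: y :: v := by
  obtain ⟨i, hi, rfl⟩ := List.getElem_of_mem hx
  obtain ⟨j, hj, rfl⟩ := List.getElem_of_mem hy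
  have hij : i < j := (pw_lt hasym h hi hj).1 hxy
  by_cases h1 : i + 1 = j
  · subst h1
    right
    refine ⟨l.take i, l.drop (i + 2), ?_⟩
    rw [← List.drop_eq_getElem_cons hj, ← List.drop_eq_getElem_cons hi, List.take_append_drop]
  · left
    have h2 : i + 1 < l.length := by omega
    exact ⟨l[i + 1], List.getElem_mem h2, (pw_lt hasym h hi h2).2 (by omega),
      (pw_lt hasym h h2 hj).2 (by omega)⟩

/-- Insertion gives a copy of every countable linear order. -/
theorem dense_of_insert (hasym : ∀ a b, lt a b → ¬ lt b a) (hins : Insert P lt Adj I) {a b : α}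
    (ha : P a) (hb : P b) (hab : lt a b) (hadj : Adj a b) (hI : I {a, b}) (Λ : Type)
    [LinearOrder Λ] [Countable Λ] : ∃ f : Λ → α, (∀ x, P (f x)) ∧ (∀ x y, x < y → lt (f x) (f y)) ∧
      ∀ s : Finset Λ, ∃ S : Set α, I S ∧ ∀ x ∈ s, f x ∈ S := by
  classical
  have hG0 : GoodL P lt Adj I [a, b] := by
    refine ⟨?_, ?_, ?_, ?_⟩
    · intro c hc
      simp only [List.mem_cons, List.not_mem_nil, or_false] at hc
      rcases hc with rfl | rfl
      · exact ha
      · exact hb
    · simp [hab]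
    · simp [hadj]
    · have : {c | c ∈ [a, b]} = ({a, b} : Set α) := by
        ext c
        simp
      rw [this]
      exact hI
  choose st h1 h2 h3 using good_step hins
  let G : ℕ → {l : List α // GoodL P lt Adj I l} := fun n =>
    Nat.rec ⟨[a, b], hG0⟩ (fun _ p => ⟨st p.1 p.2, h1 p.1 p.2⟩) n
  have hGs : ∀ n, (G (n + 1)).1 = st (G n).1 (G n).2 := fun n => rfl
  have hmono : ∀ n m, n ≤ m → ∀ c ∈ (G n).1, c ∈ (G m).1 := by
    intro n m hnm
    induction m, hnm using Nat.le_induction with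
    | base => exact fun c hc => hc
    | succ m _ ih =>
      intro c hc
      rw [hGs]
      exact h2 _ _ c (ih c hc)
  let S : Set α := {c | ∃ n, c ∈ (G n).1}
  have hpair : ∀ x ∈ S, ∀ y ∈ S, ∃ n, x ∈ (G n).1 ∧ y ∈ (G n).1 := by
    rintro x ⟨n, hn⟩ y ⟨m, hm⟩
    exact ⟨max n m, hmono _ _ (le_max_left _ _) _ hn, hmono _ _ (le_max_right _ _) _ hm⟩
  have hirr : ∀ x, ¬ lt x x := fun x hx => hasym x x hx hx
  have htri : ∀ x ∈ S, ∀ y ∈ S, lt x y ∨ x = y ∨ lt y x := by
    intro x hx y hy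
    obtain ⟨n, h4, h5⟩ := hpair x hx y hy
    obtain ⟨i, hi, rfl⟩ := List.getElem_of_mem h4
    obtain ⟨j, hj, rfl⟩ := List.getElem_of_mem h5
    have hp := (G n).2.2.1
    rcases lt_trichotomy i j with h6 | h6 | h6
    · exact Or.inl ((pw_lt hasym hp hi hj).2 h6)
    · subst h6
      exact Or.inr (Or.inl rfl)
    · exact Or.inr (Or.inr ((pw_lt hasym hp hj hi).2 h6))
  have htrans : ∀ x ∈ S, ∀ y ∈ S, ∀ w ∈ S, lt x y → lt y w → lt x w := by
    rintro x ⟨n1, hx⟩ y ⟨n2, hy⟩ w ⟨n3, hw⟩ hxy hyw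
    let n := max n1 (max n2 n3)
    have hx' := hmono n1 n (le_max_left _ _) _ hx
    have hy' := hmono n2 n ((le_max_left _ _).trans (le_max_right _ _)) _ hy
    have hw' := hmono n3 n ((le_max_right _ _).trans (le_max_right _ _)) _ hw
    obtain ⟨i, hi, rfl⟩ := List.getElem_of_mem hx'
    obtain ⟨j, hj, rfl⟩ := List.getElem_of_mem hy'
    obtain ⟨k, hk, rfl⟩ := List.getElem_of_mem hw'
    have hp := (G n).2.2.1
    have e1 := (pw_lt hasym hp hi hj).1 hxy
    have e2 := (pw_lt hasym hp hj hk).1 hyw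
    exact (pw_lt hasym hp hi hk).2 (e1.trans e2)
  have hbet : ∀ x ∈ S, ∀ y ∈ S, lt x y → ∃ c ∈ S, lt x c ∧ lt c y := by
    intro x hx y hy hxy
    obtain ⟨n, h4, h5⟩ := hpair x hx y hy
    rcases pw_between hasym (G n).2.2.1 h4 h5 hxy with ⟨c, hc, h6⟩ | ⟨u, v, huv⟩
    · exact ⟨c, ⟨n, hc⟩, h6⟩
    · obtain ⟨c, hc, h6⟩ := h3 (G n).1 (G n).2 u v x y huv
      exact ⟨c, ⟨n + 1, by rw [hGs]; exact hc⟩, h6⟩
  let r : S → S → Prop := fun x y => lt x.1 y.1
  have hst : IsStrictTotalOrder S r :=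
    { trichotomous := fun x y h4 h5 => by
        rcases htri x.1 x.2 y.1 y.2 with h | h | h
        · exact absurd h h4
        · exact Subtype.ext h
        · exact absurd h h5
      irrefl := fun x => hirr x.1
      trans := fun x y w => htrans x.1 x.2 y.1 y.2 w.1 w.2 }
  let lo : LinearOrder S := linearOrderOfSTO r
  have hlt : ∀ x y : S, x < y ↔ lt x.1 y.1 := fun x y => Iff.rfl
  have : DenselyOrdered S := ⟨fun x y hxy => by
    obtain ⟨c, hc, h4, h5⟩ := hbet x.1 x.2 y.1 y.2 hxy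
    exact ⟨⟨c, hc⟩, h4, h5⟩⟩
  have : Nontrivial S := ⟨⟨⟨a, 0, by change a ∈ [a, b]; simp⟩, ⟨b, 0, by change b ∈ [a, b]; simp⟩,
    fun h => hirr a (by
      have h4 : a = b := congrArg Subtype.val h
      rw [← h4] at hab
      exact hab)⟩⟩
  obtain ⟨f⟩ := Order.embedding_from_countable_to_dense Λ S
  refine ⟨fun x => (f x).1, fun x => ?_, fun x y hxy => (hlt _ _).1 (f.lt_iff_lt.2 hxy), ?_⟩
  · obtain ⟨n, hn⟩ := (f x).2
    exact (G n).2.1 _ hn
  · intro s
    have hN : ∃ n, ∀ x ∈ s, (f x).1 ∈ (G n).1 := by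
      induction s using Finset.induction_on with
      | empty => exact ⟨0, fun x hx => absurd hx (Finset.notMem_empty x)⟩
      | insert a s _ ih =>
        obtain ⟨n, hn⟩ := ih
        obtain ⟨m, hm⟩ := (f a).2
        refine ⟨max n m, fun x hx => ?_⟩
        rcases Finset.mem_insert.1 hx with rfl | hx
        · exact hmono _ _ (le_max_right _ _) _ hm
        · exact hmono _ _ (le_max_left _ _) _ (hn x hx)
    obtain ⟨n, hn⟩ := hN
    exact ⟨{c | c ∈ (G n).1}, (G n).2.2.2.2, hn⟩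

/-! ## A perfect family of orders -/

/-- The countable order with the suborders. -/
abbrev Lam : Type := ℕ ×ₗ (ℚ ⊕ₗ ℕ)

/-- The suborder with the finite intervals of the sizes `n + 2`, where `K n` is true. -/
def SK (K : ℕ → Bool) : Set Lam :=
  {p | ∀ j : ℕ, ofLex (ofLex p).2 = Sum.inr j → K (ofLex p).1 = true ∧ j ≤ (ofLex p).1 + 1}

/-- `y` is the successor of `x` in `A`. -/
def Cov {Λ : Type} [LinearOrder Λ] (A : Set Λ) (x y : Λ) : Prop :=
  x ∈ A ∧ y ∈ A ∧ x < y ∧ ∀ w ∈ A, ¬ (x < w ∧ w < y)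

/-- There is a maximal finite interval with `c + 1` points. -/
def Bl {Λ : Type} [LinearOrder Λ] (A : Set Λ) (c : ℕ) : Prop :=
  ∃ x : ℕ → Λ, (∀ i < c, Cov A (x i) (x (i + 1))) ∧ (∀ y, ¬ Cov A y (x 0)) ∧
    ∀ y, ¬ Cov A (x c) y

end Pool.Agent.H76.HI
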