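import Pool.Agent.H76.HI.QA
import Pool.Agent.H75.HCI.Small

/-!
# A perfect family of orders, and structures with few substructures
-/

set_option autoImplicit false

namespace Pool.Agent.H76.HI

open Set

/-- A point of `Lam`. -/
def mk (n : ℕ) (s : ℚ ⊕ ℕ) : Lam := toLex (n, toLex s)

lemma mk_surj (x : Lam) : ∃ n s, x = mk n s := ⟨(ofLex x).1, ofLex (ofLex x).2, rfl⟩

lemma mk_lt (n m : ℕ) (s s' : ℚ ⊕ ℕ) :
    mk n s < mk m s' ↔ n < m ∨ n = m ∧ toLex s < toLex s' := by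
  unfold mk
  exact Prod.Lex.toLex_lt_toLex

lemma mk_inj {n m : ℕ} {s s' : ℚ ⊕ ℕ} (h : mk n s = mk m s') : n = m ∧ s = s' := by
  unfold mk at h
  have h1 := toLex.injective h
  simp only [Prod.mk.injEq] at h1
  exact ⟨h1.1, toLex.injective h1.2⟩

lemma mem_sk (K : ℕ → Bool) (n : ℕ) (s : ℚ ⊕ ℕ) :
    mk n s ∈ SK K ↔ ∀ j, s = Sum.inr j → K n = true ∧ j ≤ n + 1 := Iff.rfl

lemma mem_inl (K : ℕ → Bool) (n : ℕ) (q : ℚ) : mk n (Sum.inl q) ∈ SK K := by
  rw [mem_sk]
  intro j hj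
  exact absurd hj (by simp)

lemma mem_inr (K : ℕ → Bool) (n j : ℕ) :
    mk n (Sum.inr j) ∈ SK K ↔ K n = true ∧ j ≤ n + 1 := by
  rw [mem_sk]
  exact ⟨fun h => h j rfl, fun h i hi => by
    rw [← Sum.inr.inj hi]
    exact h⟩

lemma cov_sk {K : ℕ → Bool} {x y : Lam} (h : Cov (SK K) x y) :
    ∃ n j, x = mk n (Sum.inr j) ∧ y = mk n (Sum.inr (j + 1)) ∧ K n = true ∧ j + 1 ≤ n + 1 := by
  obtain ⟨hx, hy, hxy, hno⟩ := h
  obtain ⟨n, s, rfl⟩ := mk_surj x
  obtain ⟨m, s', rfl⟩ := mk_surj y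
  rw [mk_lt] at hxy
  rcases s with q | j
  · exfalso
    by_cases hs : n < m
    · refine hno _ (mem_inl K n (q + 1)) ⟨?_, ?_⟩
      · rw [mk_lt]
        exact Or.inr ⟨rfl, Sum.Lex.inl_lt_inl_iff.2 (by linarith)⟩
      · rw [mk_lt]
        exact Or.inl hs
    · obtain ⟨rfl, h1⟩ := hxy.resolve_left hs
      rcases s' with q' | j
      · have h2 := Sum.Lex.inl_lt_inl_iff.1 h1
        refine hno _ (mem_inl K n ((q + q') / 2)) ⟨?_, ?_⟩
        · rw [mk_lt]
          exact Or.inr ⟨rfl, Sum.Lex.inl_lt_inl_iff.2 (by linarith)⟩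
        · rw [mk_lt]
          exact Or.inr ⟨rfl, Sum.Lex.inl_lt_inl_iff.2 (by linarith)⟩
      · refine hno _ (mem_inl K n (q + 1)) ⟨?_, ?_⟩
        · rw [mk_lt]
          exact Or.inr ⟨rfl, Sum.Lex.inl_lt_inl_iff.2 (by linarith)⟩
        · rw [mk_lt]
          exact Or.inr ⟨rfl, Sum.Lex.inl_lt_inr _ _⟩
  · by_cases hs : n < m
    · exfalso
      rcases s' with q' | j'
      · refine hno _ (mem_inl K m (q' - 1)) ⟨?_, ?_⟩
        · rw [mk_lt]
          exact Or.inl hs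
        · rw [mk_lt]
          exact Or.inr ⟨rfl, Sum.Lex.inl_lt_inl_iff.2 (by linarith)⟩
      · refine hno _ (mem_inl K m 0) ⟨?_, ?_⟩
        · rw [mk_lt]
          exact Or.inl hs
        · rw [mk_lt]
          exact Or.inr ⟨rfl, Sum.Lex.inl_lt_inr _ _⟩
    · obtain ⟨rfl, h1⟩ := hxy.resolve_left hs
      rcases s' with q' | j'
      · exact absurd h1 Sum.Lex.not_inr_lt_inl
      · have h2 := Sum.Lex.inr_lt_inr_iff.1 h1
        have h3 := (mem_inr K n j').1 hy
        have h4 : j' = j + 1 := by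
          by_contra hne
          refine hno _ ((mem_inr K n (j + 1)).2 ⟨h3.1, by omega⟩) ⟨?_, ?_⟩
          · rw [mk_lt]
            exact Or.inr ⟨rfl, Sum.Lex.inr_lt_inr_iff.2 (by omega)⟩
          · rw [mk_lt]
            exact Or.inr ⟨rfl, Sum.Lex.inr_lt_inr_iff.2 (by omega)⟩
        subst h4
        exact ⟨n, j, rfl, rfl, h3⟩

lemma sk_cov {K : ℕ → Bool} {n j : ℕ} (h : K n = true) (hj : j + 1 ≤ n + 1) :
    Cov (SK K) (mk n (Sum.inr j)) (mk n (Sum.inr (j + 1))) := by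
  refine ⟨(mem_inr K n j).2 ⟨h, by omega⟩, (mem_inr K n (j + 1)).2 ⟨h, hj⟩, ?_, ?_⟩
  · rw [mk_lt]
    exact Or.inr ⟨rfl, Sum.Lex.inr_lt_inr_iff.2 (by omega)⟩
  · rintro w - ⟨h1, h2⟩
    obtain ⟨m, s, rfl⟩ := mk_surj w
    rw [mk_lt] at h1 h2
    rcases h1 with h1 | ⟨rfl, h1⟩
    · rcases h2 with h2 | ⟨h2, -⟩ <;> omega
    · rcases h2 with h2 | ⟨-, h2⟩
      · omega
      · rcases s with q | i
        · exact Sum.Lex.not_inr_lt_inl h1
        · have e1 := Sum.Lex.inr_lt_inr_iff.1 h1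
          have e2 := Sum.Lex.inr_lt_inr_iff.1 h2
          omega

theorem bl_sk (K : ℕ → Bool) (n : ℕ) : Bl (SK K) (n + 1) ↔ K n = true := by
  constructor
  · rintro ⟨x, h1, h2, h3⟩
    obtain ⟨m, j, h4, h5, h6, h7⟩ := cov_sk (h1 0 (by omega))
    have hj : j = 0 := by
      by_contra hne
      obtain ⟨j', rfl⟩ : ∃ j', j = j' + 1 := ⟨j - 1, by omega⟩
      refine h2 (mk m (Sum.inr j')) ?_
      rw [h4]
      exact sk_cov h6 (by omega)
    subst hj
    have h8 : ∀ i, i ≤ n + 1 → x i = mk m (Sum.inr i) := by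
      intro i
      induction i with
      | zero => exact fun _ => h4
      | succ i ih =>
        intro hi
        obtain ⟨m', j', e1, e2, e3, e4⟩ := cov_sk (h1 i (by omega))
        rw [ih (by omega)] at e1
        obtain ⟨rfl, e5⟩ := mk_inj e1
        rw [e2, ← Sum.inr.inj e5]
    have h9 : n + 1 ≤ m + 1 := by
      obtain ⟨m', j', e1, e2, e3, e4⟩ := cov_sk (h1 n (by omega))
      rw [h8 n (by omega)] at e1
      obtain ⟨rfl, e5⟩ := mk_inj e1
      have e6 := Sum.inr.inj e5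
      omega
    have h10 : m ≤ n := by
      by_contra hcon
      refine h3 (mk m (Sum.inr (n + 1 + 1))) ?_
      rw [h8 (n + 1) le_rfl]
      exact sk_cov h6 (by omega)
    have : m = n := by omega
    rwa [this] at h6
  · intro h
    refine ⟨fun i => mk n (Sum.inr i), fun i hi => sk_cov h (by omega), ?_, ?_⟩
    · intro y hy
      obtain ⟨m', j', -, e2, -, -⟩ := cov_sk hy
      obtain ⟨rfl, e5⟩ := mk_inj e2
      have e6 := Sum.inr.inj e5
      omega
    · intro y hy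
      obtain ⟨m', j', e1, -, -, e4⟩ := cov_sk hy
      obtain ⟨rfl, e5⟩ := mk_inj e1
      have e6 := Sum.inr.inj e5
      omega

/-- An isomorphism preserves the intervals. -/
lemma bl_iso {Λ : Type} [LinearOrder Λ] {A A' : Set Λ} {g : Λ → Λ} (hg : g '' A = A')
    (hm : ∀ x ∈ A, ∀ y ∈ A, (g x < g y ↔ x < y)) (c : ℕ) (hc : 0 < c) (h : Bl A c) : Bl A' c := by
  have hmem : ∀ x ∈ A, g x ∈ A' := fun x hx => hg ▸ mem_image_of_mem g hx
  have hcov : ∀ x ∈ A, ∀ y ∈ A, Cov A' (g x) (g y) ↔ Cov A x y := by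
    intro x hx y hy
    constructor
    · rintro ⟨-, -, h1, h2⟩
      exact ⟨hx, hy, (hm x hx y hy).1 h1, fun w hw h3 =>
        h2 (g w) (hmem w hw) ⟨(hm x hx w hw).2 h3.1, (hm w hw y hy).2 h3.2⟩⟩
    · rintro ⟨-, -, h1, h2⟩
      refine ⟨hmem x hx, hmem y hy, (hm x hx y hy).2 h1, ?_⟩
      rintro w hw h3
      rw [← hg] at hw
      obtain ⟨w, hw, rfl⟩ := hw
      exact h2 w hw ⟨(hm x hx w hw).1 h3.1, (hm w hw y hy).1 h3.2⟩
  obtain ⟨x, h1, h2, h3⟩ := h
  have hx0 : x 0 ∈ A := (h1 0 hc).1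
  have hxc : x c ∈ A := by
    obtain ⟨c', rfl⟩ : ∃ c', c = c' + 1 := ⟨c - 1, by omega⟩
    exact (h1 c' (by omega)).2.1
  refine ⟨fun i => g (x i), fun i hi => (hcov _ (h1 i hi).1 _ (h1 i hi).2.1).2 (h1 i hi), ?_, ?_⟩
  · intro y hy
    have hy1 := hy.1
    rw [← hg] at hy1
    obtain ⟨w, hw, rfl⟩ := hy1
    exact h2 w ((hcov w hw _ hx0).1 hy)
  · intro y hy
    have hy1 := hy.2.1
    rw [← hg] at hy1
    obtain ⟨w, hw, rfl⟩ := hy1
    exact h3 w ((hcov _ hxc w hw).1 hy)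

theorem sk_rigid {K K' : ℕ → Bool} {g : Lam → Lam} (hg : g '' SK K = SK K')
    (hm : ∀ x ∈ SK K, ∀ y ∈ SK K, (g x < g y ↔ x < y)) : K = K' := by
  classical
  -- the inverse
  have hinj : InjOn g (SK K) := by
    intro x hx y hy hxy
    rcases lt_trichotomy x y with h | h | h
    · exact absurd ((hm x hx y hy).2 h) (by rw [hxy]; exact lt_irrefl _)
    · exact h
    · exact absurd ((hm y hy x hx).2 h) (by rw [hxy]; exact lt_irrefl _)
  let g' := Function.invFunOn g (SK K)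
  have hg1 : ∀ x ∈ SK K, g' (g x) = x := fun x hx =>
    hinj (Function.invFunOn_mem ⟨x, hx, rfl⟩) hx (Function.invFunOn_eq ⟨x, hx, rfl⟩)
  have hg2 : g' '' SK K' = SK K := by
    rw [← hg]
    ext x
    constructor
    · rintro ⟨_, ⟨y, hy, rfl⟩, rfl⟩
      rw [hg1 y hy]
      exact hy
    · intro hx
      exact ⟨g x, ⟨x, hx, rfl⟩, hg1 x hx⟩
  have hg3 : ∀ x ∈ SK K', ∀ y ∈ SK K', (g' x < g' y ↔ x < y) := by
    intro x hx y hy
    rw [← hg] at hx hy
    obtain ⟨x, hx, rfl⟩ := hx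
    obtain ⟨y, hy, rfl⟩ := hy
    rw [hg1 x hx, hg1 y hy, hm x hx y hy]
  funext n
  have h : K n = true ↔ K' n = true := by
    rw [← bl_sk, ← bl_sk]
    exact ⟨bl_iso hg hm (n + 1) (by omega), bl_iso hg2 hg3 (n + 1) (by omega)⟩
  cases h1 : K n <;> cases h2 : K' n <;> simp_all

open Pool.Agent.H75.HCI

/-- A structure with few substructures contains no copy of `Lam` whose order is visible: `b x` is a
class, `R` a relation between classes. -/
theorem no_lam {α β L : Type} {t : List α → L} {e : α → β} {N : Set α}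
    (hs : SmallE t e N) (z : List α) (hz : ∀ x ∈ z, x ∈ N)
    (hzE : ∀ x ∈ z, ∀ y ∈ N, e y = e x → y ∈ z) (f : Lam → α) (hf : ∀ x, f x ∈ N)
    (hfz : ∀ x, ∀ y ∈ z, e y ≠ e (f x)) (hfi : ∀ x y, e (f x) = e (f y) → x = y)
    (R : α → α → Prop) (hR : ∀ x y, x < y → R (f x) (f y)) (hR' : ∀ x y, x < y → ¬ R (f y) (f x))
    (hRR : ∀ x, ¬ R (f x) (f x))
    (hRe : ∀ x ∈ N, ∀ x' ∈ N, ∀ y ∈ N, ∀ y' ∈ N, e x = e x' → e y = e y' → (R x y ↔ R x' y'))
    (hRi : ∀ (g : α → α) (A A' : Set α), A ⊆ N → A' ⊆ N →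
      (∀ x ∈ A, ∀ y ∈ N, e y = e x → y ∈ A) → (∀ x ∈ A', ∀ y ∈ N, e y = e x → y ∈ A') →
      Emb t e t e g A → g '' A = A' → (∀ x ∈ z, x ∈ A) → (∀ x ∈ z, g x = x) →
      ∀ x ∈ A, ∀ y ∈ A, (R x y ↔ R (g x) (g y))) : False := by
  classical
  let A : (ℕ → Bool) → Set α := fun K => {x | x ∈ z} ∪ {x | x ∈ N ∧ ∃ p ∈ SK K, e x = e (f p)}
  have hAN : ∀ K, A K ⊆ N := by
    rintro K x (hx | hx)
    · exact hz x hx
    · exact hx.1
  have hfA : ∀ K, ∀ p ∈ SK K, f p ∈ A K := fun K p hp => Or.inr ⟨hf p, p, hp, rfl⟩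
  have hAE : ∀ K, ∀ x ∈ A K, ∀ y ∈ N, e y = e x → y ∈ A K := by
    rintro K x (hx | ⟨hx, p, hp, hxp⟩) y hy hxy
    · exact Or.inl (hzE x hx y hy hxy)
    · exact Or.inr ⟨hy, p, hp, hxy.trans hxp⟩
  obtain ⟨K, K', hne, g, hg, himg, hgz⟩ := hs A z (by
      intro x
      by_cases hx : x ∈ z
      · have : {K | x ∈ A K} = univ := eq_univ_of_forall fun K => Or.inl hx
        rw [this]
        exact MeasurableSet.univ
      · by_cases hx2 : x ∈ N ∧ ∃ p, e x = e (f p)
        · obtain ⟨hxN, p, hp⟩ := hx2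
          have h1 : {K : ℕ → Bool | x ∈ A K} = {K | p ∈ SK K} := by
            ext K
            constructor
            · rintro (h | ⟨-, q, hq, hxq⟩)
              · exact absurd h hx
              · have : p = q := hfi p q (hp.symm.trans hxq)
                rw [mem_ofPred_eq, this]
                exact hq
            · intro h
              exact Or.inr ⟨hxN, p, h, hp⟩
          rw [h1]
          obtain ⟨n, s, rfl⟩ := mk_surj p
          rcases s with q | j
          · have : {K | mk n (Sum.inl q) ∈ SK K} = univ := eq_univ_of_forall fun K => mem_inl K n q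
            rw [this]
            exact MeasurableSet.univ
          · have h2 : {K | mk n (Sum.inr j) ∈ SK K} = {K | K n = true} ∩ {K | j ≤ n + 1} := by
              ext K
              exact mem_inr K n j
            rw [h2]
            refine MeasurableSet.inter ?_ (MeasurableSet.const _)
            have h3 : Measurable fun K : ℕ → Bool => K n := measurable_pi_apply n
            exact h3 (measurableSet_singleton true)
        · have : {K : ℕ → Bool | x ∈ A K} = ∅ := by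
            ext K
            simp only [mem_ofPred_eq, mem_empty_iff_false, iff_false]
            rintro (h | ⟨h, q, -, hxq⟩)
            · exact hx h
            · exact hx2 ⟨h, q, hxq⟩
          rw [this]
          exact MeasurableSet.empty)
    (by
      intro K
      refine infinite_of_injective_forall_mem (f := fun n : ℕ => f (mk n (Sum.inl 0))) ?_ ?_
      · intro n m hnm
        exact (mk_inj (hfi _ _ (congrArg e hnm))).1
      · intro n
        exact hfA K _ (mem_inl K n 0)) hAN hAE (fun K x hx => Or.inl hx)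
  apply hne
  have hgi := hg.inj
  -- the induced map
  have hmap : ∀ p : Lam, ∃ q : Lam, p ∈ SK K → q ∈ SK K' ∧ e (g (f p)) = e (f q) := by
    intro p
    by_cases hp : p ∈ SK K
    · have h1 : g (f p) ∈ A K' := himg ▸ mem_image_of_mem g (hfA K p hp)
      rcases h1 with h1 | ⟨-, q, hq, h2⟩
      · exfalso
        have h2 : g (g (f p)) = g (f p) := hgz _ h1
        have h3 : g (f p) = f p := hgi (Or.inl h1) (hfA K p hp) h2
        rw [h3] at h1
        exact hfz p _ h1 rfl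
      · exact ⟨q, fun _ => ⟨hq, h2⟩⟩
    · exact ⟨p, fun h => absurd h hp⟩
  choose γ hγ using hmap
  have hRlt : ∀ p q, (R (f p) (f q) ↔ p < q) := by
    intro p q
    rcases lt_trichotomy p q with h | h | h
    · exact ⟨fun _ => h, fun _ => hR p q h⟩
    · subst h
      exact ⟨fun h' => absurd h' (hRR p), fun h' => absurd h' (lt_irrefl _)⟩
    · exact ⟨fun h' => absurd h' (hR' q p h), fun h' => absurd h' h.not_gt⟩
  have hgN : ∀ p ∈ SK K, g (f p) ∈ N := fun p hp =>
    hAN K' (himg ▸ mem_image_of_mem g (hfA K p hp))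
  refine sk_rigid (g := γ) ?_ ?_
  · ext q
    constructor
    · rintro ⟨p, hp, rfl⟩
      exact (hγ p hp).1
    · intro hq
      have h1 : f q ∈ A K' := hfA K' q hq
      rw [← himg] at h1
      obtain ⟨x, hx, hxq⟩ := h1
      rcases hx with hx | ⟨hxN, p, hp, hxp⟩
      · exfalso
        rw [hgz x hx] at hxq
        rw [hxq] at hx
        exact hfz q _ hx rfl
      · refine ⟨p, hp, ?_⟩
        have h2 := (hγ p hp).2
        have h3 : e (g x) = e (g (f p)) :=
          (hg.cls x (Or.inr ⟨hxN, p, hp, hxp⟩) (f p) (hfA K p hp)).2 hxp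
        rw [hxq] at h3
        exact (hfi _ _ (h3.trans h2)).symm
  · intro p hp q hq
    rw [← hRlt, ← hRlt, hRi g (A K) (A K') (hAN K) (hAN K') (hAE K) (hAE K') hg himg
      (fun x hx => Or.inl hx) hgz (f p) (hfA K p hp) (f q) (hfA K q hq)]
    exact hRe _ (hf _) _ (hgN p hp) _ (hf _) _ (hgN q hq) (hγ p hp).2.symm (hγ q hq).2.symm

end Pool.Agent.H76.HI
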