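import Pool.Agent.H76.HI.HU

/-!
# Symmetry, two members: comparability and asymmetry
-/

set_option autoImplicit false

namespace Pool.Agent.H76.HI

open Set Pool.Agent.H41.HI Pool.Agent.H75.HCI Pool.Agent.H16.FK Filter

variable {C : Type} {M : List ℕ → C} {N : Subgroup (Equiv.Perm ℕ)} {k kc : ℕ}

/-- The context of the symmetry theorem. -/
structure Ctx (M : List ℕ → C) (H : HSys M N) (r k : ℕ) (B z : List ℕ)
    (V : Ultrafilter (Fin k → ℕ)) : Prop where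
  hA : Ar r M
  hF : FinL M
  hs : SmallE M (id : ℕ → ℕ) univ
  hk : 1 ≤ k
  hQ : ∀ k' < k, QQ H k'
  hz : SepK H k z
  hBz : B ⊆ z
  hV : V ∈ FKB H B (Fin k)
  hns : SepV M V z

/-- The results about arrays of labels. -/
structure PT : Prop where
  topc : T_TOPC
  s2a : T_S2A
  s2b : T_S2B
  s2g : T_S2G
  s3 : T_S3

lemma PA.mono {H : HSys M N} {B : List ℕ} {V : Ultrafilter (Fin k → ℕ)} {A A' : List ℕ}
    {D : Fin k → ℕ} (h : PA H B V A' D) (hA : A ⊆ A') : PA H B V A D :=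
  ⟨h.1, h.2.1.mono hA, fr_mono hA h.2.2⟩

lemma pa_ne {H : HSys M N} {B z : List ℕ} (hBz : B ⊆ z) {V : Ultrafilter (Fin k → ℕ)}
    {i : ℕ} {D : Fin k → ℕ} (h : PA H B V (Az z i) D) {a : ℕ} (ha : a ∈ Az z i) (b : Fin k) :
    D b ≠ a := by
  intro hb
  have h1 : Free H B (Az z i) [D b] := fr_free.1 h.2.2 b
  exact free_notMem (fun x hx => az_sub (hBz hx)) h1 (D b) (by simp) (hb ▸ ha)

lemma mem_az {z : List ℕ} {a i : ℕ} (h : a < i) : a ∈ Az z i :=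
  List.mem_append_right _ (List.mem_range.2 h)

/-- Apx members are free realisations. -/
lemma apx_pa {r : ℕ} (hA : Ar r M) (hF : FinL M) {H : HSys M N} {B z : List ℕ} (hBz : B ⊆ z)
    {V : Ultrafilter (Fin k → ℕ)} {W : ℕ → Ultrafilter (Fin k → ℕ)} (hW : Apx M H B z V W)
    (i : ℕ) : ∀ᶠ y in (W i : Filter (Fin k → ℕ)), PA H B V (Az z i) y := by
  filter_upwards [(hW.mem i).1, rz_ev hA hF (W i) (Az z i),
    (hW.mem i).2 (Az z i) fun x hx => az_sub (hBz hx)] with y h1 h2 h3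
  exact ⟨h1, fun l hl => by rw [h2 l hl, hW.eq i l hl], h3⟩

lemma apx_const {H : HSys M N} {B z : List ℕ} {V : Ultrafilter (Fin k → ℕ)}
    (hV : V ∈ FKB H B (Fin k)) : Apx M H B z V fun _ => V := ⟨fun _ => hV, fun _ _ _ => rfl⟩

lemma rz_fst (hF : FinL M) {I J : Type} {V : Ultrafilter (I → ℕ)} {U : Ultrafilter (J → ℕ)}
    {z : List ℕ} {x : I → ℕ} {y : J → ℕ} (h : Rz M (prU V U) z (Sum.elim x y)) : Rz M V z x := by
  intro l hl
  have hl' : Mks z l := hl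
  have h1 := h _ (hl'.map (Sum.inl : I → I ⊕ J))
  have h2 : typ M (prU V U) (l.map (Sum.map id Sum.inl)) = typ M V l := by
    rw [typ_pr hF]
    filter_upwards [typ_spec hF V l] with x' hx'
    rw [← hx']
    refine typ_eq (Eventually.of_forall fun y' => ?_)
    rw [List.map_map, List.map_map]
    congr 1
    refine List.map_congr_left fun a _ => ?_
    rcases a with a | a <;> rfl
  rw [← h2, ← h1, List.map_map]
  congr 1
  refine List.map_congr_left fun a _ => ?_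
  rcases a with a | a <;> rfl

/-- Realisations of `W` over `x` have the same labels with `x`. -/
lemma rz_pair {I J : Type} {W : Ultrafilter (J → ℕ)} {X z : List ℕ} {x : I → ℕ} {y v : J → ℕ}
    (hy : Rz M W X y) (hv : Rz M W X v) (hz : z ⊆ X) (hx : ∀ i, x i ∈ X) :
    Eqf M z (Sum.elim x y) (Sum.elim x v) := by
  intro l hl
  have e : ∀ y : J → ℕ, l.map (Sum.elim id (Sum.elim x y)) =
      (l.map (sb x)).map (Sum.elim id y) := by
    intro y
    rw [List.map_map]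
    exact List.map_congr_left fun a _ => (sb_elim x y a).symm
  have h1 : ∀ a, Sum.inl a ∈ l.map (sb x) → a ∈ X := by
    intro a ha
    rcases hl.sb x a ha with h | ⟨i, rfl⟩
    · exact hz h
    · exact hx i
  rw [e, e, hy _ h1, hv _ h1]

/-- The array with one cell in each hub. -/
theorem one_cell (pb : PB) (pt : PT) {r : ℕ} {H : HSys M N} {B z : List ℕ}
    {V : Ultrafilter (Fin k → ℕ)} (cx : Ctx M H r k B z V) {x : ℕ → Fin k → ℕ}
    (hx : ∀ i, PA H B V (Az z i) (x i)) {W : ℕ → Ultrafilter (Fin k → ℕ)}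
    (hW : Apx M H B z V W) (z0 : List ℕ) : ∃ z', z0 ⊆ z' ∧ ∃ R0 R1 : Fin k → ℕ,
      (∀ᶠ i in (UH : Filter ℕ), ∀ᶠ y in (W i : Filter (Fin k → ℕ)),
        LTp M z' R0 R1 (x i) y ∨ LTp M z' R0 R1 y (x i)) ∧
      ∀ᶠ i in (UH : Filter ℕ), ∀ᶠ y in (W i : Filter (Fin k → ℕ)),
        ∀ᶠ y' in (V : Filter (Fin k → ℕ)), Eqf M z' (Sum.elim R0 R1) (Sum.elim y y') := by
  have hcells : Cells M H B z V x [List.finRange k] := by
    refine ⟨by simp, by simp, fun i J hJ => ?_, fun i => ⟨[List.finRange k], List.Perm.refl _, ?_⟩,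
      fun i => (hx i).1⟩
    · rw [List.mem_singleton] at hJ
      subst hJ
      exact ⟨x i, hx i, List.ofFn_eq_map⟩
    · refine ⟨?_, trivial⟩
      have h1 : Free H B (Az z i) (List.ofFn (x i)) := (fr_list rfl).1 (hx i).2.2
      rw [List.ofFn_eq_map] at h1
      simpa using h1
  obtain ⟨z1, hzz1, hz1⟩ := arr pb cx.hA cx.hF cx.hs cx.hk cx.hQ cx.hz cx.hV cx.hns hW
    (c := x) (fun i => (hx i).1) (fun b a => by
      filter_upwards [eventually_gt_atTop a] with i hi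
      exact pa_ne cx.hBz (hx i) (mem_az hi) b)
  obtain ⟨T, af⟩ := hz1 (z1 ++ z0) (List.subset_append_left _ _)
  have hzz' : z ⊆ z1 ++ z0 := fun a ha => List.mem_append_left _ (hzz1 ha)
  obtain ⟨h1, cl, In, hcl, hIn, hSP⟩ := hub_top pt.topc cx.hA cx.hF cx.hk cx.hQ cx.hz cx.hBz cx.hV
    cx.hns hW hcells hzz' af
  obtain ⟨p, hp⟩ := af.real fun _ => 1
  have hrt : RT M (z1 ++ z0) T p := hp
  refine ⟨z1 ++ z0, List.subset_append_right _ _, p ∘ rwf 0 0, p ∘ rwf 1 0, ?_, ?_⟩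
  · have h2 := pt.s2a k (List ℕ → C) T cl In cx.hk af.ax.pat af.ax.ft af.last hIn hSP
      (fun b b' => (hcl b b').2 ⟨_, List.mem_singleton.2 rfl, List.mem_finRange b,
        List.mem_finRange b'⟩) (h1 _ (List.mem_singleton.2 rfl))
    rw [hubA_eq, row_eq, lt_iff hrt v1_hub fun a => v1_row 0 a,
      lt_iff hrt (fun a => v1_row 0 a) v1_hub] at h2
    filter_upwards [af.ev1] with i hi
    filter_upwards [hi] with y hy
    rw [hubA_eq, row_eq, rt2 hrt v1_hub fun a => v1_row 0 a] at hy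
    rcases h2 with h2 | h2
    · exact Or.inl (h2.congr hy)
    · exact Or.inr (h2.congr hy.swap)
  · filter_upwards [af.evr] with i hi
    filter_upwards [hi] with y hy
    filter_upwards [hy] with y' hy'
    rw [row_eq, row_eq, rt2 hrt (fun a => v1_row 0 a) fun a => v1_row 1 a] at hy'
    exact hy'

/-- (a0) -/
theorem a_zero (pb : PB) (pt : PT) {r : ℕ} {H : HSys M N} {B z : List ℕ}
    {V : Ultrafilter (Fin k → ℕ)} (cx : Ctx M H r k B z V) (z' : List ℕ) {S0 S1 : Fin k → ℕ}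
    (hS : Rz M (prU V V) z' (Sum.elim S0 S1)) : ∃ i, ∀ x, PA H B V (Az z i) x →
      ∀ᶠ y in (V : Filter (Fin k → ℕ)), LTp M z' S0 S1 x y ∨ LTp M z' S0 S1 y x := by
  by_contra hcon
  push Not at hcon
  choose x hx hxn using hcon
  obtain ⟨z'', hzz, R0, R1, h1, h2⟩ := one_cell pb pt cx hx (apx_const (z := z) cx.hV) z'
  obtain ⟨i, hi1, hi2⟩ := (h1.and h2).exists
  have h3 : ∀ᶠ y in (V : Filter (Fin k → ℕ)), ∀ᶠ y' in (V : Filter (Fin k → ℕ)),
      Rz M (prU V V) z'' (Sum.elim y y') := prU_ev.1 (rz_ev cx.hA cx.hF (prU V V) z'')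
  obtain ⟨y, hy1, hy2⟩ := (hi2.and h3).exists
  obtain ⟨y', hy1', hy2'⟩ := (hy1.and hy2).exists
  have h4 : Eqf M z' (Sum.elim R0 R1) (Sum.elim S0 S1) :=
    (hy1'.mono hzz).trans (rz_eqf (hy2'.mono hzz) hS)
  obtain ⟨w, hw1, hw2, hw3⟩ := (hi1.and (hxn i)).exists
  rcases hw1 with hw | hw
  · exact hw2 ((hw.mono hzz).congrS h4)
  · exact hw3 ((hw.mono hzz).congrS h4)

/-- The relation of the pair of the array. -/
theorem pair_rel (pb : PB) (pt : PT) {r : ℕ} {H : HSys M N} {B z : List ℕ}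
    {V : Ultrafilter (Fin k → ℕ)} (cx : Ctx M H r k B z V) {z' : List ℕ} {S0 S1 : Fin k → ℕ}
    (hS : Rz M (prU V V) z' (Sum.elim S0 S1)) {W : ℕ → Ultrafilter (Fin k → ℕ)}
    (hW : Apx M H B z V W) {R0 R1 : Fin k → ℕ} (hR : ∀ᶠ i in (UH : Filter ℕ),
      ∀ᶠ y in (W i : Filter (Fin k → ℕ)), ∀ᶠ y' in (V : Filter (Fin k → ℕ)),
        Eqf M z' (Sum.elim R0 R1) (Sum.elim y y')) :
    (LTp M z' S0 S1 R0 R1 ∨ LTp M z' S0 S1 R1 R0) ∧ Eqf M z' R0 S0 := by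
  obtain ⟨i0, h0⟩ := a_zero pb pt cx z' hS
  obtain ⟨i, hi1, hi2, hi3⟩ := (hR.and ((uh_of_atTop (eventually_ge_atTop i0)).and
    (uh_of_atTop (az_ev z z')))).exists
  obtain ⟨y, hy1, hy2⟩ := (hi1.and (apx_pa cx.hA cx.hF cx.hBz hW i)).exists
  obtain ⟨y', hy1', hy2'⟩ := (hy1.and (h0 y (hy2.mono (az_mono hi2)))).exists
  refine ⟨?_, hy1'.left.trans (rz_eqf (hy2.2.1.mono hi3) (rz_fst cx.hF hS))⟩
  rcases hy2' with h | h
  · exact Or.inl (h.congr hy1'.symm)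
  · exact Or.inr (h.congr hy1'.symm.swap)

/-- Copies of `v` over `x`. -/
lemma exists_W {H : HSys M N} {B z : List ℕ} (hBz : B ⊆ z) {V : Ultrafilter (Fin k → ℕ)}
    {c : ℕ → Fin kc → ℕ} {v : ℕ → Fin k → ℕ} (hv : ∀ i, PA H B V (Az z i) (v i))
    (hf : ∀ i, Fr H B (Az z i ++ List.ofFn (c i)) (v i)) :
    ∃ W : ℕ → Ultrafilter (Fin k → ℕ), Apx M H B z V W ∧
      ∀ i, Rz M (W i) (Az z i ++ List.ofFn (c i)) (v i) := by
  have h1 : ∀ i, ∃ W ∈ FKB H B (Fin k), Rz M W (Az z i ++ List.ofFn (c i)) (v i) := by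
    intro i
    obtain ⟨W, h1, -, h2⟩ := exists_V H (X := Az z i ++ List.ofFn (c i))
      (fun a ha => List.mem_append_left _ (az_sub (hBz ha))) (hv i).1 (hf i)
    exact ⟨W, h1, h2⟩
  choose W h2 h3 using h1
  refine ⟨W, ⟨h2, fun i l hl => ?_⟩, h3⟩
  rw [← h3 i l (hl.mono (List.subset_append_left _ _)), (hv i).2.1 l hl]

/-- (a) -/
theorem a_one (pb : PB) (pt : PT) {r : ℕ} {H : HSys M N} {B z : List ℕ}
    {V : Ultrafilter (Fin k → ℕ)} (cx : Ctx M H r k B z V) (z' : List ℕ) {S0 S1 : Fin k → ℕ}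
    (hS : Rz M (prU V V) z' (Sum.elim S0 S1)) : ∃ i, ∀ x v, PA H B V (Az z i) x →
      PA H B V (Az z i) v → Fr H B (Az z i ++ List.ofFn x) v →
        LTp M z' S0 S1 x v ∨ LTp M z' S0 S1 v x := by
  by_contra hcon
  push Not at hcon
  choose x v hx hv hf hn1 hn2 using hcon
  obtain ⟨W, hW, hWv⟩ := exists_W cx.hBz hv hf
  obtain ⟨z'', hzz, R0, R1, h1, h2⟩ := one_cell pb pt cx hx hW z'
  obtain ⟨S, hS'⟩ := (rz_ev cx.hA cx.hF (prU V V) z'').exists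
  have hSe : Sum.elim (S ∘ Sum.inl) (S ∘ Sum.inr) = S := Sum.elim_comp_inl_inr S
  rw [← hSe] at hS'
  obtain ⟨h3, h4⟩ := pair_rel pb pt cx hS' hW h2
  obtain ⟨i, hi1, hi2⟩ := (h1.and (uh_of_atTop (az_ev z z''))).exists
  obtain ⟨y, hy1, hy2⟩ := (hi1.and (rz_ev cx.hA cx.hF (W i)
    (Az z i ++ List.ofFn (x i)))).exists
  have h5 : Eqf M z'' (Sum.elim (x i) y) (Sum.elim (x i) (v i)) :=
    rz_pair hy2 (hWv i) (fun a ha => List.mem_append_left _ (hi2 ha))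
      fun a => List.mem_append_right _ (List.mem_ofFn.2 ⟨a, rfl⟩)
  have h6 : Eqf M z' (Sum.elim (S ∘ Sum.inl) (S ∘ Sum.inr)) (Sum.elim S0 S1) :=
    rz_eqf (hS'.mono hzz) hS
  have hfin : ∀ a b, LTp M z'' (S ∘ Sum.inl) (S ∘ Sum.inr) a b → LTp M z' S0 S1 a b :=
    fun a b h => (h.mono hzz).congrS h6
  rcases h3 with h3 | h3
  · rcases hy1 with h | h
    · exact hn1 i (hfin _ _ (h3.of (h.congr h5)))
    · exact hn2 i (hfin _ _ (h3.of (h.congr h5.swap)))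
  · rcases hy1 with h | h
    · exact hn2 i (hfin _ _ (h3.rev h4 (h.congr h5)))
    · exact hn1 i (hfin _ _ (h3.rev h4 (h.congr h5.swap)))

/-- The relation is asymmetric. -/
theorem asym (pb : PB) (pt : PT) {r : ℕ} {H : HSys M N} {B z : List ℕ}
    {V : Ultrafilter (Fin k → ℕ)} (cx : Ctx M H r k B z V) : ∃ z1, z ⊆ z1 ∧ ∀ z', z1 ⊆ z' →
      ∀ S0 S1 : Fin k → ℕ, Rz M (prU V V) z' (Sum.elim S0 S1) →
        ¬ Eqf M z' (Sum.elim S1 S0) (Sum.elim S0 S1) → ∀ x y, LTp M z' S0 S1 x y →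
          ¬ LTp M z' S0 S1 y x := by
  obtain ⟨z1, hzz1, hz1⟩ := arr pb cx.hA cx.hF cx.hs cx.hk cx.hQ cx.hz cx.hV cx.hns
    (apx_const (z := z) cx.hV) (kc := 0) (c := fun _ i => i.elim0) (fun i a => a.elim0)
    (fun b => b.elim0)
  refine ⟨z1, hzz1, fun z' hz' S0 S1 hS hne x y hxy hyx => ?_⟩
  obtain ⟨T, af⟩ := hz1 z' hz'
  obtain ⟨p, hp⟩ := af.real fun _ => 1
  have hrt : RT M z' T p := hp
  obtain ⟨i, hi⟩ := af.evr.exists
  have h3 : ∀ᶠ y in (V : Filter (Fin k → ℕ)), ∀ᶠ y' in (V : Filter (Fin k → ℕ)),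
      Rz M (prU V V) z' (Sum.elim y y') := prU_ev.1 (rz_ev cx.hA cx.hF (prU V V) z')
  obtain ⟨w, hw1, hw2⟩ := (hi.and h3).exists
  obtain ⟨w', hw1', hw2'⟩ := (hw1.and hw2).exists
  rw [row_eq, row_eq, rt2 hrt (fun a => v1_row 0 a) fun a => v1_row 1 a] at hw1'
  have hR : Eqf M z' (Sum.elim S0 S1) (Sum.elim (p ∘ rwf 0 0) (p ∘ rwf 1 0)) :=
    (rz_eqf hS hw2').trans hw1'.symm
  have hG := pt.s2g 0 k (List ℕ → C) T af.ax.pat af.ax.ft af.last (by
    rw [row_eq, row_eq, Ne, rt2' hrt (fun a => v1_row 1 a) (fun a => v1_row 0 a)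
      (fun a => v1_row 0 a) fun a => v1_row 1 a]
    intro h
    exact hne ((hR.swap.trans h).trans hR.symm))
  obtain ⟨σ, τ, h4, h5, h6⟩ := hxy.congrS hR
  have h7 : LTp M z' (p ∘ rwf 0 0) (p ∘ rwf 1 0) y x := hyx.congrS hR
  refine hG (List.ofFn (rwf 0 0 ∘ σ)) (List.ofFn (rwf 1 0 ∘ τ)) List.length_ofFn
    List.length_ofFn ?_ ?_
  · rw [lt_iff hrt (f := rwf 0 0 ∘ σ) (g := rwf 1 0 ∘ τ) (fun a => v1_row 0 _)
      fun a => v1_row 1 _]
    exact ⟨σ, τ, h4, h5, Eqf.refl _⟩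
  · rw [lt_iff hrt (f := rwf 1 0 ∘ τ) (g := rwf 0 0 ∘ σ) (fun a => v1_row 1 _)
      fun a => v1_row 0 _]
    exact h7.congr h6.swap

end Pool.Agent.H76.HI
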