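import Pool.Agent.H76.HI.SA

/-!
# Symmetry, two members: no cycles, and the conclusion
-/

set_option autoImplicit false

namespace Pool.Agent.H76.HI

open Set Pool.Agent.H41.HI Pool.Agent.H75.HCI Pool.Agent.H16.FK Filter

variable {C : Type} {M : List ℕ → C} {N : Subgroup (Equiv.Perm ℕ)} {k kc : ℕ}

/-- The first and the second cell. -/
def JL (k : ℕ) : List (Fin (k + k)) := List.ofFn (Fin.castAdd k)
def JR (k : ℕ) : List (Fin (k + k)) := List.ofFn (Fin.natAdd k)

lemma jlr_perm (k : ℕ) : (JL k ++ JR k).Perm (List.finRange (k + k)) := by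
  have h1 : (JL k ++ JR k).Nodup := by
    refine List.nodup_append'.2 ⟨List.nodup_ofFn.2 (Fin.castAdd_injective _ _),
      List.nodup_ofFn.2 (Fin.natAdd_injective _ _), ?_⟩
    intro a ha hb
    obtain ⟨i, rfl⟩ := List.mem_ofFn.1 ha
    obtain ⟨j, hj⟩ := List.mem_ofFn.1 hb
    have := congrArg Fin.val hj
    simp at this
    have := i.2
    omega
  refine (List.perm_ext_iff_of_nodup h1 (List.nodup_finRange _)).2 fun a => ?_
  refine ⟨fun _ => List.mem_finRange a, fun _ => ?_⟩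
  refine Fin.addCases (fun i => ?_) (fun i => ?_) a
  · exact List.mem_append_left _ (List.mem_ofFn.2 ⟨i, rfl⟩)
  · exact List.mem_append_right _ (List.mem_ofFn.2 ⟨i, rfl⟩)

lemma app_l (x y : Fin k → ℕ) : Fin.append x y ∘ Fin.castAdd k = x := by
  funext i
  exact Fin.append_left x y i

lemma app_r (x y : Fin k → ℕ) : Fin.append x y ∘ Fin.natAdd k = y := by
  funext i
  exact Fin.append_right x y i

/-- Two cells. -/
lemma cells_two {H : HSys M N} {B z : List ℕ} (hBz : B ⊆ z) {V : Ultrafilter (Fin k → ℕ)}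
    {x y : ℕ → Fin k → ℕ} (hx : ∀ i, PA H B V (Az z i) (x i)) (hy : ∀ i, PA H B V (Az z i) (y i))
    (hxy : ∀ i, Fr H B (Az z i ++ List.ofFn (x i)) (y i) ∨
      Fr H B (Az z i ++ List.ofFn (y i)) (x i)) :
    Cells M H B z V (fun i => Fin.append (x i) (y i)) [JL k, JR k] := by
  have hl : ∀ i, (JL k).map (Fin.append (x i) (y i)) = List.ofFn (x i) := by
    intro i
    unfold JL
    rw [List.map_ofFn, app_l]
  have hr : ∀ i, (JR k).map (Fin.append (x i) (y i)) = List.ofFn (y i) := by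
    intro i
    unfold JR
    rw [List.map_ofFn, app_r]
  refine ⟨by simpa using jlr_perm k, fun J hJ => ?_, fun i J hJ => ?_, fun i => ?_, fun i => ?_⟩
  · rcases List.mem_cons.1 hJ with rfl | hJ
    · exact List.length_ofFn
    · rw [List.mem_singleton] at hJ
      subst hJ
      exact List.length_ofFn
  · rcases List.mem_cons.1 hJ with rfl | hJ
    · exact ⟨x i, hx i, (hl i).symm⟩
    · rw [List.mem_singleton] at hJ
      subst hJ
      exact ⟨y i, hy i, (hr i).symm⟩
  · rcases hxy i with h | h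
    · refine ⟨[JR k, JL k], List.Perm.swap _ _ _, ?_, ?_, trivial⟩
      · have h1 : Free H B (Az z i ++ List.ofFn (x i)) (List.ofFn (y i)) := (fr_list rfl).1 h
        simpa [hl, hr] using h1
      · have h1 : Free H B (Az z i) (List.ofFn (x i)) := (fr_list rfl).1 (hx i).2.2
        simpa [hl] using h1
    · refine ⟨[JL k, JR k], List.Perm.refl _, ?_, ?_, trivial⟩
      · have h1 : Free H B (Az z i ++ List.ofFn (y i)) (List.ofFn (x i)) := (fr_list rfl).1 h
        simpa [hl, hr] using h1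
      · have h1 : Free H B (Az z i) (List.ofFn (y i)) := (fr_list rfl).1 (hy i).2.2
        simpa [hr] using h1
  · rw [Fin.append_injective_iff]
    refine ⟨(hx i).1, (hy i).1, fun a b hab => ?_⟩
    rcases hxy i with h | h
    · have h1 : Free H B (Az z i ++ List.ofFn (x i)) [y i b] := fr_free.1 h b
      refine free_notMem (fun c hc => List.mem_append_left _ (az_sub (hBz hc))) h1 (y i b)
        (by simp) (List.mem_append_right _ (List.mem_ofFn.2 ⟨a, hab⟩))
    · have h1 : Free H B (Az z i ++ List.ofFn (y i)) [x i a] := fr_free.1 h a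
      refine free_notMem (fun c hc => List.mem_append_left _ (az_sub (hBz hc))) h1 (x i a)
        (by simp) (List.mem_append_right _ (List.mem_ofFn.2 ⟨b, hab.symm⟩))

/-- (b) -/
theorem b_one (pb : PB) (pt : PT) {r : ℕ} {H : HSys M N} {B z : List ℕ}
    {V : Ultrafilter (Fin k → ℕ)} (cx : Ctx M H r k B z V) (z1 : List ℕ) {S0 S1 : Fin k → ℕ}
    (hS : Rz M (prU V V) z1 (Sum.elim S0 S1))
    (has : ∀ x y, LTp M z1 S0 S1 x y → ¬ LTp M z1 S0 S1 y x) : ∃ i, ∀ x y v,
      PA H B V (Az z i) x → PA H B V (Az z i) y → PA H B V (Az z i) v →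
      Fr H B (Az z i ++ (List.ofFn x ++ List.ofFn y)) v →
      (Fr H B (Az z i ++ List.ofFn x) y ∨ Fr H B (Az z i ++ List.ofFn y) x) →
        ¬ (LTp M z1 S0 S1 v x ∧ LTp M z1 S0 S1 x y ∧ LTp M z1 S0 S1 y v) := by
  by_contra hcon
  push Not at hcon
  choose x y v hx hy hv hf hxy hn1 hn2 hn3 using hcon
  have hcells := cells_two cx.hBz hx hy hxy
  have hofn : ∀ i, List.ofFn (Fin.append (x i) (y i)) = List.ofFn (x i) ++ List.ofFn (y i) :=
    fun i => List.ofFn_fin_append _ _
  obtain ⟨W, hW, hWv⟩ := exists_W (c := fun i => Fin.append (x i) (y i)) cx.hBz hv (by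
    intro i
    rw [hofn]
    exact hf i)
  obtain ⟨z2, hzz2, hz2⟩ := arr pb cx.hA cx.hF cx.hs cx.hk cx.hQ cx.hz cx.hV cx.hns hW
    (c := fun i => Fin.append (x i) (y i)) (fun i => hcells.inj i) (fun b a => by
      filter_upwards [eventually_gt_atTop a] with i hi
      refine Fin.addCases (fun b => ?_) (fun b => ?_) b
      · rw [Fin.append_left]
        exact pa_ne cx.hBz (hx i) (mem_az hi) b
      · rw [Fin.append_right]
        exact pa_ne cx.hBz (hy i) (mem_az hi) b)
  set z'' := z2 ++ z1 with hz''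
  have hzz : z1 ⊆ z'' := List.subset_append_right _ _
  obtain ⟨T, af⟩ := hz2 z'' (List.subset_append_left _ _)
  obtain ⟨h1, cl, In, hcl, hIn, hSP⟩ := hub_top pt.topc cx.hA cx.hF cx.hk cx.hQ cx.hz cx.hBz cx.hV
    cx.hns hW hcells (fun a ha => List.mem_append_left _ (hzz2 ha)) af
  obtain ⟨p, hp⟩ := af.real fun _ => 1
  have hrt : RT M z'' T p := hp
  obtain ⟨S, hS'⟩ := (rz_ev cx.hA cx.hF (prU V V) z'').exists
  have hSe : Sum.elim (S ∘ Sum.inl) (S ∘ Sum.inr) = S := Sum.elim_comp_inl_inr S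
  rw [← hSe] at hS'
  obtain ⟨h3, h4⟩ := pair_rel pb pt cx hS' hW (R0 := p ∘ rwf 0 0) (R1 := p ∘ rwf 1 0) (by
    filter_upwards [af.evr] with i hi
    filter_upwards [hi] with y hy
    filter_upwards [hy] with y' hy'
    rw [row_eq, row_eq, rt2 hrt (fun a => v1_row 0 a) fun a => v1_row 1 a] at hy'
    exact hy')
  have h6 : Eqf M z1 (Sum.elim (S ∘ Sum.inl) (S ∘ Sum.inr)) (Sum.elim S0 S1) :=
    rz_eqf (hS'.mono hzz) hS
  have hfin : ∀ a b, LTp M z'' (S ∘ Sum.inl) (S ∘ Sum.inr) a b → LTp M z1 S0 S1 a b :=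
    fun a b h => (h.mono hzz).congrS h6
  obtain ⟨i1, hi1⟩ := a_one pb pt cx z'' hS'
  obtain ⟨i, hi2, hi3, hi4⟩ := (af.ev1.and ((uh_of_atTop (eventually_ge_atTop i1)).and
    (uh_of_atTop (az_ev z z'')))).exists
  obtain ⟨w, hw1, hw2⟩ := (hi2.and (rz_ev cx.hA cx.hF (W i)
    (Az z i ++ List.ofFn (Fin.append (x i) (y i))))).exists
  rw [hubA_eq, row_eq, rt2 hrt v1_hub fun a => v1_row 0 a] at hw1
  have hE : Eqf M z'' (Sum.elim (p ∘ hbf) (p ∘ rwf 0 0)) (Sum.elim (Fin.append (x i) (y i)) (v i)) :=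
    hw1.trans (rz_pair hw2 (hWv i) (fun a ha => List.mem_append_left _ (hi4 ha))
      fun a => List.mem_append_right _ (List.mem_ofFn.2 ⟨a, rfl⟩))
  have hsub : Az z i1 ⊆ Az z i := az_mono hi3
  have hx' := (hx i).mono hsub
  have hy' := (hy i).mono hsub
  have hv' := (hv i).mono hsub
  -- the relation over z''
  have c1 : LTp M z'' (S ∘ Sum.inl) (S ∘ Sum.inr) (v i) (x i) := by
    rcases hi1 (x i) (v i) hx' hv' (fr_mono (by
      intro a ha
      rcases List.mem_append.1 ha with ha | ha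
      · exact List.mem_append_left _ (hsub ha)
      · exact List.mem_append_right _ (List.mem_append_left _ ha)) (hf i)) with h | h
    · exact absurd (hn1 i) (has _ _ (hfin _ _ h))
    · exact h
  have c2 : LTp M z'' (S ∘ Sum.inl) (S ∘ Sum.inr) (y i) (v i) := by
    rcases hi1 (y i) (v i) hy' hv' (fr_mono (by
      intro a ha
      rcases List.mem_append.1 ha with ha | ha
      · exact List.mem_append_left _ (hsub ha)
      · exact List.mem_append_right _ (List.mem_append_right _ ha)) (hf i)) with h | h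
    · exact h
    · exact absurd (hn3 i) (has _ _ (hfin _ _ h))
  have c3 : LTp M z'' (S ∘ Sum.inl) (S ∘ Sum.inr) (x i) (y i) := by
    rcases hxy i with h0 | h0
    · rcases hi1 (x i) (y i) hx' hy' (fr_mono (by
        intro a ha
        rcases List.mem_append.1 ha with ha | ha
        · exact List.mem_append_left _ (hsub ha)
        · exact List.mem_append_right _ ha) h0) with h | h
      · exact h
      · exact absurd (hn2 i) (has _ _ (hfin _ _ h))
    · rcases hi1 (y i) (x i) hy' hx' (fr_mono (by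
        intro a ha
        rcases List.mem_append.1 ha with ha | ha
        · exact List.mem_append_left _ (hsub ha)
        · exact List.mem_append_right _ ha) h0) with h | h
      · exact absurd (hn2 i) (has _ _ (hfin _ _ h))
      · exact h
  -- the type has no symmetric pairs
  have hG := pt.s2g (k + k) k (List ℕ → C) T af.ax.pat af.ax.ft af.last (by
    rw [row_eq, row_eq, Ne, rt2' hrt (fun a => v1_row 1 a) (fun a => v1_row 0 a)
      (fun a => v1_row 0 a) fun a => v1_row 1 a]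
    intro h
    rcases h3 with h3 | h3
    · exact has _ _ (hfin _ _ h3) (hfin _ _ (h3.congr h.symm))
    · exact has _ _ (hfin _ _ h3) (hfin _ _ (h3.congr h)))
  -- transfer to the array
  have hl : p ∘ (hbf ∘ Fin.castAdd k) = (p ∘ hbf) ∘ Fin.castAdd k := rfl
  have hr : p ∘ (hbf ∘ Fin.natAdd k) = (p ∘ hbf) ∘ Fin.natAdd k := rfl
  have e1 : Eqf M z'' (Sum.elim (v i) (x i)) (Sum.elim (p ∘ rwf 0 0) ((p ∘ hbf) ∘ Fin.castAdd k)) := by
    have := hE.symm.swap.prod (id : Fin k → Fin k) (Fin.castAdd k)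
    rwa [app_l] at this
  have e2 : Eqf M z'' (Sum.elim (v i) (y i)) (Sum.elim (p ∘ rwf 0 0) ((p ∘ hbf) ∘ Fin.natAdd k)) := by
    have := hE.symm.swap.prod (id : Fin k → Fin k) (Fin.natAdd k)
    rwa [app_r] at this
  have e3 : Eqf M z'' (Sum.elim (x i) (y i))
      (Sum.elim ((p ∘ hbf) ∘ Fin.castAdd k) ((p ∘ hbf) ∘ Fin.natAdd k)) := by
    have h7 := hE.symm.left.comp (Sum.elim (Fin.castAdd k) (Fin.natAdd k))
    have e : ∀ f : Fin (k + k) → ℕ, f ∘ Sum.elim (Fin.castAdd k) (Fin.natAdd k) =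
        Sum.elim (f ∘ Fin.castAdd k) (f ∘ Fin.natAdd k) := by
      intro f
      funext a
      rcases a with a | a <;> rfl
    rwa [e, e, app_l, app_r] at h7
  have hcell : ∀ J, J = JL k ∨ J = JR k → T (hub 0 J) = T (row 0 0) := by
    rintro J (rfl | rfl)
    · exact h1 _ (by simp)
    · exact h1 _ (by simp)
  have hlr : ∀ b b', cl b = cl b' ↔ (b ∈ JL k ∧ b' ∈ JL k) ∨ (b ∈ JR k ∧ b' ∈ JR k) := by
    intro b b'
    rw [hcl]
    simp
  rcases h3 with h3 | h3
  · have d1 : LTp M z'' (p ∘ rwf 0 0) (p ∘ rwf 1 0) (v i) (x i) := h3.inv.of c1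
    have d2 : LTp M z'' (p ∘ rwf 0 0) (p ∘ rwf 1 0) (x i) (y i) := h3.inv.of c3
    have d3 : LTp M z'' (p ∘ rwf 0 0) (p ∘ rwf 1 0) (y i) (v i) := h3.inv.of c2
    refine pt.s2b (k + k) k (List ℕ → C) T cl In (JL k) (JR k) cx.hk af.ax.pat af.ax.ft af.last
      hIn hSP (jlr_perm k) List.length_ofFn List.length_ofFn hlr (hcell _ (Or.inl rfl))
      (hcell _ (Or.inr rfl)) hG ?_ ?_ ?_
    · rw [row_eq]
      unfold JL
      rw [hub_eq, lt_iff hrt (f := rwf 0 0) (g := hbf ∘ Fin.castAdd k) (fun a => v1_row 0 a)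
        fun a => v1_hub _]
      exact d1.congr e1
    · unfold JL JR
      rw [hub_eq, hub_eq, lt_iff hrt (f := hbf ∘ Fin.castAdd k) (g := hbf ∘ Fin.natAdd k)
        (fun a => v1_hub _) fun a => v1_hub _]
      exact d2.congr e3
    · rw [row_eq]
      unfold JR
      rw [hub_eq, lt_iff hrt (f := hbf ∘ Fin.natAdd k) (g := rwf 0 0) (fun a => v1_hub _)
        fun a => v1_row 0 a]
      exact d3.congr e2.swap
  · have d1 : LTp M z'' (p ∘ rwf 0 0) (p ∘ rwf 1 0) (x i) (v i) := h3.rev' h4 c1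
    have d2 : LTp M z'' (p ∘ rwf 0 0) (p ∘ rwf 1 0) (y i) (x i) := h3.rev' h4 c3
    have d3 : LTp M z'' (p ∘ rwf 0 0) (p ∘ rwf 1 0) (v i) (y i) := h3.rev' h4 c2
    refine pt.s2b (k + k) k (List ℕ → C) T cl In (JR k) (JL k) cx.hk af.ax.pat af.ax.ft af.last
      hIn hSP (List.perm_append_comm.trans (jlr_perm k)) List.length_ofFn List.length_ofFn
      (fun b b' => (hlr b b').trans Or.comm) (hcell _ (Or.inr rfl))
      (hcell _ (Or.inl rfl)) hG ?_ ?_ ?_
    · rw [row_eq]
      unfold JR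
      rw [hub_eq, lt_iff hrt (f := rwf 0 0) (g := hbf ∘ Fin.natAdd k) (fun a => v1_row 0 a)
        fun a => v1_hub _]
      exact d3.congr e2
    · unfold JL JR
      rw [hub_eq, hub_eq, lt_iff hrt (f := hbf ∘ Fin.natAdd k) (g := hbf ∘ Fin.castAdd k)
        (fun a => v1_hub _) fun a => v1_hub _]
      exact d2.congr e3.swap
    · rw [row_eq]
      unfold JL
      rw [hub_eq, lt_iff hrt (f := hbf ∘ Fin.castAdd k) (g := rwf 0 0) (fun a => v1_hub _)
        fun a => v1_row 0 a]
      exact d1.congr e1.swap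

end Pool.Agent.H76.HI
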