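import Pool.Agent.H76.HI.SB
import Pool.Agent.H76.HI.GE

/-!
# Symmetry, two members: the conclusion
-/

set_option autoImplicit false

namespace Pool.Agent.H76.HI

open Set Pool.Agent.H41.HI Pool.Agent.H75.HCI Pool.Agent.H16.FK Filter

variable {C : Type} {M : List ℕ → C} {N : Subgroup (Equiv.Perm ℕ)} {k kc : ℕ}

lemma map_elim {I : Type} {g : ℕ → ℕ} {z : List ℕ} (hg : ∀ x ∈ z, g x = x) (x : I → ℕ)
    {l : List (ℕ ⊕ I)} (hl : Mks z l) :
    (l.map (Sum.elim id x)).map g = l.map (Sum.elim id (g ∘ x)) := by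
  rw [List.map_map]
  refine List.map_congr_left fun a ha => ?_
  rcases a with a | a
  · exact hg a (hl a ha)
  · rfl

lemma same_set {x u : Fin k → ℕ} (hu : Function.Injective u)
    (h : ∀ a, a ∈ List.ofFn u ↔ a ∈ List.ofFn x) : ∃ σ : Equiv.Perm (Fin k), u = x ∘ σ := by
  have h1 : ∀ i, ∃ j, x j = u i := fun i =>
    List.mem_ofFn.1 ((h (u i)).1 (List.mem_ofFn.2 ⟨i, rfl⟩))
  choose f hf using h1
  have hfi : Function.Injective f := by
    intro i j hij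
    apply hu
    rw [← hf i, ← hf j, hij]
  exact ⟨Equiv.ofBijective f (Finite.injective_iff_bijective.1 hfi), funext fun i => (hf i).symm⟩

/-- The order of the free cells is impossible. -/
theorem two_false (pb : PB) (pt : PT) {r : ℕ} {H : HSys M N} {B z : List ℕ}
    {V : Ultrafilter (Fin k → ℕ)} (cx : Ctx M H r k B z V) {z1 : List ℕ} {S0 S1 : Fin k → ℕ}
    (hS : Rz M (prU V V) z1 (Sum.elim S0 S1)) (hzz1 : z ⊆ z1)
    (has : ∀ x y, LTp M z1 S0 S1 x y → ¬ LTp M z1 S0 S1 y x) : False := by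
  obtain ⟨ia, ha⟩ := a_one pb pt cx z1 hS
  obtain ⟨ib, hb⟩ := b_one pb pt cx z1 hS has
  obtain ⟨i, hi1, hi2, hi3⟩ := ((eventually_ge_atTop ia).and ((eventually_ge_atTop ib).and
    (az_ev z z1))).exists
  have hsa : Az z ia ⊆ Az z i := az_mono hi1
  have hsb : Az z ib ⊆ Az z i := az_mono hi2
  have hBA : B ⊆ Az z i := fun a h => az_sub (cx.hBz h)
  refine chain_false H cx.hs B (Az z i) z1 hBA hi3
    (fun u => ∃ x, PA H B V (Az z i) x ∧ List.ofFn x = u)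
    (fun u w => ∃ x y : Fin k → ℕ, u = List.ofFn x ∧ w = List.ofFn y ∧ LTp M z1 S0 S1 x y)
    (fun u => ∃ x : Fin k → ℕ, Function.Injective x ∧ Rz M V z1 x ∧ List.ofFn x = u)
    ?_ ?_ ?_ ?_ ?_ ?_ ?_ ?_ ?_ ?_ ?_ ?_
  · rintro _ ⟨x, hx, rfl⟩
    exact (fr_list rfl).1 hx.2.2
  · rintro _ ⟨x, hx, rfl⟩ h
    have := congrArg List.length h
    rw [List.length_ofFn, List.length_nil] at this
    have := cx.hk
    omega
  · rintro _ ⟨x, hx, rfl⟩ p hp
    refine ⟨p.1 ∘ x, ⟨p.1.injective.comp hx.1, fun l hl => ?_, ?_⟩, by rw [List.map_ofFn]⟩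
    · rw [← map_elim hp.2.1 x hl, lab_map hp.1]
      exact hx.2.1 l hl
    · refine (fr_list (List.map_ofFn ..).symm).2 ?_
      have h1 : Free H B (Az z i) (List.ofFn x) := (fr_list rfl).1 hx.2.2
      have h2 := free_map (KX_mono hBA hp) h1
      rwa [map_fix hp.2.1] at h2
  · rintro _ ⟨x, hx, rfl⟩
    exact ⟨x, hx.1, hx.2.1.mono hi3, rfl⟩
  · rintro g _ hg hM hz ⟨x, hx1, hx2, rfl⟩
    refine ⟨g ∘ x, ?_, fun l hl => ?_, by rw [List.map_ofFn]⟩
    · intro a b hab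
      refine hx1 (hg _ ?_ _ ?_ hab)
      · exact List.mem_append_right _ (List.mem_ofFn.2 ⟨a, rfl⟩)
      · exact List.mem_append_right _ (List.mem_ofFn.2 ⟨b, rfl⟩)
    · rw [← map_elim hz x hl, hM]
      · exact hx2 l hl
      · intro a ha'
        obtain ⟨b, hb', rfl⟩ := List.mem_map.1 ha'
        rcases b with b | b
        · exact List.mem_append_left _ (hl b hb')
        · exact List.mem_append_right _ (List.mem_ofFn.2 ⟨b, rfl⟩)
  · rintro g _ _ hM hz ⟨x, y, rfl, rfl, hxy⟩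
    refine ⟨g ∘ x, g ∘ y, by rw [List.map_ofFn], by rw [List.map_ofFn], hxy.congr ?_⟩
    intro l hl
    have e : Sum.elim (g ∘ x) (g ∘ y) = g ∘ Sum.elim x y := (Sum.comp_elim _ _ _).symm
    rw [e, ← map_elim hz _ hl, hM]
    intro a ha'
    obtain ⟨b, hb', rfl⟩ := List.mem_map.1 ha'
    rcases b with b | b | b
    · exact List.mem_append_left _ (hl b hb')
    · exact List.mem_append_right _ (List.mem_append_left _ (List.mem_ofFn.2 ⟨b, rfl⟩))
    · exact List.mem_append_right _ (List.mem_append_right _ (List.mem_ofFn.2 ⟨b, rfl⟩))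
  · rintro _ _ ⟨x, hx, rfl⟩ ⟨v, hv, rfl⟩ hf
    rcases ha x v (hx.mono hsa) (hv.mono hsa) (fr_mono (by
      intro a h
      rcases List.mem_append.1 h with h | h
      · exact List.mem_append_left _ (hsa h)
      · exact List.mem_append_right _ h) ((fr_list rfl).2 hf)) with h | h
    · exact Or.inl ⟨x, v, rfl, rfl, h⟩
    · exact Or.inr ⟨v, x, rfl, rfl, h⟩
  · rintro _ _ _ ⟨x, hx, rfl⟩ ⟨y, hy, rfl⟩ ⟨v, hv, rfl⟩ hf hxy ⟨h1, h2, h3⟩
    obtain ⟨a1, a2, e1, e2, h1⟩ := h1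
    obtain ⟨a3, a4, e3, e4, h2⟩ := h2
    obtain ⟨a5, a6, e5, e6, h3⟩ := h3
    rw [List.ofFn_inj] at e1 e2 e3 e4 e5 e6
    subst e1 e2 e3 e4 e5 e6
    refine hb x y v (hx.mono hsb) (hy.mono hsb) (hv.mono hsb) (fr_mono (by
      intro a h
      rcases List.mem_append.1 h with h | h
      · exact List.mem_append_left _ (hsb h)
      · exact List.mem_append_right _ h) ((fr_list rfl).2 hf)) ?_ ⟨h1, h2, h3⟩
    rcases hxy with h | h
    · left
      refine fr_mono ?_ ((fr_list rfl).2 h)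
      intro a h
      rcases List.mem_append.1 h with h | h
      · exact List.mem_append_left _ (hsb h)
      · exact List.mem_append_right _ h
    · right
      refine fr_mono ?_ ((fr_list rfl).2 h)
      intro a h
      rcases List.mem_append.1 h with h | h
      · exact List.mem_append_left _ (hsb h)
      · exact List.mem_append_right _ h
  · rintro _ _ ⟨x, y, rfl, rfl, h1⟩ ⟨y', x', e1, e2, h2⟩
    rw [List.ofFn_inj] at e1 e2
    subst e1 e2
    exact has _ _ h1 h2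
  · rintro cs hcs hind _ ⟨x, hx1, hx2, rfl⟩ hu
    exact mx_list cx.hF cx.hk cx.hQ cx.hz cx.hBz az_sub cx.hV cx.hns cs hcs hind x hx1
      (hx2.mono hzz1) fun i => hu _ (List.mem_ofFn.2 ⟨i, rfl⟩)
  · rintro _ _ _ _ ⟨u, hu1, hu2, rfl⟩ ⟨w, hw1, hw2, rfl⟩ ⟨x, hx, rfl⟩ ⟨y, hy, rfl⟩ hux hwy
      ⟨u', w', e1, e2, h⟩
    rw [List.ofFn_inj] at e1 e2
    subst e1 e2
    obtain ⟨σ, rfl⟩ := same_set hu1 hux
    obtain ⟨τ, rfl⟩ := same_set hw1 hwy
    refine ⟨x, y, rfl, rfl, ?_⟩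
    obtain ⟨a, b, h3, h4, h5⟩ := h
    have hxV : Rz M V z1 x := hx.2.1.mono hi3
    have hyV : Rz M V z1 y := hy.2.1.mono hi3
    have hSV : Rz M V z1 S0 := rz_fst cx.hF hS
    have h6 : Eqf M z1 (S0 ∘ σ) S0 := gm_congr (rz_eqf hxV hSV) (rz_eqf hu2 hxV)
    have h7 : Eqf M z1 (S0 ∘ τ) S0 := gm_congr (rz_eqf hyV hSV) (rz_eqf hw2 hyV)
    refine ⟨a * σ⁻¹, b * τ⁻¹, gm_mul h3 (gm_inv h6), gm_mul h4 (gm_inv h7), ?_⟩
    have h8 := h5.prod ⇑σ⁻¹ ⇑τ⁻¹
    have e : ∀ (S : Fin k → ℕ) (σ : Equiv.Perm (Fin k)), (S ∘ σ) ∘ ⇑σ⁻¹ = S := by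
      intro S σ
      funext i
      simp
    rw [e, e] at h8
    exact h8
  · obtain ⟨D, hD, -⟩ := exists_next cx.hA cx.hF (A := Az z i) cx.hV []
    exact ⟨_, D, hD, rfl⟩

/-- Two members: the case `n = 2`. -/
theorem symN_two (pb : PB) (pt : PT) {r : ℕ} {H : HSys M N} {B z : List ℕ}
    {V : Ultrafilter (Fin k → ℕ)} (cx : Ctx M H r k B z V) : H71.HCI.SymN M V 2 := by
  intro c σ
  by_contra hcon
  obtain ⟨z1, hzz1, hz1⟩ := asym pb pt cx
  have h1 : ∀ᶠ xs in (H71.HCI.pw V 2 : Filter (Fin 2 → Fin k → ℕ)),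
      ¬ ft M (c ++ H71.HCI.fl (xs ∘ σ)) = ft M (c ++ H71.HCI.fl xs) :=
    Ultrafilter.eventually_not.2 hcon
  rw [pw_ev, pw_ev] at h1
  obtain ⟨e, he⟩ := h1.exists
  have h3 : ∀ᶠ y in (V : Filter (Fin k → ℕ)), ∀ᶠ y' in (V : Filter (Fin k → ℕ)),
      Rz M (prU V V) (z1 ++ c) (Sum.elim y y') := prU_ev.1 (rz_ev cx.hA cx.hF (prU V V) (z1 ++ c))
  obtain ⟨S0, h4, h5⟩ := (he.and h3).exists
  obtain ⟨S1, h4', h5'⟩ := (h4.and h5).exists
  -- the permutation is the transposition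
  have hσ : σ = Equiv.swap 0 1 := by
    by_contra hne
    have h6 : σ = 1 := by
      have h7 : ∀ σ : Equiv.Perm (Fin 2), σ = 1 ∨ σ = Equiv.swap 0 1 := by decide
      exact (h7 σ).resolve_right hne
    subst h6
    exact h4' rfl
  subst hσ
  have e1 : H71.HCI.fl (Fin.snoc (α := fun _ => Fin k → ℕ) (Fin.snoc (α := fun _ => Fin k → ℕ) e S0)
      S1) = List.ofFn S0 ++ List.ofFn S1 := by
    unfold H71.HCI.fl
    simp only [List.ofFn_succ, List.ofFn_zero, List.flatten_cons, List.flatten_nil,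
      List.append_nil]
    rfl
  have e2 : H71.HCI.fl ((Fin.snoc (α := fun _ => Fin k → ℕ)
      (Fin.snoc (α := fun _ => Fin k → ℕ) e S0) S1) ∘ ⇑(Equiv.swap (0 : Fin 2) 1)) =
        List.ofFn S1 ++ List.ofFn S0 := by
    unfold H71.HCI.fl
    simp only [List.ofFn_succ, List.ofFn_zero, List.flatten_cons, List.flatten_nil,
      List.append_nil]
    rfl
  rw [e1, e2, ft_eqf2] at h4'
  refine two_false pb pt cx (z1 := z1 ++ c) h5' (fun a ha => List.mem_append_left _ (hzz1 ha)) ?_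
  exact hz1 (z1 ++ c) (List.subset_append_left _ _) S0 S1 h5' fun h =>
    h4' (h.mono (List.subset_append_right _ _))

end Pool.Agent.H76.HI
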