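import Pool.Agent.H76.HI.TS
import Pool.Agent.H76.HI.KC

/-!
# Separation, uniqueness, and cells
-/

set_option autoImplicit false

namespace Pool.Agent.H76.HI

open Set Pool.Agent.H41.HI Pool.Agent.H75.HCI Pool.Agent.H16.FK Pool.Agent.H71.HCI Filter

variable {C : Type} {M : List ℕ → C} {I J : Type} {N : Subgroup (Equiv.Perm ℕ)}

/-- The marks of `l` are in `z`. -/
def Mks {β : Type} (z : List ℕ) (l : List (ℕ ⊕ β)) : Prop := ∀ a, Sum.inl a ∈ l → a ∈ z

lemma Mks.mono {β : Type} {z z' : List ℕ} {l : List (ℕ ⊕ β)} (h : Mks z l) (hz : z ⊆ z') :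
    Mks z' l := fun a ha => hz (h a ha)

lemma Mks.map {β γ : Type} {z : List ℕ} {l : List (ℕ ⊕ β)} (h : Mks z l) (f : β → γ) :
    Mks z (l.map (Sum.map id f)) := by
  intro a ha
  obtain ⟨b, hb, hab⟩ := List.mem_map.1 ha
  rcases b with b | b
  · simp only [Sum.map_inl, id_eq, Sum.inl.injEq] at hab
    exact h a (hab ▸ hb)
  · simp at hab

lemma Mks.sb {I J : Type} {z : List ℕ} {l : List (ℕ ⊕ (I ⊕ J))} (h : Mks z l) (x : I → ℕ) :
    ∀ a, Sum.inl a ∈ l.map (sb x) → a ∈ z ∨ ∃ i, x i = a := by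
  intro a ha
  obtain ⟨b, hb, hab⟩ := List.mem_map.1 ha
  rcases b with b | b | b
  · exact Or.inl (h a (Sum.inl.inj hab ▸ hb))
  · exact Or.inr ⟨b, Sum.inl.inj hab⟩
  · exact absurd hab (by simp [Pool.Agent.H76.HI.sb])

/-- Finitely many lists can be put together. -/
lemma exists_list {ι : Type} [Finite ι] {P : ι → List ℕ → Prop}
    (hm : ∀ i z z', z ⊆ z' → P i z → P i z') (h : ∀ i, ∃ z, P i z) : ∃ z, ∀ i, P i z := by
  cases nonempty_fintype ι
  choose f hf using h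
  refine ⟨(Finset.univ : Finset ι).toList.flatMap f, fun i => hm i _ _ ?_ (hf i)⟩
  intro x hx
  rw [List.mem_flatMap]
  exact ⟨i, by simp, hx⟩

/-- The marks of a word. -/
lemma exists_marks {β : Type} (l : List (ℕ ⊕ β)) : ∃ z : List ℕ, Mks z l := by
  refine ⟨l.filterMap (Sum.elim some fun _ => none), fun a ha => ?_⟩
  rw [List.mem_filterMap]
  exact ⟨Sum.inl a, ha, rfl⟩

/-- Different types differ over finitely many marks. -/
lemma exists_sep1 {β : Type} (τ τ' : List (ℕ ⊕ β) → C) :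
    ∃ z : List ℕ, (∀ l, Mks z l → τ l = τ' l) → τ = τ' := by
  by_cases h : τ = τ'
  · exact ⟨[], fun _ => h⟩
  · obtain ⟨l, hl⟩ := Function.ne_iff.1 h
    obtain ⟨z, hz⟩ := exists_marks l
    exact ⟨z, fun h1 => absurd (h1 l hz) hl⟩

lemma exists_sep_fin {β : Type} (S : Set (List (ℕ ⊕ β) → C)) (hS : S.Finite) :
    ∃ z : List ℕ, ∀ τ ∈ S, ∀ τ' ∈ S, (∀ l, Mks z l → τ l = τ' l) → τ = τ' := by
  have : Finite (S × S) := by
    have := hS.to_subtype
    infer_instance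
  obtain ⟨z, hz⟩ := exists_list (ι := S × S)
    (P := fun q z => (∀ l, Mks z l → q.1.1 l = q.2.1 l) → q.1.1 = q.2.1)
    (fun q z z' hzz h1 h2 => h1 fun l hl => h2 l (hl.mono hzz))
    fun q => exists_sep1 q.1.1 q.2.1
  exact ⟨z, fun τ hτ τ' hτ' => hz (⟨τ, hτ⟩, ⟨τ', hτ'⟩)⟩

/-- `z` separates the types of the free ultrafilters on fewer than `k` points. -/
def SepK (H : HSys M N) (k : ℕ) (z : List ℕ) : Prop :=
  ∀ k' < k, ∀ W ∈ FKU H (Fin k'), ∀ W' ∈ FKU H (Fin k'),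
    (∀ l, Mks z l → typ M W l = typ M W' l) → typ M W = typ M W'

lemma SepK.mono {H : HSys M N} {k : ℕ} {z z' : List ℕ} (h : SepK H k z) (hz : z ⊆ z') :
    SepK H k z' := fun k' hk' W hW W' hW' h1 =>
  h k' hk' W hW W' hW' fun l hl => h1 l (hl.mono hz)

theorem exists_sepK {H : HSys M N} {k : ℕ} (hQ : ∀ k' < k, QQ H k') : ∃ z, SepK H k z := by
  obtain ⟨z, hz⟩ := exists_list (ι := Fin k)
    (P := fun k' z => ∀ W ∈ FKU H (Fin k'), ∀ W' ∈ FKU H (Fin k'),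
      (∀ l, Mks z l → typ M W l = typ M W' l) → typ M W = typ M W')
    (fun q z z' hzz h1 W hW W' hW' h2 => h1 W hW W' hW' fun l hl => h2 l (hl.mono hzz))
    fun k' => by
      obtain ⟨z, hz⟩ := exists_sep_fin _ (hQ k' k'.2).2
      exact ⟨z, fun W hW W' hW' => hz _ ⟨W, hW, rfl⟩ _ ⟨W', hW', rfl⟩⟩
  exact ⟨z, fun k' hk' => hz ⟨k', hk'⟩⟩

/-- `V` is not weakly split over `z`. -/
def SepV (M : List ℕ → C) {k : ℕ} (V : Ultrafilter (Fin k → ℕ)) (z : List ℕ) : Prop :=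
  ∀ (a b : ℕ) (e : Fin a ⊕ Fin b ≃ Fin k), 0 < a → 0 < b → ¬ ∀ l, Mks z l → typ M V l =
    typ M (re (prU (re V (e ∘ Sum.inl)) (re V (e ∘ Sum.inr))) e.symm) l

lemma SepV.mono {k : ℕ} {V : Ultrafilter (Fin k → ℕ)} {z z' : List ℕ} (h : SepV M V z)
    (hz : z ⊆ z') : SepV M V z' := fun a b e ha hb h1 =>
  h a b e ha hb fun l hl => h1 l (hl.mono hz)

theorem exists_sepV {k : ℕ} {V : Ultrafilter (Fin k → ℕ)} (hV : ¬ WSplit M V) :
    ∃ z, SepV M V z := by
  let D : Type := Σ a : Fin (k + 1), Σ b : Fin (k + 1), Fin a ⊕ Fin b ≃ Fin k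
  have : Finite D := inferInstance
  obtain ⟨z, hz⟩ := exists_list (ι := D)
    (P := fun d z => 0 < (d.1 : ℕ) → 0 < (d.2.1 : ℕ) → ¬ ∀ l, Mks z l → typ M V l =
      typ M (re (prU (re V (d.2.2 ∘ Sum.inl)) (re V (d.2.2 ∘ Sum.inr))) d.2.2.symm) l)
    (fun d z z' hzz h1 ha hb h2 => h1 ha hb fun l hl => h2 l (hl.mono hzz))
    fun d => by
      obtain ⟨z, hz⟩ := exists_sep1 (typ M V)
        (typ M (re (prU (re V (d.2.2 ∘ Sum.inl)) (re V (d.2.2 ∘ Sum.inr))) d.2.2.symm))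
      exact ⟨z, fun ha hb h => hV ⟨_, _, d.2.2, ha, hb, hz h⟩⟩
  refine ⟨z, fun a b e ha hb => ?_⟩
  have h3 := Fintype.card_congr e
  rw [Fintype.card_sum, Fintype.card_fin, Fintype.card_fin, Fintype.card_fin] at h3
  exact hz ⟨⟨a, by omega⟩, ⟨b, by omega⟩, e⟩ ha hb

/-- (4.0) -/
theorem uni {H : HSys M N} {k : ℕ} {z : List ℕ} (hz : SepK H k z) {X : List ℕ} (hzX : z ⊆ X)
    {k' : ℕ} (hk' : k' < k) {D : Fin k' → ℕ} (hinj : Function.Injective D) (hfr : Fr H X X D)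
    {W : Ultrafilter (Fin k' → ℕ)} (hW : W ∈ FKU H (Fin k')) (hR : Rz M W z D) : Rz M W X D := by
  obtain ⟨V, hV, -, hVX⟩ := exists_V H (fun x hx => hx) hinj hfr
  have h1 : typ M V = typ M W := hz k' hk' V ⟨X, hV⟩ W hW fun l hl => by
    rw [← hR l hl, ← hVX l (hl.mono hzX)]
  intro l hl
  rw [hVX l hl, h1]

/-- (4.1) -/
theorem four_one (hF : FinL M) {H : HSys M N} {k : ℕ} (hQ : ∀ k' < k, QQ H k') {z : List ℕ}
    (hz : SepK H k z) {m : ℕ} (hm : m < k) {E : Fin m → ℕ} (hE : Function.Injective E)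
    (hfr : Fr H z z E) {k' : ℕ} (hk' : k' < k) {P : Ultrafilter (Fin k' → ℕ)}
    (hP : P ∈ FKB H z (Fin k')) {W : Ultrafilter (Fin m → ℕ)} (hW : W ∈ FKU H (Fin m))
    (hR : Rz M W z E) (l : List (ℕ ⊕ (Fin m ⊕ Fin k'))) (hl : Mks z l) :
    typ M P (l.map (sb E)) = typ M (prU W P) l := by
  obtain ⟨V, hV, hVg, hVX⟩ := exists_V H (fun x hx => hx) hE hfr
  have h1 : typ M V = typ M W := hz m hm V ⟨z, hV⟩ W hW fun l hl => by
    rw [← hR l hl, ← hVX l hl]
  have hPnp : NP P := fkb_np hP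
  have h2 : typ M (prU W P) = typ M (prU V P) := by
    rw [(hQ m hm).1 W hW (Fin k') P hPnp, (hQ m hm).1 V ⟨z, hV⟩ (Fin k') P hPnp]
    funext l
    rw [typ_re hF, typ_re hF]
    symm
    rw [typ_pr hF]
    have h3 := (typ_pr hF (V := P) (U := W) (l := l.map (Sum.map id Sum.swap)) (y := _)).1 rfl
    filter_upwards [h3] with x hx
    rw [h1, hx]
  rw [h2]
  symm
  rw [typ_pr hF]
  filter_upwards [hVg] with x hx
  obtain ⟨p, hp, rfl⟩ := hx
  have h3 : gU p.1 P ∈ FKB H z (Fin k') := gU_mem (fun x hx => hx) hp hP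
  have h4 : typ M (gU p.1 P) = typ M P := hz k' hk' _ ⟨z, h3⟩ _ ⟨z, hP⟩ fun l hl =>
    gU_typ_fix hF hp P hl
  have h5 : l.map (sb (p.1 ∘ E)) = (l.map (sb E)).map (Sum.map p.1 id) := by
    rw [List.map_map]
    refine List.map_congr_left fun a ha => ?_
    rcases a with a | a | a
    · exact congrArg Sum.inl (hp.2.1 a (hl a ha)).symm
    · rfl
    · rfl
  rw [h5, ← h4, gU_typ hF hp.1, h4]

/-- The free tuples over the base which realise the type of `V` over `A`. -/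
def PA (H : HSys M N) (B : List ℕ) {k : ℕ} (V : Ultrafilter (Fin k → ℕ)) (A : List ℕ)
    (D : Fin k → ℕ) : Prop := Function.Injective D ∧ Rz M V A D ∧ Fr H B A D

/-- A nonsplit type is not realised by two independent parts. -/
theorem mx_core (hF : FinL M) {H : HSys M N} {k : ℕ} (hQ : ∀ k' < k, QQ H k') {B z : List ℕ}
    (hz : SepK H k z) (hBz : B ⊆ z) {V : Ultrafilter (Fin k → ℕ)} (hV : V ∈ FKB H B (Fin k))
    (hns : SepV M V z) {D : Fin k → ℕ} (hinj : Function.Injective D) (hR : Rz M V z D) {a b : ℕ}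
    (e : Fin b ⊕ Fin a ≃ Fin k) (ha : 0 < a) (hb : 0 < b) (h1 : Fr H z z (D ∘ e ∘ Sum.inl))
    {X : List ℕ} (hX : z ++ List.ofFn (D ∘ e ∘ Sum.inl) ⊆ X) (h2 : Fr H B X (D ∘ e ∘ Sum.inr)) :
    False := by
  have hcard := Fintype.card_congr e
  rw [Fintype.card_sum, Fintype.card_fin, Fintype.card_fin, Fintype.card_fin] at hcard
  have hak : a < k := by omega
  have hbk : b < k := by omega
  have i1 : Function.Injective (e ∘ Sum.inl) := e.injective.comp Sum.inl_injective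
  have i2 : Function.Injective (e ∘ Sum.inr) := e.injective.comp Sum.inr_injective
  have hVz : V ∈ FKB H z (Fin k) := fkb_mono hBz hV
  have hW : re V (e ∘ Sum.inl) ∈ FKB H z (Fin b) := fkb_re hVz i1
  have hP : re V (e ∘ Sum.inr) ∈ FKB H z (Fin a) := fkb_re hVz i2
  have hzX' : z ⊆ z ++ List.ofFn (D ∘ e ∘ Sum.inl) := List.subset_append_left _ _
  have h3 : Rz M (re V (e ∘ Sum.inr)) (z ++ List.ofFn (D ∘ e ∘ Sum.inl)) (D ∘ e ∘ Sum.inr) := by
    refine uni hz hzX' hak (hinj.comp i2) ?_ ⟨z, hP⟩ (rz_re hF hR _)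
    intro i hs
    refine h2 i (Finset.Subset.trans (H.mono _ _ ?_) (Finset.Subset.trans hs (H.mono _ _ hX)))
    intro x hx
    rcases List.mem_append.1 hx with hx | hx
    · exact List.mem_append_left _ (hzX' (hBz hx))
    · exact List.mem_append_right _ hx
  refine hns b a e hb ha fun l hl => ?_
  rw [typ_re hF, ← four_one hF hQ hz hbk (hinj.comp i1) h1 hak hP ⟨z, hW⟩ (rz_re hF hR _) _
    (hl.map _), ← hR l hl, ← h3]
  · rw [List.map_map, List.map_map]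
    congr 1
    refine List.map_congr_left fun c _ => ?_
    rcases c with c | c
    · rfl
    · change D c = Sum.elim id (D ∘ e ∘ Sum.inr) (sb (D ∘ e ∘ Sum.inl) (Sum.inr (e.symm c)))
      rw [sb_elim]
      change D c = Sum.elim (D ∘ e ∘ Sum.inl) (D ∘ e ∘ Sum.inr) (e.symm c)
      obtain ⟨d, rfl⟩ := e.surjective c
      rw [Equiv.symm_apply_apply]
      rcases d with d | d <;> rfl
  · intro c hc
    rcases (hl.map e.symm).sb _ c hc with h | ⟨i, hi⟩
    · exact List.mem_append_left _ h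
    · exact List.mem_append_right _ (List.mem_ofFn.2 ⟨i, hi⟩)

end Pool.Agent.H76.HI
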