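import Pool.Agent.H76.HI.UB
import Pool.Agent.H71.HCI.TargetsU

/-!
# Tame ultrafilters are symmetric
-/

set_option autoImplicit false

namespace Pool.Agent.H76.HI

open Set Pool.Agent.H41.HI Pool.Agent.H75.HCI Pool.Agent.H16.FK Pool.Agent.H71.HCI Filter

variable {C : Type} {M : List ℕ → C} {I J : Type}

/-- The labels of the lists from `Λ` determine the full type. -/
theorem ft_map_iff {β : Type} {Λ : List β} {f g : β → ℕ} :
    ft M (Λ.map f) = ft M (Λ.map g) ↔
      ∀ l : List β, (∀ b ∈ l, b ∈ Λ) → M (l.map f) = M (l.map g) := by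
  classical
  constructor
  · intro h l hl
    have h1 := congrFun h (l.map fun b => Λ.idxOf b)
    unfold ft at h1
    rw [sel_map, sel_map] at h1
    have h2 : sel Λ (l.map fun b => Λ.idxOf b) = l := by
      unfold sel
      rw [List.filterMap_map]
      clear h1 h
      induction l with
      | nil => rfl
      | cons a l ih =>
        have ha : a ∈ Λ := hl a (List.mem_cons_self ..)
        have h3 : Λ[Λ.idxOf a]? = some a := by
          rw [List.getElem?_eq_getElem (List.idxOf_lt_length_of_mem ha), List.getElem_idxOf]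
        rw [List.filterMap_cons]
        change (match (Λ[Λ.idxOf a]? : Option β) with | none => _ | some b => b :: _) = _
        rw [h3]
        change a :: _ = _
        rw [ih fun b hb => hl b (List.mem_cons_of_mem _ hb)]
    rwa [h2] at h1
  · intro h
    funext w
    unfold ft
    rw [sel_map, sel_map]
    exact h _ fun b hb => sel_mem hb

/-- The values of a sequence of tuples. -/
def un {n k : ℕ} (xs : Fin n → Fin k → ℕ) (q : Fin n × Fin k) : ℕ := xs q.1 q.2

/-- The letters of the list `c ++ fl xs`. -/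
def Lt' (c : List ℕ) (n k : ℕ) : List (ℕ ⊕ Fin n × Fin k) :=
  c.map Sum.inl ++ (List.ofFn fun i : Fin n => List.ofFn fun y : Fin k => Sum.inr (i, y)).flatten

lemma lt'_map (c : List ℕ) {n k : ℕ} (xs : Fin n → Fin k → ℕ) :
    (Lt' c n k).map (Sum.elim id (un xs)) = c ++ fl xs := by
  unfold Lt' fl
  rw [List.map_append, List.map_map, List.map_flatten, List.map_ofFn]
  congr 1
  · exact List.map_id _
  · congr 2
    funext i
    simp only [Function.comp_apply, List.map_ofFn]
    rfl

lemma lt'_mem (c : List ℕ) {n k : ℕ} (b : ℕ ⊕ Fin n × Fin k) :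
    b ∈ Lt' c n k ↔ ∀ a, b = Sum.inl a → a ∈ c := by
  unfold Lt'
  rw [List.mem_append]
  rcases b with a | q
  · constructor
    · rintro (h | h) a' ha'
      · obtain ⟨a'', h1, h2⟩ := List.mem_map.1 h
        rw [← Sum.inl.inj ha', ← Sum.inl.inj h2]
        exact h1
      · exfalso
        rw [List.mem_flatten] at h
        obtain ⟨l, h1, h2⟩ := h
        rw [List.mem_ofFn] at h1
        obtain ⟨i, rfl⟩ := h1
        rw [List.mem_ofFn] at h2
        obtain ⟨y, hy⟩ := h2
        exact absurd hy (by simp)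
    · intro h
      exact Or.inl (List.mem_map_of_mem (h a rfl))
  · constructor
    · intro _ a ha
      exact absurd ha (by simp)
    · intro _
      right
      rw [List.mem_flatten]
      exact ⟨_, List.mem_ofFn.2 ⟨q.1, rfl⟩, List.mem_ofFn.2 ⟨q.2, rfl⟩⟩

/-- The full types over `c` are the labels of all lists with the letters in `c`. -/
theorem ft_fl_iff {c : List ℕ} {n k : ℕ} {xs ys : Fin n → Fin k → ℕ} :
    ft M (c ++ fl xs) = ft M (c ++ fl ys) ↔
      ∀ l : List (ℕ ⊕ Fin n × Fin k), (∀ a, Sum.inl a ∈ l → a ∈ c) →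
        M (l.map (Sum.elim id (un xs))) = M (l.map (Sum.elim id (un ys))) := by
  rw [← lt'_map c xs, ← lt'_map c ys, ft_map_iff]
  constructor
  · intro h l hl
    exact h l fun b hb => (lt'_mem c b).2 fun a ha => hl a (ha ▸ hb)
  · intro h l hl
    exact h l fun a ha => (lt'_mem c _).1 (hl _ ha) a rfl

/-- Finitely many conditions on the labels over `c`. -/
theorem ev_ft {r : ℕ} (hA : Ar r M) {α : Type} {F : Filter α} {n k : ℕ} (c : List ℕ)
    (f g : α → Fin n → Fin k → ℕ)
    (h : ∀ l : List (ℕ ⊕ Fin n × Fin k), (∀ a, Sum.inl a ∈ l → a ∈ c) →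
      ∀ᶠ x in F, M (l.map (Sum.elim id (un (f x)))) = M (l.map (Sum.elim id (un (g x))))) :
    ∀ᶠ x in F, ft M (c ++ fl (f x)) = ft M (c ++ fl (g x)) := by
  classical
  let α' : Type := {a : ℕ ⊕ Fin n × Fin k // ∀ n, a = Sum.inl n → n ∈ c}
  have : Finite α' := by
    have : ({a : ℕ ⊕ Fin n × Fin k | ∀ n, a = Sum.inl n → n ∈ c}).Finite := by
      have h1 : {a : ℕ ⊕ Fin n × Fin k | ∀ n, a = Sum.inl n → n ∈ c} ⊆
          (Sum.inl '' {n | n ∈ c}) ∪ Set.range Sum.inr := by
        rintro (n | i) h
        · exact Or.inl ⟨n, h n rfl, rfl⟩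
        · exact Or.inr ⟨i, rfl⟩
      exact (((List.finite_toSet c).image _).union (Set.finite_range _)).subset h1
    exact this.to_subtype
  have hfin : ({l : List α' | l.length ≤ r}).Finite := List.finite_length_le α' r
  have h1 : ∀ᶠ x in F, ∀ l ∈ {l : List α' | l.length ≤ r},
      M ((l.map Subtype.val).map (Sum.elim id (un (f x)))) =
        M ((l.map Subtype.val).map (Sum.elim id (un (g x)))) := by
    rw [Filter.eventually_all_finite hfin]
    intro l _
    refine h _ fun a ha => ?_
    obtain ⟨b, -, hb⟩ := List.mem_map.1 ha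
    exact b.2 a hb
  filter_upwards [h1] with x hx
  rw [ft_fl_iff]
  intro l hl
  by_cases hlen : l.length ≤ r
  · have h2 : ∀ a ∈ l, ∀ n, a = Sum.inl n → n ∈ c := fun a ha n hn => hl n (hn ▸ ha)
    have e1 : (l.attachWith (fun a => ∀ n, a = Sum.inl n → n ∈ c) h2).map Subtype.val = l :=
      List.attachWith_map_subtype_val ..
    have h3 := hx (l.attachWith (fun a => ∀ n, a = Sum.inl n → n ∈ c) h2) (by
      change (l.attachWith (fun a => ∀ n, a = Sum.inl n → n ∈ c) h2).length ≤ r
      rwa [List.length_attachWith])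
    rwa [e1] at h3
  · exact hA _ _ (by simpa using hlen) (by simpa using hlen)

lemma pw_ev {k : ℕ} {V : Ultrafilter (Fin k → ℕ)} {n : ℕ} {P : (Fin (n + 1) → Fin k → ℕ) → Prop} :
    (∀ᶠ zs in (pw V (n + 1) : Filter (Fin (n + 1) → Fin k → ℕ)), P zs) ↔
      ∀ᶠ xs in (pw V n : Filter (Fin n → Fin k → ℕ)), ∀ᶠ x in (V : Filter (Fin k → ℕ)),
        P (Fin.snoc (α := fun _ => Fin k → ℕ) xs x) := Iff.rfl

lemma prU_np {V : Ultrafilter (I → ℕ)} {U : Ultrafilter (J → ℕ)} (hV : NP V) (hU : NP U) :
    NP (prU V U) := by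
  rintro (i | j) a
  · rw [prU_ev]
    filter_upwards [hV i a] with x hx
    exact Eventually.of_forall fun y => hx
  · rw [prU_ev]
    exact Eventually.of_forall fun x => hU j a

/-- Substitution of a sequence of tuples. -/
def sq {n k : ℕ} (xs : Fin n → Fin k → ℕ) : ℕ ⊕ ((Fin n × Fin k) ⊕ J) → ℕ ⊕ J := sb (un xs)

/-- Commutation of the last two members, with parameters. -/
theorem tame_swap (hF : FinL M) {k : ℕ} {V : Ultrafilter (Fin k → ℕ)} (hV : Tame M V) (hnp : NP V)
    [Finite J] {U : Ultrafilter (J → ℕ)} (hU : NP U) (l : List (ℕ ⊕ (Fin k ⊕ (Fin k ⊕ J)))) :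
    typ M (prU V (prU V U)) (l.map (Sum.map id (Sum.elim (fun y => Sum.inr (Sum.inl y))
      (Sum.elim (fun y => Sum.inl y) fun j => Sum.inr (Sum.inr j))))) =
      typ M (prU V (prU V U)) l := by
  -- both are the types for the order: second tuple, U, first tuple
  have hVU : NP (prU V U) := prU_np hnp hU
  -- move the first tuple to the end
  have h1 : ∀ l : List (ℕ ⊕ (Fin k ⊕ (Fin k ⊕ J))), typ M (prU V (prU V U)) l =
      typ M (prU (prU V U) V) (l.map (Sum.map id Sum.swap)) := by
    intro l
    rw [hV (Fin k ⊕ J) (prU V U) hVU, typ_re hF]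
  -- move the second tuple to the end, the first one is fixed
  have h2 : ∀ l : List (ℕ ⊕ (Fin k ⊕ (Fin k ⊕ J))), typ M (prU V (prU V U)) l =
      typ M (prU V (prU U V)) (l.map (Sum.map id (Sum.map id Sum.swap))) := by
    intro l
    rw [typ_pr hF]
    have h3 := (typ_pr hF (V := V) (U := prU U V)
      (l := l.map (Sum.map id (Sum.map id Sum.swap)))
      (y := typ M (prU V (prU U V)) (l.map (Sum.map id (Sum.map id Sum.swap))))).1 rfl
    filter_upwards [h3] with x hx
    rw [← hx, hV J U hU, typ_re hF, List.map_map, List.map_map]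
    congr 1
    refine List.map_congr_left fun a _ => ?_
    rcases a with a | a | a | a <;> rfl
  rw [h2, h1]
  -- compare the orders
  rw [eq_comm, typ_pr hF]
  have h4 := (typ_pr hF (V := V) (U := prU U V)
    (l := (l.map (Sum.map id (Sum.elim (fun y => Sum.inr (Sum.inl y))
      (Sum.elim (fun y => Sum.inl y) fun j => Sum.inr (Sum.inr j))))).map
        (Sum.map id (Sum.map id Sum.swap)))
    (y := _)).1 rfl
  rw [prU_ev]
  filter_upwards [h4] with x hx
  have h5 := (typ_pr hF (V := U) (U := V)).1 hx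
  filter_upwards [h5] with u hu
  rw [← hu, List.map_map, List.map_map, List.map_map, List.map_map]
  congr 1
  refine List.map_congr_left fun a _ => ?_
  rcases a with a | a | a | a <;> rfl

/-- The value of the type over a sequence. -/
def Gd (M : List ℕ → C) {k : ℕ} (V : Ultrafilter (Fin k → ℕ)) (n : ℕ) (σ : Equiv.Perm (Fin n)) :
    Prop := ∀ (J : Type) [Finite J] (U : Ultrafilter (J → ℕ)), NP U →
  ∀ l : List (ℕ ⊕ ((Fin n × Fin k) ⊕ J)),
    ∀ᶠ xs in (pw V n : Filter (Fin n → Fin k → ℕ)),
      typ M U (l.map (sq (xs ∘ σ))) = typ M U (l.map (sq xs))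

lemma gd_mul {k : ℕ} {V : Ultrafilter (Fin k → ℕ)} {n : ℕ} {σ τ : Equiv.Perm (Fin n)}
    (h1 : Gd M V n σ) (h2 : Gd M V n τ) : Gd M V n (σ * τ) := by
  intro J _ U hU l
  have e1 : ∀ xs : Fin n → Fin k → ℕ, l.map (sq (xs ∘ ⇑(σ * τ))) =
      (l.map (Sum.map id (Sum.map (Prod.map τ id) id))).map (sq (xs ∘ σ)) := by
    intro xs
    rw [List.map_map]
    refine List.map_congr_left fun a _ => ?_
    rcases a with a | a | a <;> rfl
  have e2 : ∀ xs : Fin n → Fin k → ℕ, l.map (sq (xs ∘ τ)) =
      (l.map (Sum.map id (Sum.map (Prod.map τ id) id))).map (sq xs) := by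
    intro xs
    rw [List.map_map]
    refine List.map_congr_left fun a _ => ?_
    rcases a with a | a | a <;> rfl
  filter_upwards [h1 J U hU (l.map (Sum.map id (Sum.map (Prod.map τ id) id))), h2 J U hU l]
    with xs hx1 hx2
  rw [e1, hx1, ← e2, hx2]

/-- A permutation of the first members. -/
lemma gd_succ (hF : FinL M) {k : ℕ} {V : Ultrafilter (Fin k → ℕ)} (hnp : NP V) {n : ℕ}
    {σ : Equiv.Perm (Fin n)} (h : Gd M V n σ) {σ' : Equiv.Perm (Fin (n + 1))}
    (h1 : ∀ i, σ' i.castSucc = (σ i).castSucc) (h2 : σ' (Fin.last n) = Fin.last n) :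
    Gd M V (n + 1) σ' := by
  intro J _ U hU l
  rw [pw_ev]
  -- reletter the list
  let φ : (Fin (n + 1) × Fin k) ⊕ J → (Fin n × Fin k) ⊕ (Fin k ⊕ J) := fun a =>
    a.elim (fun q => if h : (q.1 : ℕ) < n then Sum.inl (⟨q.1, h⟩, q.2) else Sum.inr (Sum.inl q.2))
      fun j => Sum.inr (Sum.inr j)
  have key : ∀ (xs : Fin n → Fin k → ℕ) (x : Fin k → ℕ),
      l.map (sq (Fin.snoc (α := fun _ => Fin k → ℕ) xs x)) =
        ((l.map (Sum.map id φ)).map (sq xs)).map (sb x) := by
    intro xs x
    rw [List.map_map, List.map_map]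
    refine List.map_congr_left fun a _ => ?_
    rcases a with a | ⟨i, y⟩ | a
    · rfl
    · change Sum.inl (Fin.snoc (α := fun _ => Fin k → ℕ) xs x i y) = sb x (sq xs (Sum.inr (φ (Sum.inl (i, y)))))
      by_cases hi : (i : ℕ) < n
      · have e1 : φ (Sum.inl (i, y)) = Sum.inl (⟨i, hi⟩, y) := dif_pos hi
        rw [e1]
        change Sum.inl (Fin.snoc (α := fun _ => Fin k → ℕ) xs x i y) = Sum.inl (xs ⟨i, hi⟩ y)
        have e2 : i = (⟨i, hi⟩ : Fin n).castSucc := rfl
        conv_lhs => rw [e2]
        rw [Fin.snoc_castSucc]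
      · have e1 : φ (Sum.inl (i, y)) = Sum.inr (Sum.inl y) := dif_neg hi
        rw [e1]
        have e2 : i = Fin.last n := Fin.ext (by
          have := i.2
          change (i : ℕ) = n
          omega)
        rw [e2, Fin.snoc_last]
        rfl
    · rfl
  have hsn : ∀ (xs : Fin n → Fin k → ℕ) (x : Fin k → ℕ),
      (Fin.snoc (α := fun _ => Fin k → ℕ) xs x) ∘ σ' =
        Fin.snoc (α := fun _ => Fin k → ℕ) (xs ∘ σ) x := by
    intro xs x
    funext i
    refine Fin.lastCases ?_ (fun i => ?_) i
    · simp only [Function.comp_apply, h2, Fin.snoc_last]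
    · simp only [Function.comp_apply, h1, Fin.snoc_castSucc]
  filter_upwards [h (Fin k ⊕ J) (prU V U) (prU_np hnp hU) (l.map (Sum.map id φ))] with xs hxs
  have h3 := (typ_pr hF (V := V) (U := U) (l := (l.map (Sum.map id φ)).map (sq (xs ∘ σ)))
    (y := _)).1 hxs
  have h4 := (typ_pr hF (V := V) (U := U) (l := (l.map (Sum.map id φ)).map (sq xs))
    (y := _)).1 rfl
  filter_upwards [h3, h4] with x hx3 hx4
  rw [hsn, key, key, hx3, hx4]

/-- The last two members. -/
lemma gd_last (hF : FinL M) {k : ℕ} {V : Ultrafilter (Fin k → ℕ)} (hV : Tame M V) (hnp : NP V)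
    {n : ℕ} {σ : Equiv.Perm (Fin (n + 2))} (h1 : ∀ i : Fin n, σ i.castSucc.castSucc = i.castSucc.castSucc)
    (h2 : σ (Fin.last n).castSucc = Fin.last (n + 1)) (h3 : σ (Fin.last (n + 1)) = (Fin.last n).castSucc) :
    Gd M V (n + 2) σ := by
  intro J _ U hU l
  rw [pw_ev, pw_ev]
  refine Eventually.of_forall fun xs => ?_
  let φ : (Fin (n + 2) × Fin k) ⊕ J → ℕ ⊕ (Fin k ⊕ (Fin k ⊕ J)) := fun a =>
    a.elim (fun q => if h : (q.1 : ℕ) < n then Sum.inl (xs ⟨q.1, h⟩ q.2)
      else if (q.1 : ℕ) = n then Sum.inr (Sum.inl q.2) else Sum.inr (Sum.inr (Sum.inl q.2)))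
      fun j => Sum.inr (Sum.inr (Sum.inr j))
  let φ' : (Fin (n + 2) × Fin k) ⊕ J → ℕ ⊕ (Fin k ⊕ (Fin k ⊕ J)) := fun a =>
    a.elim (fun q => if h : (q.1 : ℕ) < n then Sum.inl (xs ⟨q.1, h⟩ q.2)
      else if (q.1 : ℕ) = n then Sum.inr (Sum.inr (Sum.inl q.2)) else Sum.inr (Sum.inl q.2))
      fun j => Sum.inr (Sum.inr (Sum.inr j))
  have hkey : ∀ (x x' : Fin k → ℕ),
      l.map (sq (Fin.snoc (α := fun _ => Fin k → ℕ) (Fin.snoc (α := fun _ => Fin k → ℕ) xs x) x')) =
        ((l.map (Sum.elim Sum.inl φ)).map (sb x)).map (sb x') := by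
    intro x x'
    rw [List.map_map, List.map_map]
    refine List.map_congr_left fun a _ => ?_
    rcases a with a | ⟨i, y⟩ | a
    · rfl
    · change Sum.inl (Fin.snoc (α := fun _ => Fin k → ℕ)
        (Fin.snoc (α := fun _ => Fin k → ℕ) xs x) x' i y) = sb x' (sb x (φ (Sum.inl (i, y))))
      by_cases hi : (i : ℕ) < n
      · have e1 : φ (Sum.inl (i, y)) = Sum.inl (xs ⟨i, hi⟩ y) := dif_pos hi
        rw [e1]
        have e2 : i = (⟨i, hi⟩ : Fin n).castSucc.castSucc := rfl
        conv_lhs => rw [e2]
        rw [Fin.snoc_castSucc, Fin.snoc_castSucc]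
        rfl
      · by_cases hi2 : (i : ℕ) = n
        · have e1 : φ (Sum.inl (i, y)) = Sum.inr (Sum.inl y) := by
            change (if h : (i : ℕ) < n then _ else if (i : ℕ) = n then _ else _) = _
            rw [dif_neg hi, if_pos hi2]
          rw [e1]
          have e2 : i = (Fin.last n).castSucc := Fin.ext hi2
          rw [e2, Fin.snoc_castSucc, Fin.snoc_last]
          rfl
        · have e1 : φ (Sum.inl (i, y)) = Sum.inr (Sum.inr (Sum.inl y)) := by
            change (if h : (i : ℕ) < n then _ else if (i : ℕ) = n then _ else _) = _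
            rw [dif_neg hi, if_neg hi2]
          rw [e1]
          have e2 : i = Fin.last (n + 1) := Fin.ext (by
            have := i.2
            change (i : ℕ) = n + 1
            omega)
          rw [e2, Fin.snoc_last]
          rfl
    · rfl
  have hkey' : ∀ (x x' : Fin k → ℕ),
      l.map (sq ((Fin.snoc (α := fun _ => Fin k → ℕ)
        (Fin.snoc (α := fun _ => Fin k → ℕ) xs x) x') ∘ σ)) =
        ((l.map (Sum.elim Sum.inl φ')).map (sb x)).map (sb x') := by
    intro x x'
    rw [List.map_map, List.map_map]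
    refine List.map_congr_left fun a _ => ?_
    rcases a with a | ⟨i, y⟩ | a
    · rfl
    · change Sum.inl (Fin.snoc (α := fun _ => Fin k → ℕ)
        (Fin.snoc (α := fun _ => Fin k → ℕ) xs x) x' (σ i) y) = sb x' (sb x (φ' (Sum.inl (i, y))))
      by_cases hi : (i : ℕ) < n
      · have e1 : φ' (Sum.inl (i, y)) = Sum.inl (xs ⟨i, hi⟩ y) := dif_pos hi
        rw [e1]
        have e2 : i = (⟨i, hi⟩ : Fin n).castSucc.castSucc := rfl
        conv_lhs => rw [e2]
        rw [h1, Fin.snoc_castSucc, Fin.snoc_castSucc]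
        rfl
      · by_cases hi2 : (i : ℕ) = n
        · have e1 : φ' (Sum.inl (i, y)) = Sum.inr (Sum.inr (Sum.inl y)) := by
            change (if h : (i : ℕ) < n then _ else if (i : ℕ) = n then _ else _) = _
            rw [dif_neg hi, if_pos hi2]
          rw [e1]
          have e2 : i = (Fin.last n).castSucc := Fin.ext hi2
          rw [e2, h2, Fin.snoc_last]
          rfl
        · have e1 : φ' (Sum.inl (i, y)) = Sum.inr (Sum.inl y) := by
            change (if h : (i : ℕ) < n then _ else if (i : ℕ) = n then _ else _) = _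
            rw [dif_neg hi, if_neg hi2]
          rw [e1]
          have e2 : i = Fin.last (n + 1) := Fin.ext (by
            have := i.2
            change (i : ℕ) = n + 1
            omega)
          rw [e2, h3, Fin.snoc_castSucc, Fin.snoc_last]
          rfl
    · rfl
  have hφ : l.map (Sum.elim Sum.inl φ') = (l.map (Sum.elim Sum.inl φ)).map
      (Sum.map id (Sum.elim (fun y => Sum.inr (Sum.inl y))
      (Sum.elim (fun y => Sum.inl y) fun j => Sum.inr (Sum.inr j)))) := by
    rw [List.map_map]
    refine List.map_congr_left fun a _ => ?_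
    rcases a with a | ⟨i, y⟩ | a
    · rfl
    · by_cases hi : (i : ℕ) < n
      · have e1 : φ' (Sum.inl (i, y)) = Sum.inl (xs ⟨i, hi⟩ y) := dif_pos hi
        have e2 : φ (Sum.inl (i, y)) = Sum.inl (xs ⟨i, hi⟩ y) := dif_pos hi
        change φ' (Sum.inl (i, y)) = Sum.map id _ (φ (Sum.inl (i, y)))
        rw [e1, e2]
        rfl
      · by_cases hi2 : (i : ℕ) = n
        · have e1 : φ' (Sum.inl (i, y)) = Sum.inr (Sum.inr (Sum.inl y)) := by
            change (if h : (i : ℕ) < n then _ else if (i : ℕ) = n then _ else _) = _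
            rw [dif_neg hi, if_pos hi2]
          have e2 : φ (Sum.inl (i, y)) = Sum.inr (Sum.inl y) := by
            change (if h : (i : ℕ) < n then _ else if (i : ℕ) = n then _ else _) = _
            rw [dif_neg hi, if_pos hi2]
          change φ' (Sum.inl (i, y)) = Sum.map id _ (φ (Sum.inl (i, y)))
          rw [e1, e2]
          rfl
        · have e1 : φ' (Sum.inl (i, y)) = Sum.inr (Sum.inl y) := by
            change (if h : (i : ℕ) < n then _ else if (i : ℕ) = n then _ else _) = _
            rw [dif_neg hi, if_neg hi2]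
          have e2 : φ (Sum.inl (i, y)) = Sum.inr (Sum.inr (Sum.inl y)) := by
            change (if h : (i : ℕ) < n then _ else if (i : ℕ) = n then _ else _) = _
            rw [dif_neg hi, if_neg hi2]
          change φ' (Sum.inl (i, y)) = Sum.map id _ (φ (Sum.inl (i, y)))
          rw [e1, e2]
          rfl
    · rfl
  have h4 := tame_swap hF hV hnp hU (l.map (Sum.elim Sum.inl φ))
  rw [← hφ] at h4
  have h5 := (typ_pr hF (V := V) (U := prU V U) (l := l.map (Sum.elim Sum.inl φ')) (y := _)).1 h4
  have h6 := (typ_pr hF (V := V) (U := prU V U) (l := l.map (Sum.elim Sum.inl φ)) (y := _)).1 rfl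
  filter_upwards [h5, h6] with x hx5 hx6
  filter_upwards [(typ_pr hF).1 hx5, (typ_pr hF).1 hx6] with x' hx5' hx6'
  rw [hkey, hkey', hx5', hx6']

theorem gd_all (hF : FinL M) {k : ℕ} {V : Ultrafilter (Fin k → ℕ)} (hV : Tame M V) (hnp : NP V) :
    ∀ (n : ℕ) (σ : Equiv.Perm (Fin n)), Gd M V n σ := by
  have hone : ∀ n, Gd M V n 1 := fun n J _ U _ l => Eventually.of_forall fun xs => rfl
  -- adjacent transpositions
  have hadj : ∀ (n : ℕ) (i : Fin n), Gd M V (n + 1) (Equiv.swap i.castSucc i.succ) := by
    intro n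
    induction n with
    | zero => exact fun i => i.elim0
    | succ n ih =>
      intro i
      refine Fin.lastCases ?_ (fun i => ?_) i
      · refine gd_last hF hV hnp ?_ ?_ ?_
        · intro i
          rw [Equiv.swap_apply_of_ne_of_ne]
          · intro h
            have := congrArg (fun a : Fin (n + 2) => (a : ℕ)) h
            simp at this
            omega
          · intro h
            have := congrArg (fun a : Fin (n + 2) => (a : ℕ)) h
            simp at this
            omega
        · rw [Equiv.swap_apply_left]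
          rfl
        · have : Fin.last (n + 1) = (Fin.last n).succ := rfl
          rw [this, Equiv.swap_apply_right]
      · refine gd_succ hF hnp (ih i) ?_ ?_
        · intro j
          by_cases h1 : j = i.castSucc
          · subst h1
            rw [Equiv.swap_apply_left, Equiv.swap_apply_left]
            rfl
          · by_cases h2 : j = i.succ
            · subst h2
              have : i.succ.castSucc = i.castSucc.succ := rfl
              rw [this, Equiv.swap_apply_right, Equiv.swap_apply_right]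
            · rw [Equiv.swap_apply_of_ne_of_ne h1 h2, Equiv.swap_apply_of_ne_of_ne]
              · exact fun h => h1 (Fin.castSucc_injective _ h)
              · exact fun h => h2 (Fin.castSucc_injective _ h)
        · rw [Equiv.swap_apply_of_ne_of_ne]
          · intro h
            have := congrArg (fun a : Fin (n + 2) => (a : ℕ)) h
            simp at this
            have := i.2
            omega
          · intro h
            have := congrArg (fun a : Fin (n + 2) => (a : ℕ)) h
            simp at this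
            have := i.2
            omega
  intro n σ
  rcases n with _ | n
  · rw [Subsingleton.elim σ 1]
    exact hone 0
  · have h1 : σ ∈ Submonoid.closure (Set.range fun i : Fin n => Equiv.swap i.castSucc i.succ) := by
      rw [Equiv.Perm.mclosure_swap_castSucc_succ]
      trivial
    induction h1 using Submonoid.closure_induction with
    | mem x hx =>
      obtain ⟨i, rfl⟩ := hx
      exact hadj n i
    | one => exact hone _
    | mul x y _ _ hx hy => exact gd_mul hx hy

/-- Tame ultrafilters are symmetric. -/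
theorem tame_symm {r : ℕ} (hA : Ar r M) (hF : FinL M) {k : ℕ} {V : Ultrafilter (Fin k → ℕ)}
    (hV : Tame M V) (hnp : NP V) : Symm M V := by
  intro n c σ
  refine ev_ft hA c (fun xs => xs ∘ σ) (fun xs => xs) fun l _ => ?_
  let U : Ultrafilter (Fin 0 → ℕ) := pure fun i => i.elim0
  have hU : NP U := fun i => i.elim0
  filter_upwards [gd_all hF hV hnp n σ (Fin 0) U hU (l.map (Sum.map id Sum.inl))] with xs hxs
  have key : ∀ ys : Fin n → Fin k → ℕ, typ M U ((l.map (Sum.map id Sum.inl)).map (sq ys)) =
      M (l.map (Sum.elim id (un ys))) := by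
    intro ys
    refine typ_eq (Eventually.of_forall fun x => ?_)
    rw [List.map_map, List.map_map]
    congr 1
    refine List.map_congr_left fun a _ => ?_
    rcases a with a | a <;> rfl
  rw [key, key] at hxs
  exact hxs

end Pool.Agent.H76.HI
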