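import Pool.Agent.H16.FK.Defs
import Pool.Agent.H76.HI.KB

/-!
# Types of ultrafilters: basic facts
-/

set_option autoImplicit false

namespace Pool.Agent.H76.HI

open Set Pool.Agent.H41.HI Pool.Agent.H75.HCI Pool.Agent.H16.FK Filter

variable {C : Type} {M : List ℕ → C} {I J : Type}

/-- The almost sure label exists. -/
theorem typ_spec (hF : FinL M) (V : Ultrafilter (I → ℕ)) (l : List (ℕ ⊕ I)) :
    ∀ᶠ x in (V : Filter (I → ℕ)), M (l.map (Sum.elim id x)) = typ M V l := by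
  have h1 : ∃ y, ∀ᶠ x in (V : Filter (I → ℕ)), M (l.map (Sum.elim id x)) = y := by
    have h2 : ∀ᶠ x in (V : Filter (I → ℕ)), ∃ y ∈ {y | ∃ l' : List ℕ, l'.length = l.length ∧ M l' = y},
        M (l.map (Sum.elim id x)) = y :=
      Eventually.of_forall fun x => ⟨_, ⟨l.map (Sum.elim id x), by simp, rfl⟩, rfl⟩
    obtain ⟨y, -, hy⟩ := (Ultrafilter.eventually_exists_mem_iff (hF l.length)).1 h2
    exact ⟨y, hy⟩
  unfold typ
  rw [dif_pos h1]
  exact h1.choose_spec

theorem typ_eq {V : Ultrafilter (I → ℕ)} {l : List (ℕ ⊕ I)} {y : C}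
    (h : ∀ᶠ x in (V : Filter (I → ℕ)), M (l.map (Sum.elim id x)) = y) : typ M V l = y := by
  have h1 : ∃ y, ∀ᶠ x in (V : Filter (I → ℕ)), M (l.map (Sum.elim id x)) = y := ⟨y, h⟩
  unfold typ
  rw [dif_pos h1]
  obtain ⟨x, hx1, hx2⟩ := (h1.choose_spec.and h).exists
  exact hx1.symm.trans hx2

theorem typ_iff (hF : FinL M) {V : Ultrafilter (I → ℕ)} {l : List (ℕ ⊕ I)} {y : C} :
    typ M V l = y ↔ ∀ᶠ x in (V : Filter (I → ℕ)), M (l.map (Sum.elim id x)) = y :=
  ⟨fun h => h ▸ typ_spec hF V l, typ_eq⟩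

/-- `D` realises the type of `V` over the points of `X`. -/
def Rz (M : List ℕ → C) (V : Ultrafilter (I → ℕ)) (X : List ℕ) (D : I → ℕ) : Prop :=
  ∀ l : List (ℕ ⊕ I), (∀ a, Sum.inl a ∈ l → a ∈ X) → M (l.map (Sum.elim id D)) = typ M V l

lemma Rz.mono {V : Ultrafilter (I → ℕ)} {X Y : List ℕ} {D : I → ℕ} (h : Rz M V Y D)
    (hXY : X ⊆ Y) : Rz M V X D := fun l hl => h l fun a ha => hXY (hl a ha)

theorem rz_ev {r : ℕ} (hA : Ar r M) (hF : FinL M) [Finite I] (V : Ultrafilter (I → ℕ))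
    (X : List ℕ) : ∀ᶠ x in (V : Filter (I → ℕ)), Rz M V X x := by
  classical
  let α : Type := {a : ℕ ⊕ I // ∀ n, a = Sum.inl n → n ∈ X}
  have : Finite α := by
    have : ({a : ℕ ⊕ I | ∀ n, a = Sum.inl n → n ∈ X}).Finite := by
      have h1 : {a : ℕ ⊕ I | ∀ n, a = Sum.inl n → n ∈ X} ⊆
          (Sum.inl '' {n | n ∈ X}) ∪ Set.range Sum.inr := by
        rintro (n | i) h
        · exact Or.inl ⟨n, h n rfl, rfl⟩
        · exact Or.inr ⟨i, rfl⟩
      exact (((List.finite_toSet X).image _).union (Set.finite_range _)).subset h1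
    exact this.to_subtype
  have hfin : ({l : List α | l.length ≤ r}).Finite := List.finite_length_le α r
  have h1 : ∀ᶠ x in (V : Filter (I → ℕ)), ∀ l ∈ {l : List α | l.length ≤ r},
      M ((l.map Subtype.val).map (Sum.elim id x)) = typ M V (l.map Subtype.val) := by
    rw [Filter.eventually_all_finite hfin]
    exact fun l _ => typ_spec hF V _
  filter_upwards [h1] with x hx l hl
  by_cases hlen : l.length ≤ r
  · have h2 : ∀ a ∈ l, ∀ n, a = Sum.inl n → n ∈ X := fun a ha n hn => hl n (hn ▸ ha)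
    have e1 : (l.attachWith (fun a => ∀ n, a = Sum.inl n → n ∈ X) h2).map Subtype.val = l :=
      List.attachWith_map_subtype_val ..
    have h3 := hx (l.attachWith (fun a => ∀ n, a = Sum.inl n → n ∈ X) h2) (by
      change (l.attachWith (fun a => ∀ n, a = Sum.inl n → n ∈ X) h2).length ≤ r
      rwa [List.length_attachWith])
    rwa [e1] at h3
  · obtain ⟨x', hx'⟩ := (typ_spec hF V l).exists
    rw [← hx']
    exact hA _ _ (by simpa using hlen) (by simpa using hlen)

/-- Substitution of the first tuple. -/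
def sb (x : I → ℕ) : ℕ ⊕ (I ⊕ J) → ℕ ⊕ J :=
  Sum.elim Sum.inl (Sum.elim (fun i => Sum.inl (x i)) Sum.inr)

lemma sb_elim (x : I → ℕ) (y : J → ℕ) (a : ℕ ⊕ (I ⊕ J)) :
    Sum.elim id y (sb x a) = Sum.elim id (Sum.elim x y) a := by
  rcases a with a | i | j <;> rfl

lemma prU_ev {V : Ultrafilter (I → ℕ)} {U : Ultrafilter (J → ℕ)} {P : (I ⊕ J → ℕ) → Prop} :
    (∀ᶠ w in (prU V U : Filter (I ⊕ J → ℕ)), P w) ↔
      ∀ᶠ x in (V : Filter (I → ℕ)), ∀ᶠ y in (U : Filter (J → ℕ)), P (Sum.elim x y) := Iff.rfl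

lemma re_ev {V : Ultrafilter (I → ℕ)} {f : J → I} {P : (J → ℕ) → Prop} :
    (∀ᶠ x in (re V f : Filter (J → ℕ)), P x) ↔ ∀ᶠ x in (V : Filter (I → ℕ)), P (x ∘ f) := Iff.rfl

theorem typ_pr (hF : FinL M) {V : Ultrafilter (I → ℕ)} {U : Ultrafilter (J → ℕ)}
    {l : List (ℕ ⊕ (I ⊕ J))} {y : C} :
    typ M (prU V U) l = y ↔ ∀ᶠ x in (V : Filter (I → ℕ)), typ M U (l.map (sb x)) = y := by
  rw [typ_iff hF, prU_ev]
  refine eventually_congr (Eventually.of_forall fun x => ?_)
  rw [typ_iff hF]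
  refine eventually_congr (Eventually.of_forall fun w => ?_)
  rw [List.map_map]
  have : (Sum.elim id w ∘ sb x) = Sum.elim id (Sum.elim x w) := funext fun a => sb_elim x w a
  rw [this]

theorem typ_re (hF : FinL M) (V : Ultrafilter (I → ℕ)) (f : J → I) (l : List (ℕ ⊕ J)) :
    typ M (re V f) l = typ M V (l.map (Sum.map id f)) := by
  rw [typ_iff hF, re_ev]
  filter_upwards [typ_spec hF V (l.map (Sum.map id f))] with x hx
  rw [← hx, List.map_map]
  congr 1
  refine List.map_congr_left fun a _ => ?_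
  rcases a with a | a <;> rfl

lemma rz_re {V : Ultrafilter (I → ℕ)} (hF : FinL M) {X : List ℕ} {D : I → ℕ} (h : Rz M V X D)
    (f : J → I) : Rz M (re V f) X (D ∘ f) := by
  intro l hl
  rw [typ_re hF, ← h]
  · rw [List.map_map]
    congr 1
    refine List.map_congr_left fun a _ => ?_
    rcases a with a | a <;> rfl
  · intro a ha
    obtain ⟨b, hb, hab⟩ := List.mem_map.1 ha
    rcases b with b | b
    · simp only [Sum.map_inl, id_eq, Sum.inl.injEq] at hab
      exact hl a (hab ▸ hb)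
    · simp at hab

/-! ## Free ultrafilters -/

variable {N : Subgroup (Equiv.Perm ℕ)}

lemma kx_eq (H : HSys M N) (X : List ℕ) : Pool.Agent.H16.FK.KX H X = Pool.Agent.H76.HI.KX H X :=
  rfl

lemma fr_free {H : HSys M N} {B X : List ℕ} {D : I → ℕ} :
    Fr H B X D ↔ ∀ i, Free H B X [D i] := by
  unfold Fr Free
  simp

lemma fr_list {H : HSys M N} {B X D : List ℕ} {k : ℕ} {x : Fin k → ℕ} (h : List.ofFn x = D) :
    Fr H B X x ↔ Free H B X D := by
  subst h
  unfold Fr Free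
  constructor
  · intro h d hd
    rw [List.mem_ofFn] at hd
    obtain ⟨i, rfl⟩ := hd
    exact h i
  · intro h i
    exact h _ (List.mem_ofFn.2 ⟨i, rfl⟩)

lemma fr_mono {H : HSys M N} {B X X' : List ℕ} {D : I → ℕ} (h : X ⊆ X') (hD : Fr H B X' D) :
    Fr H B X D := fun i hs => hD i (hs.trans (H.mono _ _ h))

/-- (0.4): copies of `D` give a free ultrafilter. -/
theorem exists_V [Finite I] (H : HSys M N) {B X : List ℕ} (hBX : B ⊆ X) {D : I → ℕ}
    (hinj : Function.Injective D) (hfr : Fr H B X D) : ∃ V ∈ FKB H B I,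
      (∀ᶠ x in (V : Filter (I → ℕ)), ∃ p ∈ KX H X, x = p.1 ∘ D) ∧ Rz M V X D := by
  classical
  cases nonempty_fintype I
  let S : List ℕ → Set (I → ℕ) := fun Y => {x | ∃ p ∈ KX H X, x = p.1 ∘ D ∧ Fr H B Y x}
  have hne : ∀ Y, (S Y).Nonempty := by
    intro Y
    let W : List ℕ := X ++ (Finset.univ : Finset I).toList.map D
    obtain ⟨p, hp, -, hp3⟩ := exists_move H X W Y
    refine ⟨p.1 ∘ D, p, hp, rfl, fr_free.2 fun i => ?_⟩
    have h1 := free_move (H := H) (D := [D i]) hBX ((fr_free.1 hfr) i) (W := W) (by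
      intro x hx
      rw [List.mem_singleton] at hx
      subst hx
      exact List.mem_append_right _ (List.mem_map.2 ⟨i, by simp, rfl⟩))
      (List.subset_append_left _ _) hp hp3
    simpa using h1
  have hanti : ∀ Y Y', S (Y ++ Y') ⊆ S Y ∩ S Y' := by
    rintro Y Y' x ⟨p, hp, hx, hf⟩
    exact ⟨⟨p, hp, hx, fr_mono (List.subset_append_left _ _) hf⟩,
      ⟨p, hp, hx, fr_mono (List.subset_append_right _ _) hf⟩⟩
  let F : Filter (I → ℕ) := ⨅ Y : List ℕ, 𝓟 (S Y)
  have : F.NeBot := by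
    refine Filter.iInf_neBot_of_directed' ?_ fun Y => ?_
    · intro Y Y'
      refine ⟨Y ++ Y', ?_, ?_⟩
      · exact Filter.principal_mono.2 fun x hx => (hanti Y Y' hx).1
      · exact Filter.principal_mono.2 fun x hx => (hanti Y Y' hx).2
    · exact Filter.principal_neBot_iff.2 (hne Y)
  let V : Ultrafilter (I → ℕ) := Ultrafilter.of F
  have hVF : (V : Filter (I → ℕ)) ≤ F := Ultrafilter.of_le F
  have hS : ∀ Y, ∀ᶠ x in (V : Filter (I → ℕ)), x ∈ S Y := fun Y =>
    hVF (Filter.mem_iInf_of_mem Y (Filter.mem_principal_self _))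
  have hmap : ∀ᶠ x in (V : Filter (I → ℕ)), ∃ p ∈ KX H X, x = p.1 ∘ D := by
    filter_upwards [hS []] with x hx
    obtain ⟨p, hp, hx, -⟩ := hx
    exact ⟨p, hp, hx⟩
  refine ⟨V, ⟨?_, fun Y _ => ?_⟩, hmap, ?_⟩
  · filter_upwards [hmap] with x hx
    obtain ⟨p, -, rfl⟩ := hx
    exact p.1.injective.comp hinj
  · filter_upwards [hS Y] with x hx
    obtain ⟨p, -, -, h⟩ := hx
    exact h
  · intro l hl
    symm
    refine typ_eq ?_
    filter_upwards [hmap] with x hx
    obtain ⟨p, hp, rfl⟩ := hx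
    have h1 : l.map (Sum.elim id (p.1 ∘ D)) = (l.map (Sum.elim id D)).map p.1 := by
      rw [List.map_map]
      refine List.map_congr_left fun a ha => ?_
      rcases a with a | a
      · exact (hp.2.1 a (hl a ha)).symm
      · rfl
    rw [h1]
    exact lab_map hp.1 _

/-- The image of an ultrafilter under a pair. -/
noncomputable def gU (g : Equiv.Perm ℕ) (V : Ultrafilter (I → ℕ)) : Ultrafilter (I → ℕ) :=
  V.map fun x => g ∘ x

lemma gU_ev {g : Equiv.Perm ℕ} {V : Ultrafilter (I → ℕ)} {P : (I → ℕ) → Prop} :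
    (∀ᶠ x in (gU g V : Filter (I → ℕ)), P x) ↔ ∀ᶠ x in (V : Filter (I → ℕ)), P (g ∘ x) := Iff.rfl

/-- (0.5) -/
theorem gU_mem {H : HSys M N} {B X : List ℕ} (hBX : B ⊆ X) {p : Equiv.Perm ℕ × Equiv.Perm ℕ}
    (hp : p ∈ KX H X) {V : Ultrafilter (I → ℕ)} (hV : V ∈ FKB H B I) : gU p.1 V ∈ FKB H B I := by
  classical
  refine ⟨?_, fun Y hY => ?_⟩
  · have := hV.1
    change ∀ᶠ x in (gU p.1 V : Filter (I → ℕ)), Function.Injective x
    rw [gU_ev]
    filter_upwards [this] with x hx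
    exact p.1.injective.comp hx
  · rw [gU_ev]
    have hpi := KX_inv hp
    have h1 : B ⊆ Y.map (p⁻¹).1 := by
      intro b hb
      refine List.mem_map.2 ⟨b, hY hb, hpi.2.1 b (hBX hb)⟩
    filter_upwards [hV.2 _ h1] with x hx i hs
    apply hx i
    rw [sup_map hpi.1]
    intro n hn
    rw [Finset.mem_image]
    refine ⟨p.2 n, hs ?_, ?_⟩
    · have h2 : B ++ [(p.1 ∘ x) i] = (B ++ [x i]).map p.1 := by
        rw [List.map_append, map_fix (fun b hb => hp.2.1 b (hBX hb))]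
        rfl
      rw [h2, sup_map hp.1]
      exact Finset.mem_image_of_mem _ hn
    · change p.2⁻¹ (p.2 n) = n
      simp

theorem gU_typ (hF : FinL M) {H : HSys M N} {p : Equiv.Perm ℕ × Equiv.Perm ℕ}
    (hp : p ∈ H.K) (V : Ultrafilter (I → ℕ)) (l : List (ℕ ⊕ I)) :
    typ M (gU p.1 V) (l.map (Sum.map p.1 id)) = typ M V l := by
  rw [typ_iff hF, gU_ev]
  filter_upwards [typ_spec hF V l] with x hx
  rw [← hx]
  have h1 : (l.map (Sum.map p.1 id)).map (Sum.elim id (p.1 ∘ x)) =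
      (l.map (Sum.elim id x)).map p.1 := by
    rw [List.map_map, List.map_map]
    refine List.map_congr_left fun a _ => ?_
    rcases a with a | a <;> rfl
  rw [h1]
  exact lab_map hp _

lemma gU_typ_fix (hF : FinL M) {H : HSys M N} {X : List ℕ} {p : Equiv.Perm ℕ × Equiv.Perm ℕ}
    (hp : p ∈ KX H X) (V : Ultrafilter (I → ℕ)) {l : List (ℕ ⊕ I)}
    (hl : ∀ a, Sum.inl a ∈ l → a ∈ X) : typ M (gU p.1 V) l = typ M V l := by
  have h1 : l.map (Sum.map p.1 id) = l := by
    conv_rhs => rw [← List.map_id l]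
    refine List.map_congr_left fun a ha => ?_
    rcases a with a | a
    · exact congrArg Sum.inl (hp.2.1 a (hl a ha))
    · rfl
  have h2 := gU_typ hF hp.1 V l
  rwa [h1] at h2

lemma fkb_mono {H : HSys M N} {B B' : List ℕ} (h : B ⊆ B') {V : Ultrafilter (I → ℕ)}
    (hV : V ∈ FKB H B I) : V ∈ FKB H B' I := by
  refine ⟨hV.1, fun X hX => ?_⟩
  filter_upwards [hV.2 X (fun b hb => hX (h hb))] with x hx i hs
  refine hx i (Finset.Subset.trans (H.mono _ _ ?_) hs)
  intro b hb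
  rcases List.mem_append.1 hb with hb | hb
  · exact List.mem_append_left _ (h hb)
  · exact List.mem_append_right _ hb

lemma fkb_re {H : HSys M N} {B : List ℕ} {V : Ultrafilter (I → ℕ)} (hV : V ∈ FKB H B I)
    {f : J → I} (hf : Function.Injective f) : re V f ∈ FKB H B J := by
  refine ⟨?_, fun X hX => ?_⟩
  · change ∀ᶠ x in (re V f : Filter (J → ℕ)), Function.Injective x
    rw [re_ev]
    filter_upwards [hV.1] with x hx
    exact hx.comp hf
  · rw [re_ev]
    filter_upwards [hV.2 X hX] with x hx i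
    exact hx (f i)

lemma fkb_np {H : HSys M N} {B : List ℕ} {V : Ultrafilter (I → ℕ)} (hV : V ∈ FKB H B I) :
    NP V := by
  intro i a
  filter_upwards [hV.2 (B ++ [a]) (List.subset_append_left _ _)] with x hx hxa
  apply hx i
  rw [hxa]

end Pool.Agent.H76.HI
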